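import Pool.Agent.H.MP_1ff796_co.Almost4
import Pool.Agent.H.MP_b50c09_co.Absorb

namespace Pool.Agent.H.MP_1ff796_co

open Finset Pool.Agent.H.MP_b50c09_co

def EW {V : Type} (G : V → V → Prop) : Bool → Q4 V → Prop := fun _ => Wk G

def sg {V : Type} (T : Q4 V) : B4 V := ![{T.1}, {T.2.1}, {T.2.2.1}, {T.2.2.2}]

theorem bk_sg {V : Type} {G : V → V → Prop} {T : Q4 V} (h : Wk G T) (hd : ¬Dg T) :
    Bk (EW G) 1 (sg T) := by
  refine bk_of one_pos true _ _ _ _ (card_singleton _) (card_singleton _) (card_singleton _)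
    (card_singleton _) fun x hx y hy z hz w hw => ?_
  rw [mem_singleton] at hx hy hz hw
  subst hx hy hz hw
  exact ⟨h, hd⟩

theorem mem_sg {V : Type} [DecidableEq V] {T : Q4 V} {x : V} :
    x ∈ sp (sg T) ↔ x = T.1 ∨ x = T.2.1 ∨ x = T.2.2.1 ∨ x = T.2.2.2 := by
  simp [mem_sp, sg, Fin.exists_fin_succ]

/-- The block can trade its first vertex, which lies between `τ.2.1` and `τ.2.2`, for `τ.1`. -/
def Gt {V : Type} (G : V → V → Prop) (τ : V × V × V) (b : B4 V) : Prop :=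
  (∀ a ∈ b 0, G τ.2.1 a ∧ G a τ.2.2) ∧ (∀ x ∈ b 1, G τ.1 x) ∧ ∀ y ∈ b 3, G y τ.1

theorem common {V : Type} [Fintype V] (η n : ℝ) (hn : (Fintype.card V : ℝ) = n)
    (p q : V → Prop) (hp : (1 / 2 + η) * n ≤ ∑ a, ind (p a))
    (hq : (1 / 2 + η) * n ≤ ∑ a, ind (q a)) : 2 * η * n ≤ ∑ a, ind (p a ∧ q a) := by
  have h : ∑ a, (ind (p a) + ind (q a) - 1) ≤ ∑ a, ind (p a ∧ q a) := by
    refine sum_le_sum fun a _ => ?_
    rw [ind_and]
    nlinarith [mul_nonneg (sub_nonneg.2 (ind_le_one (p a))) (sub_nonneg.2 (ind_le_one (q a)))]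
  rw [sum_sub_distrib, sum_add_distrib, sum_const, card_univ, nsmul_eq_mul, hn] at h
  linarith

theorem lb {V : Type} [Fintype V] (r : V → Prop) (h : V → ℝ) (c d : ℝ) (hc : 0 ≤ c)
    (h1 : ∀ a, c ≤ h a) (h2 : d ≤ ∑ a, ind (r a)) : d * c ≤ ∑ a, ind (r a) * h a := by
  refine (mul_le_mul_of_nonneg_right h2 hc).trans ?_
  rw [sum_mul]
  exact sum_le_sum fun a _ => mul_le_mul_of_nonneg_left (h1 a) (ind_nonneg _)

open Classical in
/-- Four-cycles avoiding `W`. -/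
noncomputable def gs {V : Type} [Fintype V] (G : V → V → Prop) (W : Finset V) : Finset (Q4 V) :=
  univ.filter fun T => (Wk G T ∧ ¬Dg T) ∧ Av W T

theorem many4 {V : Type} [Fintype V] [DecidableEq V] (G : V → V → Prop) (η n : ℝ) (hη : 0 < η)
    (hn : (Fintype.card V : ℝ) = n) (hn1 : 6 ≤ 4 * η ^ 4 * n)
    (hd : ∀ u, (1 / 2 + η) * n ≤ ∑ y, ind (G u y) ∧ (1 / 2 + η) * n ≤ ∑ y, ind (G y u))
    (W : Finset V) (hW : (W.card : ℝ) ≤ η ^ 4 * n) (τ : V × V × V) :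
    8 * η ^ 4 * n ^ 4 ≤ ∑ T ∈ gs G W, ind (Gt G τ (sg T)) := by
  have hn0 : 0 ≤ n := by rw [← hn]; positivity
  have hc : 0 ≤ 2 * η * n := by positivity
  obtain ⟨v, p, q⟩ := τ
  have h1 : 2 * η * n * (2 * η * n * (2 * η * n * (2 * η * n))) ≤
      ∑ a, ind (G p a ∧ G a q) * ∑ x, ind (G a x ∧ G v x) * ∑ y, ind (G y a ∧ G y v) *
        ∑ z, ind (G x z ∧ G z y) :=
    lb _ _ _ _ (by positivity) (fun a => lb _ _ _ _ (by positivity) (fun x => lb _ _ _ _ hc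
      (fun y => common η n hn _ _ (hd x).1 (hd y).2) (common η n hn _ _ (hd a).2 (hd v).2))
      (common η n hn _ _ (hd a).1 (hd v).1)) (common η n hn _ _ (hd p).1 (hd q).2)
  have h2 := clean univ univ univ univ W n (η ^ 4 * n) (by rw [card_univ, hn])
    (by rw [card_univ, hn]) (by rw [card_univ, hn]) (by rw [card_univ, hn])
    (by rwa [univ_inter]) (by rwa [univ_inter]) (by rwa [univ_inter]) (by rwa [univ_inter])
    (fun T => Wk G T ∧ Gt G (v, p, q) (sg T))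
  have h3 : ∑ a, ind (G p a ∧ G a q) * ∑ x, ind (G a x ∧ G v x) * ∑ y, ind (G y a ∧ G y v) *
      ∑ z, ind (G x z ∧ G z y) ≤ ∑ T ∈ (univ : Finset V) ×ˢ (univ : Finset V) ×ˢ
        (univ : Finset V) ×ˢ (univ : Finset V), ind (Wk G T ∧ Gt G (v, p, q) (sg T)) := by
    simp only [sum_product, mul_sum]
    refine sum_le_sum fun a _ => sum_le_sum fun x _ => ?_
    rw [sum_comm]
    refine sum_le_sum fun z _ => sum_le_sum fun y _ => ?_
    simp only [← ind_and]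
    refine ind_mono fun ⟨a1, a2, a3, a4⟩ => ⟨⟨a2.1, a4.1, a4.2, a3.1⟩, ?_⟩
    simp [Gt, sg, a1, a2, a3]
  have h4 : ∑ T ∈ (univ : Finset V) ×ˢ (univ : Finset V) ×ˢ (univ : Finset V) ×ˢ
      (univ : Finset V), ind (((Wk G T ∧ Gt G (v, p, q) (sg T)) ∧ ¬Dg T) ∧ Av W T) ≤
      ∑ T ∈ gs G W, ind (Gt G (v, p, q) (sg T)) := by
    classical
    rw [gs, sum_filter]
    simp only [univ_product_univ]
    refine sum_le_sum fun T _ => ?_
    split_ifs with h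
    · exact ind_mono fun h => h.1.1.2
    · rw [ind_neg fun h' => h ⟨⟨h'.1.1.1, h'.1.2⟩, h'.2⟩]
  nlinarith [mul_le_mul_of_nonneg_right hn1 (show 0 ≤ n ^ 3 by positivity)]

open Classical in
/-- Number of blocks of `F` that serve the target `τ`. -/
noncomputable def cA {V : Type} (G : V → V → Prop) (F : Finset (B4 V)) (τ : V × V × V) : ℕ :=
  (F.filter (Gt G τ)).card

theorem pot4 {V : Type} [Fintype V] [DecidableEq V] (G : V → V → Prop) (β w : ℝ) (hβ1 : β ≤ 1)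
    (h1 : ∀ W : Finset V, (W.card : ℝ) ≤ w → (gs G W).Nonempty ∧ ∀ τ,
      β * (gs G W).card ≤ ∑ T ∈ gs G W, ind (Gt G τ (sg T))) (m : ℕ) :
    (4 * m : ℝ) ≤ w → ∃ F, Pk (EW G) 1 F ∧ F.card = m ∧
      ∑ τ, (1 / 2 : ℝ) ^ cA G F τ ≤ Fintype.card (V × V × V) * (1 - β / 2) ^ m := by
  induction m with
  | zero => intro _; exact ⟨∅, Pk.empty, rfl, by simp [cA]⟩
  | succ m ih =>
    intro hm
    obtain ⟨F, hF, hFc, hΦ⟩ := ih (by push_cast at hm; linarith)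
    obtain ⟨hne, h2⟩ := h1 (cv F) (by
      rw [hF.card_cv, hFc]; push_cast at hm ⊢; linarith)
    have hmem : ∀ T ∈ gs G (cv F), Bk (EW G) 1 (sg T) ∧ Disjoint (sp (sg T)) (cv F) := by
      intro T hT
      classical
      rw [gs, mem_filter] at hT
      refine ⟨bk_sg hT.2.1.1 hT.2.1.2, disjoint_left.2 fun x hx => ?_⟩
      obtain ⟨a1, a2, a3, a4⟩ := hT.2.2
      rcases mem_sg.1 hx with rfl | rfl | rfl | rfl <;> assumption
    have hnot : ∀ T ∈ gs G (cv F), sg T ∉ F := fun T hT hTF =>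
      disjoint_left.1 (hmem T hT).2 (mem_sg.2 (Or.inl rfl)) (sp_sub_cv hTF (mem_sg.2 (Or.inl rfl)))
    have hc : ∀ T ∈ gs G (cv F), ∀ τ, (1 / 2 : ℝ) ^ cA G (insert (sg T) F) τ =
        (1 / 2 : ℝ) ^ cA G F τ * (1 - ind (Gt G τ (sg T)) / 2) := by
      intro T hT τ
      classical
      unfold cA
      rw [filter_insert]
      split_ifs with h
      · rw [card_insert_of_notMem (fun h' => hnot T hT (mem_filter.1 h').1), ind_pos h, pow_succ]
        norm_num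
      · rw [ind_neg h]; simp
    have key : ∑ T ∈ gs G (cv F), ∑ τ, (1 / 2 : ℝ) ^ cA G (insert (sg T) F) τ ≤
        ∑ _T ∈ gs G (cv F), (Fintype.card (V × V × V) : ℝ) * (1 - β / 2) ^ (m + 1) := by
      rw [sum_congr rfl fun T hT => sum_congr rfl fun τ _ => hc T hT τ, sum_comm, sum_const,
        nsmul_eq_mul]
      have h3 : ∀ τ ∈ (univ : Finset (V × V × V)), ∑ T ∈ gs G (cv F),
          (1 / 2 : ℝ) ^ cA G F τ * (1 - ind (Gt G τ (sg T)) / 2) ≤
          (1 / 2 : ℝ) ^ cA G F τ * ((gs G (cv F)).card * (1 - β / 2)) := by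
        intro τ _
        rw [← mul_sum, sum_sub_distrib, ← sum_div, sum_const, nsmul_eq_mul]
        refine mul_le_mul_of_nonneg_left ?_ (by positivity)
        linarith [h2 τ]
      refine (sum_le_sum h3).trans ?_
      rw [← sum_mul, pow_succ]
      have h4 := mul_le_mul_of_nonneg_right hΦ
        (show 0 ≤ ((gs G (cv F)).card : ℝ) * (1 - β / 2) from
          mul_nonneg (by positivity) (by linarith))
      linarith
    obtain ⟨T, hT, hT2⟩ := exists_le_of_sum_le hne key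
    refine ⟨insert (sg T) F, ?_, by rw [card_insert_of_notMem (hnot T hT), hFc], hT2⟩
    rw [insert_eq]
    exact (Pk.single (hmem T hT).1).union hF (by rw [cv_single]; exact (hmem T hT).2)

theorem absorbers4 (η γ : ℝ) (hη : 0 < η) (hη1 : η ≤ 1 / 2) (hγ : 0 < γ) (hγ1 : γ ≤ η ^ 4) :
    ∃ ζ : ℝ, 0 < ζ ∧ ∃ n0 : ℝ, ∀ {V : Type} [Fintype V] [DecidableEq V]
      (G : V → V → Prop) (n : ℝ), (Fintype.card V : ℝ) = n → n0 ≤ n →
      (∀ u, (1 / 2 + η) * n ≤ ∑ y, ind (G u y) ∧ (1 / 2 + η) * n ≤ ∑ y, ind (G y u)) →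
      ∃ F, Pk (EW G) 1 F ∧ ((cv F).card : ℝ) ≤ γ * n ∧ ∀ τ, ζ * n ≤ cA G F τ := by
  obtain ⟨β, hβe⟩ : ∃ β, β = 8 * η ^ 4 := ⟨_, rfl⟩
  have hβ : 0 < β := by rw [hβe]; positivity
  have hβ1 : β ≤ 1 := by
    have := pow_le_pow_left₀ hη.le hη1 4
    rw [hβe]; linarith
  obtain ⟨L0, hL0⟩ := exists_pow_lt_of_lt_one (show (0 : ℝ) < 1 / 4 by norm_num)
    (show 1 - β / 2 < 1 by linarith)
  have hL : (1 - β / 2) ^ (L0 + 1) ≤ 1 / 4 := by
    have h0 : 0 ≤ (1 - β / 2) ^ L0 := pow_nonneg (by linarith) _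
    rw [pow_succ]; nlinarith
  obtain ⟨ζ, hζ, hζ2⟩ : ∃ ζ : ℝ, 0 < ζ ∧ 4 * ((L0 + 1 : ℕ) : ℝ) * ζ = γ :=
    ⟨γ / (4 * ((L0 + 1 : ℕ) : ℝ)), by positivity, by field_simp⟩
  obtain ⟨k0, hk0⟩ := grow 3 ζ hζ
  refine ⟨ζ, hζ, 6 / (4 * η ^ 4) + (k0 + 2) / ζ, ?_⟩
  intro V _ _ G n hn hn0 hd
  have hn1 : 6 ≤ 4 * η ^ 4 * n := by
    have : 6 / (4 * η ^ 4) ≤ n := le_trans (le_add_of_nonneg_right (by positivity)) hn0
    rw [div_le_iff₀ (by positivity)] at this; linarith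
  have hn2 : (k0 : ℝ) + 2 ≤ ζ * n := by
    have : (k0 + 2) / ζ ≤ n := le_trans (le_add_of_nonneg_left (by positivity)) hn0
    rw [div_le_iff₀ hζ] at this; linarith
  have hnn : 0 < n := by
    by_contra h
    have : 4 * η ^ 4 * n ≤ 0 := mul_nonpos_of_nonneg_of_nonpos (by positivity) (not_lt.1 h)
    linarith
  obtain ⟨k, hk1, hk2⟩ : ∃ k : ℕ, (k : ℝ) ≤ ζ * n ∧ ζ * n < k + 1 :=
    ⟨⌊ζ * n⌋₊, Nat.floor_le (by positivity), Nat.lt_floor_add_one _⟩
  have hk3 : k0 ≤ k := by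
    have : (k0 : ℝ) ≤ k := by linarith
    exact_mod_cast this
  have hm : (4 * (((L0 + 1) * k : ℕ) : ℝ)) ≤ γ * n := by
    rw [← hζ2, Nat.cast_mul]
    have := mul_le_mul_of_nonneg_left hk1 (show 0 ≤ 4 * ((L0 + 1 : ℕ) : ℝ) by positivity)
    linarith
  have hV : Nonempty V := by
    rw [← Fintype.card_pos_iff]
    rw [← hn] at hnn
    exact_mod_cast hnn
  obtain ⟨F, hF, hFc, hΦ⟩ := pot4 G β (γ * n) hβ1 (fun W hW => by
    have h1 := many4 G η n hη hn hn1 hd W (hW.trans (by gcongr))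
    have h2 : ((gs G W).card : ℝ) ≤ n ^ 4 := by
      have := card_le_univ (gs G W)
      simp only [Fintype.card_prod] at this
      have h3 : ((gs G W).card : ℝ) ≤ n * (n * (n * n)) := by rw [← hn]; exact_mod_cast this
      linarith
    refine ⟨?_, fun τ => le_trans ?_ (h1 τ)⟩
    · by_contra h
      have := h1 (Classical.arbitrary _)
      rw [not_nonempty_iff_eq_empty.1 h, sum_empty] at this
      exact absurd this (not_le.2 (by positivity))
    · rw [← hβe]; exact mul_le_mul_of_nonneg_left h2 hβ.le) ((L0 + 1) * k) hm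
  refine ⟨F, hF, ?_, fun τ => ?_⟩
  · rw [hF.card_cv, hFc]; push_cast at hm ⊢; linarith
  · have h2 := single_le_sum (f := fun τ => (1 / 2 : ℝ) ^ cA G F τ) (fun _ _ => by positivity)
      (mem_univ τ)
    have h3 : (1 - β / 2) ^ ((L0 + 1) * k) ≤ (1 / 4) ^ k := by
      rw [pow_mul]; exact pow_le_pow_left₀ (pow_nonneg (by linarith) _) hL k
    have h4 : n ^ 3 < 2 ^ k := by
      refine lt_of_le_of_lt (pow_le_pow_left₀ hnn.le ?_ 3) (hk0 k hk3)
      rw [le_div_iff₀ hζ]; linarith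
    have e : (Fintype.card (V × V × V) : ℝ) = n ^ 3 := by
      simp only [Fintype.card_prod, Nat.cast_mul, hn]; ring
    have h5 : (1 / 2 : ℝ) ^ cA G F τ < (1 / 2) ^ k := by
      calc (1 / 2 : ℝ) ^ cA G F τ ≤ n ^ 3 * (1 - β / 2) ^ ((L0 + 1) * k) := e ▸ h2.trans hΦ
        _ ≤ n ^ 3 * (1 / 4) ^ k := by gcongr
        _ < 2 ^ k * (1 / 4) ^ k := by gcongr
        _ = (1 / 2) ^ k := by rw [← mul_pow]; norm_num
    have h6 : k < cA G F τ := by
      by_contra h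
      exact absurd (pow_le_pow_of_le_one (by norm_num) (by norm_num) (not_lt.1 h)) (not_le.2 h5)
    have h7 : (k : ℝ) + 1 ≤ cA G F τ := by exact_mod_cast h6
    linarith

end Pool.Agent.H.MP_1ff796_co
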