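import Pool.Agent.H.MP_1ff796_co.Core4

namespace Pool.Agent.H.MP_1ff796_co

open Finset Pool.Agent.H.MP_b50c09_co

theorem restrict {V : Type} [Fintype V] [DecidableEq V] {P Q : Finset V} (hQP : Q ⊆ P)
    (f : Q4 V → ℝ) (h0 : ∀ U, 0 ≤ f U) (hs : ∀ U, f U ≠ 0 → InP P U) (h1 : ∀ u, ld f u ≤ 1) :
    (∀ u, ld (fun U => f U * ind (InP Q U)) u ≤ 1) ∧
      ∑ u ∈ Q, (1 - ld (fun U => f U * ind (InP Q U)) u) ≤
        ∑ u ∈ P, (1 - ld f u) + 4 * ((P.card : ℝ) - Q.card) := by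
  have a1 : ∀ u, ld (fun U => f U * ind (InP Q U)) u ≤ ld f u := fun u =>
    sum_le_sum fun U _ => mul_le_mul_of_nonneg_right
      (mul_le_of_le_one_right (h0 U) (ind_le_one _)) (mult_nonneg _ _)
  refine ⟨fun u => (a1 u).trans (h1 u), ?_⟩
  have a2 : ∑ u ∈ Q, (1 - ld f u) ≤ ∑ u ∈ P, (1 - ld f u) :=
    sum_le_sum_of_subset_of_nonneg hQP fun u _ _ => by linarith [h1 u]
  have a3 : ∑ u ∈ Q, (ld f u - ld (fun U => f U * ind (InP Q U)) u) ≤
      ∑ u, (ld f u - ld (fun U => f U * ind (InP Q U)) u) :=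
    sum_le_sum_of_subset_of_nonneg (subset_univ _) fun u _ _ => by linarith [a1 u]
  have a4 := sum_ld (fun _ => (1 : ℝ)) f
  have a5 := sum_ld (fun _ => (1 : ℝ)) (fun U => f U * ind (InP Q U))
  have a6 := sum_ld (fun v => ind (v ∈ P \ Q)) f
  have a7 : ∑ v, ind (v ∈ P \ Q) * ld f v ≤ ∑ v, ind (v ∈ P \ Q) :=
    sum_le_sum fun v _ => mul_le_of_le_one_right (ind_nonneg _) (h1 v)
  have a8 := sum_ind_mem_le univ (P \ Q)
  rw [card_sdiff_of_subset hQP, Nat.cast_sub (card_le_card hQP)] at a8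
  have a9 : ∑ U, f U * s4 (fun _ => (1 : ℝ)) U ≤ ∑ U, (f U * ind (InP Q U) *
      s4 (fun _ => (1 : ℝ)) U + 4 * (f U * s4 (fun v => ind (v ∈ P \ Q)) U)) := by
    refine sum_le_sum fun U _ => ?_
    by_cases h : f U = 0
    · rw [h]; simp
    obtain ⟨p1, p2, p3, p4⟩ := hs U h
    have b1 := ind_nonneg (U.1 ∈ P \ Q)
    have b2 := ind_nonneg (U.2.1 ∈ P \ Q)
    have b3 := ind_nonneg (U.2.2.1 ∈ P \ Q)
    have b4 := ind_nonneg (U.2.2.2 ∈ P \ Q)
    have b5 : 1 ≤ ind (InP Q U) + s4 (fun v => ind (v ∈ P \ Q)) U := by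
      have b6 := ind_nonneg (InP Q U)
      unfold s4
      beta_reduce
      by_cases q1 : U.1 ∈ Q
      swap
      · rw [ind_pos (mem_sdiff.2 ⟨p1, q1⟩)]; linarith
      by_cases q2 : U.2.1 ∈ Q
      swap
      · rw [ind_pos (mem_sdiff.2 ⟨p2, q2⟩)]; linarith
      by_cases q3 : U.2.2.1 ∈ Q
      swap
      · rw [ind_pos (mem_sdiff.2 ⟨p3, q3⟩)]; linarith
      by_cases q4 : U.2.2.2 ∈ Q
      swap
      · rw [ind_pos (mem_sdiff.2 ⟨p4, q4⟩)]; linarith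
      rw [ind_pos (show InP Q U from ⟨q1, q2, q3, q4⟩)]; linarith
    have e : s4 (fun _ => (1 : ℝ)) U = 4 := by unfold s4; norm_num
    rw [e]
    linarith [mul_le_mul_of_nonneg_left b5 (h0 U)]
  rw [sum_add_distrib, ← mul_sum] at a9
  simp only [one_mul, sum_sub_distrib] at a2 a3 a4 a5 ⊢
  linarith

theorem improve_a (p m N T x z R s lam η n : ℝ) (hl : 0 < lam) (hm : 0 ≤ m)
    (hp : p ≤ N * T + T) (hx : N * (lam * T) - R ≤ x)
    (hz : m * (4 * (T - lam * T) - 4 * s) - 4 * R ≤ z) (hR : R ≤ 11 * lam * η * n)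
    (hs : s ≤ lam * η * T) (hmT : 4 * T * m ≤ n) (hη : 0 < η) (hT : T ≤ η * n) :
    p - (x + z) ≤ (1 - lam) * (p - 4 * T * m) + 57 * lam * η * n := by
  have h1 := mul_le_mul_of_nonneg_left hp hl.le
  have h2 := mul_le_mul_of_nonneg_left hs hm
  have h3 := mul_le_mul_of_nonneg_left hmT (mul_pos hl hη).le
  have h4 := mul_le_mul_of_nonneg_left hT hl.le
  nlinarith

theorem improve4 (K η : ℝ) (hK : 1 ≤ K) (hη : 0 < η) (hη1 : η ≤ 1) (s : ℕ) (hs : 0 < s) :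
    ∃ T : ℕ, 0 < T ∧ ∃ n0 : ℝ, ∀ {V : Type} [Fintype V] [DecidableEq V]
    (E : Bool → Q4 V → Prop) (P : Finset V) (n : ℝ), 0 < n → n0 ≤ n → (P.card : ℝ) ≤ n →
    ∀ f : Q4 V → ℝ, (∀ U, 0 ≤ f U) → (∀ U, f U ≤ K / n ^ 3) →
      (∀ U, f U ≠ 0 → InP P U ∧ ∃ c, E c U) →
      (∀ u, ld f u ≤ 1) → ∑ u ∈ P, (1 - ld f u) ≤ η / 2 * n →
      ∀ Y ⊆ P, Tl E T Y → ∃ X ⊆ P, Tl E s X ∧
        (P.card : ℝ) - X.card ≤ (1 - η / (64 * K ^ 2)) * (P.card - Y.card) +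
          57 * (η / (64 * K ^ 2)) * η * n := by
  have hK0 : 0 < K := by linarith
  set lam := η / (64 * K ^ 2) with hlam
  have hl0 : 0 < lam := by positivity
  have hl1 : lam ≤ 1 / 8 := by
    rw [hlam, div_le_iff₀ (by positivity)]; nlinarith
  obtain ⟨T0, hT0⟩ := core4 K η hK hη s hs
  obtain ⟨T1, hT1⟩ := exists_nat_ge (s / (lam * η))
  obtain ⟨T, hTa, hTb, hTpos⟩ : ∃ T : ℕ, T0 ≤ T ∧ T1 ≤ T ∧ 0 < T :=
    ⟨T0 + T1 + 1, by omega, by omega, by omega⟩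
  have hT' : (0 : ℝ) < T := by exact_mod_cast hTpos
  have hsT : (s : ℝ) ≤ lam * η * T := by
    have : (T1 : ℝ) ≤ T := by exact_mod_cast hTb
    rw [div_le_iff₀ (by positivity)] at hT1
    nlinarith [mul_pos hl0 hη]
  refine ⟨T, hTpos, T / (lam * η), ?_⟩
  intro V _ _ E P n hn hn0 hPn f hf0 hf1 hfs hload hdef Y hYP ⟨F, hF, hFY⟩
  subst hFY
  have hn2 : T ≤ lam * η * n := by
    rw [div_le_iff₀ (by positivity)] at hn0; linarith
  have hn1 : 8 * T ≤ η * n := by nlinarith [mul_pos hη hn]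
  have hYc : ((cv F).card : ℝ) ≤ P.card := by exact_mod_cast card_le_card hYP
  by_cases hPT : P.card < T
  · refine ⟨∅, empty_subset _, Tl.empty, ?_⟩
    have h1 : (P.card : ℝ) ≤ T := by exact_mod_cast hPT.le
    have h2 : 0 ≤ (1 - lam) * (P.card - (cv F).card) := mul_nonneg (by linarith) (by linarith)
    have h3 : 0 ≤ lam * η * n := by positivity
    rw [card_empty, Nat.cast_zero]
    linarith
  set U := P \ cv F with hU
  obtain ⟨r, hr2, hr3⟩ : ∃ r, U.card < r * T + T ∧ r * T ≤ U.card :=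
    ⟨U.card / T, Nat.lt_div_mul_add hTpos, Nat.div_mul_le_self _ _⟩
  obtain ⟨pc, hpc1, hpc2⟩ := pieces T r U hr3
  have hUc : U.card + 4 * T * F.card = P.card := by
    rw [← hF.card_cv, hU, card_sdiff_of_subset hYP]
    have := card_le_card hYP
    omega
  obtain ⟨cl, hcl1, hcl2⟩ : ∃ cl : (F × Fin 4) ⊕ Fin r → Finset V,
      (∀ b i, cl (Sum.inl (b, i)) = b.1 i) ∧ ∀ j, cl (Sum.inr j) = pc j :=
    ⟨Sum.elim (fun p => p.1.1 p.2) pc, fun _ _ => rfl, fun _ => rfl⟩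
  have hc : ∀ i, (cl i).card = T := by
    rintro (⟨b, i⟩ | j)
    · rw [hcl1]; exact (hF.1 _ b.2).1 i
    · rw [hcl2]; exact (hpc1 j).2
  have hd1 : ∀ (b : F) i j, Disjoint (b.1 i) (pc j) := fun b i j =>
    disjoint_sdiff.mono ((sub_sp _ _).trans (sp_sub_cv b.2)) (hpc1 j).1
  have hd : ∀ i j, i ≠ j → Disjoint (cl i) (cl j) := by
    rintro (⟨b, i⟩ | i) (⟨b', j⟩ | j) h
    · rw [hcl1, hcl1]
      by_cases hb : b = b'
      · subst hb
        exact (hF.1 _ b.2).2.1 i j (fun e => h (by rw [e]))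
      · exact (hF.2 _ b.2 _ b'.2 (fun e => hb (Subtype.ext e))).mono (sub_sp _ _) (sub_sp _ _)
    · rw [hcl1, hcl2]; exact hd1 b i j
    · rw [hcl1, hcl2]; exact (hd1 b' j i).symm
    · rw [hcl2, hcl2]; exact hpc2 i j (fun e => h (by rw [e]))
  have hN : Fintype.card ((F × Fin 4) ⊕ Fin r) = F.card * 4 + r := by simp
  have hne : Nonempty ((F × Fin 4) ⊕ Fin r) := by
    rw [← Fintype.card_pos_iff, hN]
    by_contra h0
    have h1 : F.card = 0 := by omega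
    have h2 : r = 0 := by omega
    rw [h1] at hUc
    rw [h2] at hr2
    omega
  haveI : DecidableEq ((F × Fin 4) ⊕ Fin r) := Classical.decEq _
  letI : AddCommGroup ((F × Fin 4) ⊕ Fin r) := (Fintype.equivFin _).addCommGroup
  have hQP : univ.biUnion cl ⊆ P := by
    rw [biUnion_subset]
    rintro (⟨b, i⟩ | j) -
    · rw [hcl1]; exact ((sub_sp _ _).trans (sp_sub_cv b.2)).trans hYP
    · rw [hcl2]; exact (hpc1 j).1.trans sdiff_subset
  have hQc : (univ.biUnion cl).card = Fintype.card ((F × Fin 4) ⊕ Fin r) * T := by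
    rw [card_biUnion (fun i _ j _ h => hd i j h), sum_congr rfl fun i _ => hc i, sum_const,
      card_univ, smul_eq_mul]
  have hPQ : P.card ≤ Fintype.card ((F × Fin 4) ⊕ Fin r) * T + T := by
    rw [hN, ← hUc]; nlinarith
  have hQn : ((univ.biUnion cl).card : ℝ) ≤ P.card := by exact_mod_cast card_le_card hQP
  have hPQ' : (P.card : ℝ) ≤ (univ.biUnion cl).card + T := by rw [hQc]; exact_mod_cast hPQ
  have hls := restrict hQP f hf0 (fun U h => (hfs U h).1) hload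
  obtain ⟨X, hXQ, hXt, hXd⟩ := hT0 T hTa E cl hc hd n hn
    (by rw [← Nat.cast_mul, ← hQc]; linarith) (fun U => f U * ind (InP (univ.biUnion cl) U))
    (fun U => mul_nonneg (hf0 U) (ind_nonneg _))
    (fun U => (mul_le_of_le_one_right (hf0 U) (ind_le_one _)).trans (hf1 U))
    (fun U h => ⟨of_ind_ne_zero (right_ne_zero_of_mul h), (hfs U (left_ne_zero_of_mul h)).2⟩)
    hls.1 (by linarith [hls.2])
  rw [← hlam] at hXd
  have hrest : ∀ b ∈ F, ∃ Z ⊆ sp b \ X, Tl E s Z ∧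
      4 * (T - lam * T - ∑ i, |((X ∩ b i).card : ℝ) - lam * T|) - 4 * s ≤ (Z.card : ℝ) := by
    intro b hb
    refine tile_rest hs (hF.1 b hb) X _ fun i => ?_
    have h1 : (b i \ X).card + (X ∩ b i).card = T := by
      rw [inter_comm, card_sdiff_add_card_inter, (hF.1 b hb).1]
    have h2 : ((b i \ X).card : ℝ) + (X ∩ b i).card = T := by exact_mod_cast h1
    have h3 := single_le_sum (f := fun i => |((X ∩ b i).card : ℝ) - lam * T|)
      (fun i _ => abs_nonneg _) (mem_univ i)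
    have h4 := le_abs_self (((X ∩ b i).card : ℝ) - lam * T)
    linarith
  choose! Z hZ1 hZ2 hZ3 using hrest
  have hZd : ∀ b ∈ F, ∀ b' ∈ F, b ≠ b' → Disjoint (Z b) (Z b') := fun b hb b' hb' h =>
    (hF.2 b hb b' hb' h).mono ((hZ1 b hb).trans sdiff_subset) ((hZ1 b' hb').trans sdiff_subset)
  have hXZ : Disjoint X (F.biUnion Z) := by
    rw [disjoint_biUnion_right]
    exact fun b hb => disjoint_sdiff.mono_right (hZ1 b hb)
  refine ⟨X ∪ F.biUnion Z, union_subset (hXQ.trans hQP) ?_,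
    hXt.union (Tl.biUnion F Z hZ2 hZd) hXZ, ?_⟩
  · rw [biUnion_subset]
    exact fun b hb => ((hZ1 b hb).trans sdiff_subset).trans ((sp_sub_cv hb).trans hYP)
  · rw [card_union_of_disjoint hXZ, card_biUnion hZd, hF.card_cv]
    push_cast
    refine improve_a _ _ (Fintype.card ((F × Fin 4) ⊕ Fin r) : ℝ) _ _ _ _ s lam η n hl0
      (by positivity) (by exact_mod_cast hPQ) ?_ ?_ hXd hsT ?_ hη (by linarith)
    · have h1 : X = univ.biUnion fun x => X ∩ cl x := by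
        rw [← inter_biUnion, inter_eq_left.2 hXQ]
      have h2 : X.card = ∑ x, (X ∩ cl x).card := by
        conv_lhs => rw [h1]
        exact card_biUnion fun i _ j _ h => (hd i j h).mono inter_subset_right inter_subset_right
      rw [h2, Nat.cast_sum, ← nsmul_eq_mul, ← card_univ, ← sum_const, ← sum_sub_distrib]
      exact sum_le_sum fun x _ => by linarith [neg_abs_le (((X ∩ cl x).card : ℝ) - lam * T)]
    · have h1 := sum_le_sum hZ3
      have h2 : ∑ b ∈ F, ∑ i, |((X ∩ b i).card : ℝ) - lam * T| ≤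
          ∑ x, |((X ∩ cl x).card : ℝ) - lam * T| := by
        rw [Fintype.sum_sum_type, Fintype.sum_prod_type]
        simp only [hcl1]
        rw [sum_coe_sort F (fun b => ∑ i, |((X ∩ b i).card : ℝ) - lam * T|)]
        exact le_add_of_nonneg_right (sum_nonneg fun _ _ => abs_nonneg _)
      simp only [mul_sub, sum_sub_distrib, sum_const, nsmul_eq_mul, ← mul_sum] at h1
      linarith
    · have : 4 * T * F.card ≤ P.card := by omega
      have h2 : (4 * T * F.card : ℝ) ≤ P.card := by exact_mod_cast this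
      linarith

theorem almost_iter4 (K η : ℝ) (hK : 1 ≤ K) (hη : 0 < η) (hη1 : η ≤ 1) (k : ℕ) :
    ∀ s : ℕ, 0 < s → ∃ n0 : ℝ, ∀ {V : Type} [Fintype V] [DecidableEq V]
    (E : Bool → Q4 V → Prop) (P : Finset V) (n : ℝ), 0 < n → n0 ≤ n → (P.card : ℝ) ≤ n →
    ∀ f : Q4 V → ℝ, (∀ U, 0 ≤ f U) → (∀ U, f U ≤ K / n ^ 3) →
      (∀ U, f U ≠ 0 → InP P U ∧ ∃ c, E c U) →
      (∀ u, ld f u ≤ 1) → ∑ u ∈ P, (1 - ld f u) ≤ η / 2 * n →
      ∃ X ⊆ P, Tl E s X ∧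
        (P.card : ℝ) - X.card ≤ ((1 - η / (64 * K ^ 2)) ^ k + 57 * η) * n := by
  induction k with
  | zero =>
    intro s _
    refine ⟨0, ?_⟩
    intro V _ _ E P n hn _ hP f _ _ _ _ _
    refine ⟨∅, empty_subset _, Tl.empty, ?_⟩
    rw [card_empty, Nat.cast_zero, pow_zero]
    nlinarith [mul_pos hη hn]
  | succ k ih =>
    intro s hs
    obtain ⟨T, hT, n1, h1⟩ := improve4 K η hK hη hη1 s hs
    obtain ⟨n2, h2⟩ := ih T hT
    refine ⟨max n1 n2, ?_⟩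
    intro V _ _ E P n hn hn0 hP f a1 a2 a3 a4 a5
    obtain ⟨Y, hY1, hY2, hY3⟩ := h2 E P n hn ((le_max_right _ _).trans hn0) hP f a1 a2 a3 a4 a5
    obtain ⟨X, hX1, hX2, hX3⟩ := h1 E P n hn ((le_max_left _ _).trans hn0) hP f a1 a2 a3 a4 a5
      Y hY1 hY2
    refine ⟨X, hX1, hX2, hX3.trans ?_⟩
    have hl1 : η / (64 * K ^ 2) ≤ 1 := by
      rw [div_le_one (by positivity)]; nlinarith
    have := mul_le_mul_of_nonneg_left hY3 (sub_nonneg.2 hl1)
    generalize η / (64 * K ^ 2) = lam at this ⊢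
    rw [pow_succ]
    linarith

theorem almost4 (K η : ℝ) (hK : 1 ≤ K) (hη : 0 < η) (hη1 : η ≤ 1) (s : ℕ) (hs : 0 < s) :
    ∃ n0 : ℝ, ∀ {V : Type} [Fintype V] [DecidableEq V]
    (E : Bool → Q4 V → Prop) (P : Finset V) (n : ℝ), 0 < n → n0 ≤ n → (P.card : ℝ) ≤ n →
    ∀ f : Q4 V → ℝ, (∀ U, 0 ≤ f U) → (∀ U, f U ≤ K / n ^ 3) →
      (∀ U, f U ≠ 0 → InP P U ∧ ∃ c, E c U) →
      (∀ u, ld f u ≤ 1) → ∑ u ∈ P, (1 - ld f u) ≤ η / 2 * n →
      ∃ X ⊆ P, Tl E s X ∧ (P.card : ℝ) - X.card ≤ 58 * η * n := by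
  have hl0 : 0 < η / (64 * K ^ 2) := by positivity
  obtain ⟨k, hk⟩ := exists_pow_lt_of_lt_one hη (show 1 - η / (64 * K ^ 2) < 1 by linarith)
  obtain ⟨n0, h⟩ := almost_iter4 K η hK hη hη1 k s hs
  refine ⟨n0, ?_⟩
  intro V _ _ E P n hn hn0 hP f a1 a2 a3 a4 a5
  obtain ⟨X, hX1, hX2, hX3⟩ := h E P n hn hn0 hP f a1 a2 a3 a4 a5
  refine ⟨X, hX1, hX2, hX3.trans ?_⟩
  nlinarith

end Pool.Agent.H.MP_1ff796_co
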