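import Pool.Agent.H.MP_1ff796_co.Sample

namespace Pool.Agent.H.MP_1ff796_co

open Finset Pool.Agent.H.MP_b50c09_co

/-- Two double edges. -/
def Db {ι : Type} (G : ι → ι → Prop) (T : Q4 ι) : Prop :=
  (G T.1 T.2.1 ∧ G T.2.1 T.1) ∧ (G T.2.2.1 T.2.2.2 ∧ G T.2.2.2 T.2.2.1)

def InP {V : Type} (P : Finset V) (T : Q4 V) : Prop :=
  T.1 ∈ P ∧ T.2.1 ∈ P ∧ T.2.2.1 ∈ P ∧ T.2.2.2 ∈ P

theorem ld_eq {V : Type} [Fintype V] (f : Q4 V → ℝ) (u : V) :
    ld f u = ∑ T, f T * s4 (fun z => ind (z = u)) T := rfl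

theorem prod_trick {V : Type} [Fintype V] (g : V × V → ℝ) (M : ℝ) (hM : ∑ p, g p = M)
    (h0 : M ≠ 0) (φ : V → ℝ) :
    ∑ T : Q4 V, g (T.1, T.2.1) * g (T.2.2.1, T.2.2.2) / (2 * M) * s4 φ T =
      ∑ p, g p * (φ p.1 + φ p.2) := by
  have e : ∀ T : Q4 V, g (T.1, T.2.1) * g (T.2.2.1, T.2.2.2) / (2 * M) * s4 φ T =
      1 / (2 * M) * (g (T.1, T.2.1) * (φ T.1 + φ T.2.1) * g (T.2.2.1, T.2.2.2) +
        g (T.1, T.2.1) * (g (T.2.2.1, T.2.2.2) * (φ T.2.2.1 + φ T.2.2.2))) := fun T => by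
    unfold s4; ring
  rw [Fintype.sum_prod_type] at hM
  simp only [e, Fintype.sum_prod_type, sum_add_distrib, ← mul_sum, ← sum_mul, hM]
  field_simp
  ring

theorem averaged (η ε : ℝ) (hη : 0 < η) (hη1 : η ≤ 1) (hε : 0 < ε) (hε1 : ε ≤ η / 4) (m : ℕ)
    (hm1 : 8 ≤ η * m) (hm2 : 128 ≤ η ^ 3 * ε * m) {V : Type} [Fintype V] [DecidableEq V]
    (G : V → V → Prop) (hG : ∀ a, ¬G a a) (P : Finset V) (hP : P.Nonempty)
    (hd : ∀ u ∈ P, (1 / 2 + η) * P.card ≤ ∑ y ∈ P, ind (G u y) ∧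
      (1 / 2 + η) * P.card ≤ ∑ y ∈ P, ind (G y u)) :
    ∃ (f : Q4 V → ℝ) (g : V × V → ℝ), (∀ T, 0 ≤ f T) ∧ (∀ p, 0 ≤ g p) ∧
      (∀ T, f T ≤ (m : ℝ) ^ 3 / (P.card : ℝ) ^ 3) ∧ (∀ p, g p ≤ 2 * (m : ℝ) ^ 3 / P.card) ∧
      (∀ T, f T ≠ 0 → InP P T ∧ Wk G T) ∧
      (∀ p, g p ≠ 0 → (p.1 ∈ P ∧ p.2 ∈ P) ∧ G p.1 p.2 ∧ G p.2 p.1) ∧
      (∀ u, ld f u + ∑ p, g p * (ind (p.1 = u) + ind (p.2 = u)) ≤ 1) ∧
      ∑ u ∈ P, (1 - (ld f u + ∑ p, g p * (ind (p.1 = u) + ind (p.2 = u)))) ≤ 2 * ε * P.card := by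
  have hp : (0 : ℝ) < P.card := by exact_mod_cast hP.card_pos
  have hm0 : (0 : ℝ) < m := by
    by_contra h
    have : η * m ≤ 0 := mul_nonpos_of_nonneg_of_nonpos hη.le (not_lt.1 h)
    linarith
  choose F F0 F1 F2 F3 using fun σ : Fin m → V =>
    one_sample (fun i j => G (σ i) (σ j)) η ε hη hη1 hε hε1
  have F4 : ∀ σ T, F σ T ≤ 1 := fun σ T => (le_ld (F σ) (F0 σ) T _ (Or.inl rfl)).trans (F2 σ _)
  obtain ⟨c, hc0, hc⟩ : ∃ c : ℝ, 0 < c ∧ c * (m * (P.card : ℝ) ^ m) = P.card :=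
    ⟨P.card / (m * (P.card : ℝ) ^ m), by positivity, by field_simp⟩
  set f : Q4 V → ℝ := fun U => c * ∑ σ ∈ Om m P, ∑ T, F σ T * ind (T.1 ≠ T.2.2.1) *
    ind ((σ T.1, σ T.2.1, σ T.2.2.1, σ T.2.2.2) = U) with hf
  set g : V × V → ℝ := fun p => c * ∑ σ ∈ Om m P, ∑ T, 2 * F σ T * ind (T.1 = T.2.2.1) *
    ind ((σ T.1, σ T.2.1) = p) with hg
  have key : ∀ φ : V → ℝ, ∑ U, f U * s4 φ U + ∑ p, g p * (φ p.1 + φ p.2) =
      c * ∑ σ ∈ Om m P, ∑ i, φ (σ i) * ld (F σ) i := by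
    intro φ
    simp only [hf, hg, mul_assoc c, ← mul_sum, sum_mul]
    rw [← mul_add, sum_comm, sum_comm (s := univ) (t := Om m P), ← sum_add_distrib]
    congr 1
    refine sum_congr rfl fun σ _ => ?_
    rw [sum_ld (fun i => φ (σ i)), sum_comm, sum_comm (s := univ) (t := (univ : Finset (Q4 (Fin m)))),
      ← sum_add_distrib]
    refine sum_congr rfl fun T _ => ?_
    simp only [mul_assoc, ← mul_sum, mul_comm (ind ((_, _) = _))]
    rw [sum_ind_eq (s4 φ), sum_ind_eq (fun p : V × V => φ p.1 + φ p.2)]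
    by_cases h0 : F σ T = 0
    · rw [h0]; ring
    by_cases h : T.1 = T.2.2.1
    · have h2 : T.2.1 = T.2.2.2 := ((F1 σ T h0).2.resolve_left fun h' => h'.1 h).2
      rw [ind_pos h, ind_neg (not_not.2 h)]
      simp only [s4, ← h, ← h2]
      ring
    · rw [ind_neg h, ind_pos h]
      simp only [s4]
      ring
  have key2 : ∀ u, ld f u + ∑ p, g p * (ind (p.1 = u) + ind (p.2 = u)) =
      c * ∑ σ ∈ Om m P, ∑ i, ind (σ i = u) * ld (F σ) i := fun u => key fun z => ind (z = u)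
  refine ⟨f, g, fun U => ?_, fun p => ?_, fun U => ?_, fun p => ?_, fun U hU => ?_,
    fun p hp => ?_, fun u => ?_, ?_⟩
  · exact mul_nonneg hc0.le (sum_nonneg fun σ _ => sum_nonneg fun T _ =>
      mul_nonneg (mul_nonneg (F0 σ T) (ind_nonneg _)) (ind_nonneg _))
  · exact mul_nonneg hc0.le (sum_nonneg fun σ _ => sum_nonneg fun T _ =>
      mul_nonneg (mul_nonneg (mul_nonneg zero_le_two (F0 σ T)) (ind_nonneg _)) (ind_nonneg _))
  · have h1 : ∀ T : Q4 (Fin m), (P.card : ℝ) ^ 4 * ∑ σ ∈ Om m P, F σ T * ind (T.1 ≠ T.2.2.1) *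
        ind ((σ T.1, σ T.2.1, σ T.2.2.1, σ T.2.2.2) = U) ≤ (P.card : ℝ) ^ m := by
      intro T
      by_cases h : ∃ σ, F σ T ≠ 0 ∧ T.1 ≠ T.2.2.1
      · obtain ⟨σ, h1, h2⟩ := h
        obtain ⟨⟨q1, q2, q3, q4⟩, q5⟩ := F1 σ T h1
        have q6 := (q5.resolve_right fun h' => h2 h'.1).2
        refine le_trans (mul_le_mul_of_nonneg_left (sum_le_sum fun τ _ => ?_) (by positivity))
          (cnt4 P T.1 T.2.1 T.2.2.1 T.2.2.2 (fun e => hG _ (e ▸ q1)) h2 (fun e => hG _ (e ▸ q4))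
            (fun e => hG _ (e ▸ q2)) q6 (fun e => hG _ (e ▸ q3)) U.1 U.2.1 U.2.2.1 U.2.2.2)
        rw [ind_pos h2, mul_one, ind_congr (show (τ T.1, τ T.2.1, τ T.2.2.1, τ T.2.2.2) = U ↔ _ by
          simp only [Prod.ext_iff]; rfl)]
        exact mul_le_of_le_one_left (ind_nonneg _) (F4 τ T)
      · rw [sum_eq_zero, mul_zero]
        · positivity
        · intro σ _
          by_cases h1 : F σ T = 0
          · rw [h1]; ring
          · rw [ind_neg fun h2 => h ⟨σ, h1, h2⟩]; ring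
    have h2 := sum_le_sum (s := univ) fun T _ => h1 T
    rw [← mul_sum, sum_comm, sum_const, card_univ, nsmul_eq_mul] at h2
    simp only [Fintype.card_prod, Fintype.card_fin, Nat.cast_mul] at h2
    rw [le_div_iff₀ (by positivity)]
    have h3 := mul_le_mul_of_nonneg_left h2 hc0.le
    refine le_of_mul_le_mul_left ?_ hp
    calc _ = c * ((P.card : ℝ) ^ 4 * ∑ σ ∈ Om m P, ∑ T, F σ T * ind (T.1 ≠ T.2.2.1) *
          ind ((σ T.1, σ T.2.1, σ T.2.2.1, σ T.2.2.2) = U)) := by simp only [hf]; ring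
      _ ≤ c * (m * (P.card : ℝ) ^ m) * (m : ℝ) ^ 3 := by linarith
      _ = _ := by rw [hc]
  · have h1 : ∀ T : Q4 (Fin m), (P.card : ℝ) ^ 2 * ∑ σ ∈ Om m P, 2 * F σ T * ind (T.1 = T.2.2.1) *
        ind ((σ T.1, σ T.2.1) = p) ≤ 2 * (P.card : ℝ) ^ m := by
      intro T
      by_cases h : T.1 = T.2.1
      · rw [sum_eq_zero, mul_zero]
        · positivity
        · intro σ _
          have : F σ T = 0 := by
            by_contra h1
            exact hG _ (h ▸ (F1 σ T h1).1.1)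
          rw [this]; ring
      · have h2 := cnt2 P T.1 T.2.1 h p.1 p.2
        have h3 : ∑ σ ∈ Om m P, 2 * F σ T * ind (T.1 = T.2.2.1) * ind ((σ T.1, σ T.2.1) = p) ≤
            ∑ σ ∈ Om m P, 2 * ind (σ T.1 = p.1 ∧ σ T.2.1 = p.2) := by
          refine sum_le_sum fun σ _ => ?_
          rw [ind_congr (show (σ T.1, σ T.2.1) = p ↔ _ from Prod.ext_iff)]
          refine mul_le_mul_of_nonneg_right ?_ (ind_nonneg _)
          nlinarith [F0 σ T, F4 σ T, ind_nonneg (T.1 = T.2.2.1), ind_le_one (T.1 = T.2.2.1)]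
        rw [← mul_sum] at h3
        nlinarith [mul_le_mul_of_nonneg_left h3 (show (0 : ℝ) ≤ (P.card : ℝ) ^ 2 by positivity)]
    have h2 := sum_le_sum (s := univ) fun T _ => h1 T
    rw [← mul_sum, sum_comm, sum_const, card_univ, nsmul_eq_mul] at h2
    simp only [Fintype.card_prod, Fintype.card_fin, Nat.cast_mul] at h2
    rw [le_div_iff₀ (by positivity)]
    have h3 := mul_le_mul_of_nonneg_left h2 hc0.le
    refine le_of_mul_le_mul_left ?_ hp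
    calc _ = c * ((P.card : ℝ) ^ 2 * ∑ σ ∈ Om m P, ∑ T, 2 * F σ T * ind (T.1 = T.2.2.1) *
          ind ((σ T.1, σ T.2.1) = p)) := by simp only [hg]; ring
      _ ≤ c * (m * (P.card : ℝ) ^ m) * (2 * (m : ℝ) ^ 3) := by linarith
      _ = _ := by rw [hc]
  · obtain ⟨σ, hσ, h1⟩ := exists_ne_zero_of_sum_ne_zero (right_ne_zero_of_mul hU)
    obtain ⟨T, -, h2⟩ := exists_ne_zero_of_sum_ne_zero h1
    have h3 := of_ind_ne_zero (right_ne_zero_of_mul h2)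
    have h4 := F1 σ T (left_ne_zero_of_mul (left_ne_zero_of_mul h2))
    rw [Fintype.mem_piFinset] at hσ
    subst h3
    exact ⟨⟨hσ _, hσ _, hσ _, hσ _⟩, h4.1⟩
  · obtain ⟨σ, hσ, h1⟩ := exists_ne_zero_of_sum_ne_zero (right_ne_zero_of_mul hp)
    obtain ⟨T, -, h2⟩ := exists_ne_zero_of_sum_ne_zero h1
    have h3 := of_ind_ne_zero (right_ne_zero_of_mul h2)
    have h5 := of_ind_ne_zero (right_ne_zero_of_mul (left_ne_zero_of_mul h2))
    have h4 := F1 σ T (right_ne_zero_of_mul (left_ne_zero_of_mul (left_ne_zero_of_mul h2)))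
    rw [Fintype.mem_piFinset] at hσ
    subst h3
    exact ⟨⟨hσ _, hσ _⟩, h4.1.1, h5 ▸ h4.1.2.1⟩
  · rw [key2]
    have h1 : ∑ σ ∈ Om m P, ∑ i, ind (σ i = u) * ld (F σ) i ≤ ∑ σ ∈ Om m P, ∑ i, ind (σ i = u) :=
      sum_le_sum fun σ _ => sum_le_sum fun i _ => mul_le_of_le_one_right (ind_nonneg _) (F2 σ i)
    have h2 := sum_le_sum (s := univ) fun i _ => cnt1 (m := m) P i u
    rw [← mul_sum, sum_comm, sum_const, card_univ, Fintype.card_fin, nsmul_eq_mul] at h2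
    refine le_of_mul_le_mul_left ?_ hp
    have h3 := mul_le_mul_of_nonneg_left h1 (mul_pos hc0 hp).le
    have h4 := mul_le_mul_of_nonneg_left h2 hc0.le
    linarith
  · simp only [key2]
    rw [sum_sub_distrib, sum_const, nsmul_eq_mul, mul_one, ← mul_sum, sum_comm]
    have h1 : ∀ σ ∈ Om m P, ∑ u ∈ P, ∑ i, ind (σ i = u) * ld (F σ) i = m - ∑ i, (1 - ld (F σ) i) := by
      intro σ hσ
      rw [sum_comm, sum_sub_distrib, sum_const, card_univ, Fintype.card_fin, nsmul_eq_mul, mul_one,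
        sub_sub_cancel]
      refine sum_congr rfl fun i _ => ?_
      rw [sum_eq_single (σ i) (fun v _ h => by rw [ind_neg (Ne.symm h), zero_mul])
        (fun h => absurd (Fintype.mem_piFinset.1 hσ i) h), ind_pos rfl, one_mul]
    rw [sum_congr rfl h1, sum_sub_distrib]
    have h2 := sum_le_sum (s := Om m P) fun σ _ => F3 σ
    rw [sum_add_distrib, ← mul_sum (a := 4 / η)] at h2
    have h3 : ∀ i : Fin m, η ^ 2 * m * ∑ σ ∈ Om m P,
        (ind (∑ j, ind (G (σ i) (σ j)) < (1 / 2 + η / 2) * m) +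
          ind (∑ j, ind (G (σ j) (σ i)) < (1 / 2 + η / 2) * m)) ≤ 32 * (P.card : ℝ) ^ m := by
      intro i
      rw [sum_add_distrib]
      linarith [cheb P hP η hη hm1 G (fun u hu => (hd u hu).1) i,
        cheb P hP η hη hm1 (fun a b => G b a) (fun u hu => (hd u hu).2) i]
    have h4 := sum_le_sum (s := univ) fun i _ => h3 i
    rw [← mul_sum, sum_comm, sum_const, card_univ, Fintype.card_fin, nsmul_eq_mul] at h4
    have h5 : ∀ a : ℝ, ∑ _σ ∈ Om m P, a = a * (P.card : ℝ) ^ m := fun a => by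
      rw [← sum_Om, mul_sum]; simp
    rw [h5] at h2 ⊢
    generalize ∑ σ ∈ Om m P, ∑ i : Fin m,
        (ind (∑ j, ind (G (σ i) (σ j)) < (1 / 2 + η / 2) * m) +
          ind (∑ j, ind (G (σ j) (σ i)) < (1 / 2 + η / 2) * m)) = X at h2 h4
    have hq : (0 : ℝ) < (P.card : ℝ) ^ m := by positivity
    have h6 : 4 / η * X ≤ ε * m * (P.card : ℝ) ^ m := by
      rw [div_mul_eq_mul_div, div_le_iff₀ hη]
      have h7 : η ^ 2 * X ≤ 32 * (P.card : ℝ) ^ m := by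
        refine le_of_mul_le_mul_left ?_ hm0
        linarith
      refine le_of_mul_le_mul_left ?_ (show 0 < η ^ 2 by positivity)
      nlinarith [mul_le_mul_of_nonneg_right hm2 hq.le]
    have h8 := mul_le_mul_of_nonneg_left (h2.trans (add_le_add_right h6 _)) hc0.le
    have h9 : c * (ε * m * (P.card : ℝ) ^ m) = ε * P.card := by linear_combination ε * hc
    nlinarith

theorem global (η θ : ℝ) (hη : 0 < η) (hη1 : η ≤ 1) (hθ : 0 < θ) : ∃ K : ℝ, 1 ≤ K ∧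
    ∀ {V : Type} [Fintype V] [DecidableEq V] (G : V → V → Prop), (∀ a, ¬G a a) →
      ∀ (P : Finset V) (n : ℝ), 0 < n → n ≤ 2 * P.card → P.card ≤ n →
      (∀ u ∈ P, (1 / 2 + η) * P.card ≤ ∑ y ∈ P, ind (G u y) ∧
        (1 / 2 + η) * P.card ≤ ∑ y ∈ P, ind (G y u)) →
      ∃ f : Q4 V → ℝ, (∀ T, 0 ≤ f T) ∧ (∀ T, f T ≤ K / n ^ 3) ∧
        (∀ T, f T ≠ 0 → InP P T ∧ (Wk G T ∨ Db G T)) ∧ (∀ u, ld f u ≤ 1) ∧
        ∑ u ∈ P, (1 - ld f u) ≤ θ * n := by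
  obtain ⟨ε, hε, hε1, hε2⟩ : ∃ ε : ℝ, 0 < ε ∧ ε ≤ η / 4 ∧ ε ≤ θ / 4 :=
    ⟨min (η / 4) (θ / 4), by positivity, min_le_left _ _, min_le_right _ _⟩
  obtain ⟨m, hm⟩ := exists_nat_ge (max (8 / η) (128 / (η ^ 3 * ε)))
  rw [max_le_iff, div_le_iff₀ hη, div_le_iff₀ (by positivity)] at hm
  refine ⟨1 + 8 * (m : ℝ) ^ 3 + 32 * (m : ℝ) ^ 6 / θ, le_add_of_le_of_nonneg
    (le_add_of_nonneg_right (by positivity)) (by positivity), ?_⟩
  intro V _ _ G hG P n hn h1 h2 hd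
  have hp : (0 : ℝ) < P.card := by linarith
  obtain ⟨f, g, a1, a2, a3, a4, a5, a6, a7, a8⟩ := averaged η ε hη hη1 hε hε1 m (by linarith)
    (by linarith) G hG P (card_pos.1 (by exact_mod_cast hp)) hd
  have b1 : ∀ T, f T ≤ 8 * (m : ℝ) ^ 3 / n ^ 3 := fun T => (a3 T).trans (by
    rw [div_le_div_iff₀ (by positivity) (by positivity)]
    have := pow_le_pow_left₀ hn.le h1 3
    nlinarith [mul_le_mul_of_nonneg_left this (show (0 : ℝ) ≤ (m : ℝ) ^ 3 by positivity)])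
  have b2 : ∀ p, g p ≤ 4 * (m : ℝ) ^ 3 / n := fun p => (a4 p).trans (by
    rw [div_le_div_iff₀ hp hn]
    nlinarith [mul_le_mul_of_nonneg_left h1 (show (0 : ℝ) ≤ (m : ℝ) ^ 3 by positivity)])
  have b3 : ∀ u, 0 ≤ ∑ p, g p * (ind (p.1 = u) + ind (p.2 = u)) := fun u =>
    sum_nonneg fun p _ => mul_nonneg (a2 p) (add_nonneg (ind_nonneg _) (ind_nonneg _))
  have e : (1 + 8 * (m : ℝ) ^ 3 + 32 * (m : ℝ) ^ 6 / θ) / n ^ 3 =
      1 / n ^ 3 + 8 * (m : ℝ) ^ 3 / n ^ 3 + 32 * (m : ℝ) ^ 6 / θ / n ^ 3 := by ring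
  have e1 : 0 ≤ 1 / n ^ 3 := by positivity
  have e2 : 0 ≤ 32 * (m : ℝ) ^ 6 / θ / n ^ 3 := by positivity
  have e3 : 2 * ε * P.card ≤ θ / 2 * n := by nlinarith
  obtain ⟨M, hM⟩ : ∃ M, ∑ p, g p = M := ⟨_, rfl⟩
  by_cases hs : M ≤ θ / 4 * n
  · refine ⟨f, a1, fun T => by linarith [b1 T], fun T h => ⟨(a5 T h).1, Or.inl (a5 T h).2⟩,
      fun u => by linarith [a7 u, b3 u], ?_⟩
    have c1 : ∑ u ∈ P, ∑ p, g p * (ind (p.1 = u) + ind (p.2 = u)) ≤ 2 * M := by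
      rw [sum_comm, ← hM, mul_sum]
      refine sum_le_sum fun p _ => ?_
      rw [← mul_sum, sum_add_distrib, mul_comm 2]
      exact mul_le_mul_of_nonneg_left (by linarith [sum_ind_eq_le P p.1, sum_ind_eq_le P p.2])
        (a2 p)
    simp only [sum_sub_distrib, sum_add_distrib] at a8 ⊢
    linarith
  · have hM0 : 0 < M := lt_of_le_of_lt (by positivity) (not_le.1 hs)
    have hl : ∀ u, ld (fun T => f T + g (T.1, T.2.1) * g (T.2.2.1, T.2.2.2) / (2 * M)) u =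
        ld f u + ∑ p, g p * (ind (p.1 = u) + ind (p.2 = u)) := by
      intro u
      rw [← prod_trick g M hM hM0.ne' (fun z => ind (z = u))]
      simp only [ld, add_mul, sum_add_distrib]
    refine ⟨fun T => f T + g (T.1, T.2.1) * g (T.2.2.1, T.2.2.2) / (2 * M),
      fun T => add_nonneg (a1 T) (div_nonneg (mul_nonneg (a2 _) (a2 _)) (by positivity)),
      fun T => ?_, fun T h => ?_, fun u => by rw [hl]; exact a7 u, ?_⟩
    · have c1 : g (T.1, T.2.1) * g (T.2.2.1, T.2.2.2) / (2 * M) ≤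
          (4 * (m : ℝ) ^ 3 / n) * (4 * (m : ℝ) ^ 3 / n) / (2 * (θ / 4 * n)) :=
        div_le_div₀ (by positivity) (mul_le_mul (b2 _) (b2 _) (a2 _) (by positivity))
          (by positivity) (by linarith [not_le.1 hs])
      have c2 : (4 * (m : ℝ) ^ 3 / n) * (4 * (m : ℝ) ^ 3 / n) / (2 * (θ / 4 * n)) =
          32 * (m : ℝ) ^ 6 / θ / n ^ 3 := by field_simp; ring
      beta_reduce
      linarith [b1 T]
    · by_cases h0 : f T = 0
      · have h3 : g (T.1, T.2.1) * g (T.2.2.1, T.2.2.2) ≠ 0 := fun h' => h (by simp [h0, h'])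
        have c1 := a6 _ (left_ne_zero_of_mul h3)
        have c2 := a6 _ (right_ne_zero_of_mul h3)
        exact ⟨⟨c1.1.1, c1.1.2, c2.1.1, c2.1.2⟩, Or.inr ⟨c1.2, c2.2⟩⟩
      · exact ⟨(a5 T h0).1, Or.inl (a5 T h0).2⟩
    · simp only [hl]
      nlinarith [mul_pos hθ hn]

end Pool.Agent.H.MP_1ff796_co
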