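import Pool.Agent.H.MP_1ff796_co.Seq4
import Pool.Agent.H.MP_1ff796_co.Global

namespace Pool.Agent.H.MP_1ff796_co

open Finset Pool.Agent.H.MP_b50c09_co

theorem mem_bx {V ι : Type} {cl : ι → Finset V} {τ : Q4 ι} {U : Q4 V} :
    U ∈ bx cl τ ↔ U.1 ∈ cl τ.1 ∧ U.2.1 ∈ cl τ.2.1 ∧ U.2.2.1 ∈ cl τ.2.2.1 ∧
      U.2.2.2 ∈ cl τ.2.2.2 := by
  simp [bx]

theorem ld_wt {V ι : Type} [Fintype V] [DecidableEq V] [Fintype ι] (f : Q4 V → ℝ)
    (cl : ι → Finset V) (hd : ∀ i j, i ≠ j → Disjoint (cl i) (cl j))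
    (hf : ∀ U, f U ≠ 0 → InP (univ.biUnion cl) U) (x : ι) :
    ld (fun τ => ∑ U ∈ bx cl τ, f U) x = ∑ u ∈ cl x, ld f u := by
  have hu : ∀ i j v, v ∈ cl i → v ∈ cl j → i = j := fun i j v h1 h2 => by
    by_contra h
    exact disjoint_left.1 (hd i j h) h1 h2
  have h1 : ∑ u ∈ cl x, ld f u = ∑ U, f U * s4 (fun v => ind (v ∈ cl x)) U := by
    rw [← sum_ld, ← sum_subset (subset_univ (cl x)) fun v _ hv => by rw [ind_neg hv, zero_mul]]
    exact sum_congr rfl fun v hv => by rw [ind_pos hv, one_mul]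
  have h2 : ∀ i v, v ∈ cl i → ind (i = x) = ind (v ∈ cl x) := fun i v hv =>
    ind_congr ⟨fun h => h ▸ hv, fun h => hu _ _ v hv h⟩
  rw [h1, ld, ← sum_subset (subset_univ (univ.biUnion (bx cl))), sum_biUnion]
  · refine sum_congr rfl fun τ _ => ?_
    rw [sum_mul]
    refine sum_congr rfl fun U hU => ?_
    obtain ⟨a1, a2, a3, a4⟩ := mem_bx.1 hU
    simp only [s4, h2 _ _ a1, h2 _ _ a2, h2 _ _ a3, h2 _ _ a4]
  · intro τ _ σ _ h
    refine disjoint_left.2 fun U a b => h ?_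
    obtain ⟨a1, a2, a3, a4⟩ := mem_bx.1 a
    obtain ⟨b1, b2, b3, b4⟩ := mem_bx.1 b
    exact Prod.ext (hu _ _ _ a1 b1) (Prod.ext (hu _ _ _ a2 b2)
      (Prod.ext (hu _ _ _ a3 b3) (hu _ _ _ a4 b4)))
  · intro U _ hU
    have : f U = 0 := by
      by_contra h
      obtain ⟨a1, a2, a3, a4⟩ := hf U h
      obtain ⟨i1, -, b1⟩ := mem_biUnion.1 a1
      obtain ⟨i2, -, b2⟩ := mem_biUnion.1 a2
      obtain ⟨i3, -, b3⟩ := mem_biUnion.1 a3
      obtain ⟨i4, -, b4⟩ := mem_biUnion.1 a4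
      exact hU (mem_biUnion.2 ⟨(i1, i2, i3, i4), mem_univ _, mem_bx.2 ⟨b1, b2, b3, b4⟩⟩)
    rw [this, zero_mul]

theorem sum_mult {ι : Type} [Fintype ι] (x : ι) :
    ∑ τ : Q4 ι, s4 (fun z => ind (z = x)) τ = 4 * (Fintype.card ι : ℝ) ^ 3 := by
  have h : ∑ a, ind (a = x) = 1 := by
    have := sum_ind_eq (fun _ => (1 : ℝ)) x
    simp only [one_mul] at this
    rw [← this]
    exact sum_congr rfl fun a _ => ind_congr eq_comm
  simp only [s4, sum_add_distrib, Fintype.sum_prod_type, sum_const, card_univ, nsmul_eq_mul,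
    ← mul_sum, h, Fintype.card_prod, Nat.cast_mul]
  ring

theorem core_a1 (N T n K W : ℝ) (hN : 0 ≤ N) (hT : 0 < T) (hn : 0 < n) (hK : 0 ≤ K)
    (h : N * T ≤ n) (a : ℝ) (ha : 0 ≤ a) (hW : W ≤ K / n ^ 3 * (a * T ^ 4)) :
    N ^ 3 / T * W ≤ K * a := by
  have h1 : (N * T) ^ 3 ≤ n ^ 3 := pow_le_pow_left₀ (by positivity) h 3
  calc N ^ 3 / T * W ≤ N ^ 3 / T * (K / n ^ 3 * (a * T ^ 4)) := by gcongr
    _ = K * a * ((N * T) ^ 3 / n ^ 3) := by field_simp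
    _ ≤ K * a * 1 := by gcongr; rw [div_le_one (by positivity)]; exact h1
    _ = _ := mul_one _

theorem core_a2 (N T n D s lam η S R : ℝ) (hN : 0 ≤ N) (hT : 0 < T) (hD : 0 < D) (hs : 0 < s)
    (hl : 0 < lam) (hη : 0 < η) (h : N * T ≤ n) (hT2 : 4 * D * s ≤ lam * η * T)
    (hS : T * S ≤ 8 * η * N * T + η * n)
    (hR : R ≤ 4 * D * N + lam * T / (D * s) * η * D * N + lam * T / (D * s) * D * S) :
    s * R ≤ 11 * lam * η * n := by
  have e : s * (4 * D * N + lam * T / (D * s) * η * D * N + lam * T / (D * s) * D * S) =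
      4 * D * s * N + lam * η * (N * T) + lam * (T * S) := by field_simp
  have h1 := mul_le_mul_of_nonneg_left hR hs.le
  rw [e] at h1
  have h2 := mul_le_mul_of_nonneg_right hT2 hN
  have h3 := mul_le_mul_of_nonneg_left hS hl.le
  have h4 := mul_le_mul_of_nonneg_left h (mul_pos hl hη).le
  nlinarith

theorem core4 (K η : ℝ) (hK : 1 ≤ K) (hη : 0 < η) (s : ℕ) (hs : 0 < s) :
    ∃ T0 : ℕ, ∀ T : ℕ, T0 ≤ T →
    ∀ {V ι : Type} [Fintype V] [DecidableEq V] [Fintype ι] [AddCommGroup ι]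
      (E : Bool → Q4 V → Prop),
    ∀ (cl : ι → Finset V), (∀ i, (cl i).card = T) → (∀ i j, i ≠ j → Disjoint (cl i) (cl j)) →
    ∀ n : ℝ, 0 < n → Fintype.card ι * (T : ℝ) ≤ n →
    ∀ f : Q4 V → ℝ, (∀ U, 0 ≤ f U) → (∀ U, f U ≤ K / n ^ 3) →
      (∀ U, f U ≠ 0 → InP (univ.biUnion cl) U ∧ ∃ c, E c U) → (∀ u, ld f u ≤ 1) →
      ∑ u ∈ univ.biUnion cl, (1 - ld f u) ≤ η * n →
      ∃ X ⊆ univ.biUnion cl, Tl E s X ∧
        ∑ x, |((X ∩ cl x).card : ℝ) - η / (64 * K ^ 2) * T| ≤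
          11 * (η / (64 * K ^ 2)) * η * n := by
  have hK0 : 0 < K := by linarith
  set lam := η / (64 * K ^ 2) with hlam
  have hl0 : 0 < lam := by positivity
  obtain ⟨T1, hT1⟩ := seqExtract4 s hs (η / K) (by positivity)
  obtain ⟨D0, hD0⟩ := exists_nat_ge (16 * K ^ 2 / η ^ 2)
  set D := D0 + 1 with hD
  have hDpos : 0 < D := Nat.succ_pos _
  have hD1 : 16 * K ^ 2 ≤ η ^ 2 * D := by
    rw [div_le_iff₀ (by positivity)] at hD0
    rw [hD]; push_cast; nlinarith [sq_nonneg η]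
  obtain ⟨T3, hT3⟩ := exists_nat_ge (4 * (D : ℝ) * s / (lam * η))
  refine ⟨T1 + T3 + 1, ?_⟩
  intro T hT V ι _ _ _ _ E cl hc hd n hn hNT f hf0 hf1 hfs hload hdef
  have hTpos : (0 : ℝ) < T := by exact_mod_cast (by omega : 0 < T)
  have hT3' : 4 * (D : ℝ) * s ≤ lam * η * T := by
    have : (T3 : ℝ) ≤ T := by exact_mod_cast (by omega : T3 ≤ T)
    rw [div_le_iff₀ (by positivity)] at hT3
    nlinarith [mul_pos hl0 hη]
  set N : ℝ := (Fintype.card ι : ℝ) with hN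
  have hNpos : 0 < N := by rw [hN]; exact_mod_cast Fintype.card_pos
  obtain ⟨wt, hwt⟩ : ∃ wt : Q4 ι → ℝ, wt = fun τ => ∑ U ∈ bx cl τ, f U := ⟨_, rfl⟩
  have hw0 : ∀ τ, 0 ≤ wt τ := fun τ => by rw [hwt]; exact sum_nonneg fun U _ => hf0 U
  have hw1 : ∀ τ, wt τ ≤ K / n ^ 3 * (1 * (T : ℝ) ^ 4) := fun τ => by
    have : ∑ U ∈ bx cl τ, f U ≤ ∑ _U ∈ bx cl τ, K / n ^ 3 := sum_le_sum fun U _ => hf1 U
    simp only [sum_const, bx, card_product, hc, nsmul_eq_mul, Nat.cast_mul] at this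
    rw [hwt]
    unfold bx
    linarith
  have hw2 : ∀ τ, wt τ ≤ K / n ^ 3 *
      (∑ U ∈ bx cl τ, ind (E true U) + ∑ U ∈ bx cl τ, ind (E false U)) := fun τ => by
    rw [hwt, ← sum_add_distrib, mul_sum]
    refine sum_le_sum fun U _ => ?_
    have a1 := ind_nonneg (E true U)
    have a2 := ind_nonneg (E false U)
    have a3 : 0 ≤ K / n ^ 3 := by positivity
    by_cases h : f U = 0
    · rw [h]; positivity
    · obtain ⟨c, hc⟩ := (hfs U h).2
      have a4 := hf1 U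
      cases c <;> rw [ind_pos hc] <;> nlinarith
  obtain ⟨g, hg0, hgK, hg1, hg2, hg3⟩ : ∃ g : Q4 ι → ℝ, (∀ τ, 0 ≤ g τ) ∧ (∀ τ, g τ ≤ K) ∧
      (∀ τ, g τ ≤ N ^ 3 / T * wt τ) ∧ (∀ τ, N ^ 3 / T * wt τ ≤ g τ + 2 * η) ∧
      ∀ τ, g τ ≠ 0 → ∃ c, η / K * (T : ℝ) ^ 4 ≤ ∑ U ∈ bx cl τ, ind (E c U) := by
    classical
    have h0 : ∀ τ, 0 ≤ N ^ 3 / T * wt τ := fun τ => mul_nonneg (by positivity) (hw0 τ)
    refine ⟨fun τ => if ∃ c, η / K * (T : ℝ) ^ 4 ≤ ∑ U ∈ bx cl τ, ind (E c U) then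
      N ^ 3 / T * wt τ else 0, fun τ => ?_, fun τ => ?_, fun τ => ?_, fun τ => ?_, fun τ => ?_⟩
    · beta_reduce; split_ifs; exacts [h0 τ, le_rfl]
    · beta_reduce; split_ifs
      · have := core_a1 N T n K (wt τ) hNpos.le hTpos hn hK0.le hNT 1 zero_le_one (hw1 τ)
        linarith
      · exact hK0.le
    · beta_reduce; split_ifs; exacts [le_rfl, h0 τ]
    · beta_reduce; split_ifs with h
      · linarith
      · push Not at h
        have h1 := core_a1 N T n K (wt τ) hNpos.le hTpos hn hK0.le hNT (2 * (η / K))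
          (by positivity) ((hw2 τ).trans (mul_le_mul_of_nonneg_left
            (by linarith [h true, h false]) (by positivity)))
        have e : K * (2 * (η / K)) = 2 * η := by field_simp
        linarith
    · beta_reduce; intro h; by_contra h'; exact h (if_neg h')
  have hsum : ∀ x, ∑ τ, N ^ 3 / T * wt τ * s4 (fun z => ind (z = x)) τ =
      N ^ 3 / T * ∑ u ∈ cl x, ld f u := by
    intro x
    rw [← ld_wt f cl hd (fun U h => (hfs U h).1) x, ← hwt, ld, mul_sum]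
    exact sum_congr rfl fun τ _ => mul_assoc _ _ _
  obtain ⟨l, hl1⟩ : ∃ l : ι → ℝ, ∀ x, ld g x = N ^ 3 * l x :=
    ⟨fun x => ld g x / N ^ 3, fun x => by field_simp⟩
  have hsub : ∀ x, ∀ u ∈ cl x, u ∈ univ.biUnion cl := fun x u hu =>
    mem_biUnion.2 ⟨x, mem_univ _, hu⟩
  have hl2 : ∀ x, l x ≤ 1 := by
    intro x
    have h1 : N ^ 3 * l x ≤ N ^ 3 / T * ∑ u ∈ cl x, ld f u := by
      rw [← hl1, ← hsum]
      exact sum_le_sum fun τ _ => mul_le_mul_of_nonneg_right (hg1 τ) (mult_nonneg _ _)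
    have h2 : ∑ u ∈ cl x, ld f u ≤ ∑ _u ∈ cl x, (1 : ℝ) := sum_le_sum fun u _ => hload u
    rw [sum_const, hc, nsmul_eq_mul, mul_one] at h2
    have h3 : N ^ 3 / T * ∑ u ∈ cl x, ld f u ≤ N ^ 3 / T * T := by gcongr
    rw [div_mul_cancel₀ _ hTpos.ne'] at h3
    have h4 : N ^ 3 * l x ≤ N ^ 3 * 1 := by linarith
    exact le_of_mul_le_mul_left h4 (by positivity)
  have hl3 : ∀ x, T * (1 - l x) ≤ 8 * η * T + ∑ u ∈ cl x, (1 - ld f u) := by
    intro x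
    have h1 : N ^ 3 / T * ∑ u ∈ cl x, ld f u ≤
        ∑ τ, (g τ + 2 * η) * s4 (fun z => ind (z = x)) τ := by
      rw [← hsum]
      exact sum_le_sum fun τ _ => mul_le_mul_of_nonneg_right (hg2 τ) (mult_nonneg _ _)
    simp only [add_mul, sum_add_distrib, ← mul_sum, sum_mult, ← hN] at h1
    have h0 := hl1 x
    rw [ld] at h0
    rw [h0] at h1
    rw [sum_sub_distrib, sum_const, hc, nsmul_eq_mul, mul_one]
    have h2 : N ^ 3 * ∑ u ∈ cl x, ld f u ≤ N ^ 3 * (T * (l x + 8 * η)) := by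
      have := mul_le_mul_of_nonneg_left h1 hTpos.le
      have e : T * (N ^ 3 / T * ∑ u ∈ cl x, ld f u) = N ^ 3 * ∑ u ∈ cl x, ld f u := by
        field_simp
      rw [e] at this
      linarith
    have h3 := le_of_mul_le_mul_left h2 (by positivity)
    linarith
  have hl4 : T * ∑ x, (1 - l x) ≤ 8 * η * N * T + η * n := by
    rw [mul_sum]
    refine (sum_le_sum fun x _ => hl3 x).trans ?_
    rw [sum_add_distrib, sum_const, card_univ, nsmul_eq_mul,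
      ← sum_biUnion (fun i _ j _ h => hd i j h)]
    linarith
  have hs' : (0 : ℝ) < s := by exact_mod_cast hs
  have hD' : (0 : ℝ) < D := by exact_mod_cast hDpos
  obtain ⟨m, hm1, hm2, hm3⟩ := design4 g K η (lam * T / (D * s)) D hg0 hgK hη (by positivity)
    hD1 hDpos l hl1 hl2
  obtain ⟨X, hX1, hX2, hX3⟩ := hT1 T (by omega) E cl hc hd m (fun τ hτ => hg3 τ (hm1 τ hτ))
    (by
      intro y
      have h1 := mul_le_mul_of_nonneg_left (hm2 y) hs'.le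
      have e : s * (4 * K * (lam * T / (D * s)) * D) = η / K * T / 16 := by
        rw [hlam]; field_simp; ring
      rwa [e] at h1)
  refine ⟨X, fun v hv => ?_, hX1, ?_⟩
  · obtain ⟨i, hi⟩ := hX2 v hv
    exact hsub i v hi
  · have h1 := core_a2 N T n D s lam η _ _ hNpos.le hTpos hD' hs' hl0 hη hNT hT3' hl4 hm3
    refine le_trans (le_of_eq ?_) h1
    rw [mul_sum]
    refine sum_congr rfl fun x _ => ?_
    rw [hX3, ← abs_of_pos hs', ← abs_mul, abs_of_pos hs']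
    congr 1
    field_simp

end Pool.Agent.H.MP_1ff796_co
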