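import Pool.Agent.H.MP_1ff796_co.Absorb4

namespace Pool.Agent.H.MP_1ff796_co

open Finset Pool.Agent.H.MP_b50c09_co

theorem bk_one {V : Type} {G : V → V → Prop} {b : B4 V} (hb : Bk (EW G) 1 b) :
    ∃ x : Fin 4 → V, (∀ i, b i = {x i}) ∧ Function.Injective x ∧ Wk G (x 0, x 1, x 2, x 3) := by
  choose x hx using fun i => card_eq_one.1 (hb.1 i)
  obtain ⟨c, hc⟩ := hb.2.2
  refine ⟨x, hx, fun i j h => ?_, hc _ (by simp [hx]) _ (by simp [hx]) _ (by simp [hx]) _
    (by simp [hx])⟩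
  by_contra hij
  have := hb.2.1 i j hij
  rw [hx, hx, h] at this
  simp at this

theorem cA_mono {V : Type} [DecidableEq V] (G : V → V → Prop) {F F' : Finset (B4 V)} (b : B4 V)
    (h : F.erase b ⊆ F') (τ : V × V × V) : cA G F τ ≤ cA G F' τ + 1 := by
  classical
  unfold cA
  have a2 : (F.filter (Gt G τ)).erase b ⊆ F'.filter (Gt G τ) := by
    intro x hx
    rw [mem_erase, mem_filter] at hx
    exact mem_filter.2 ⟨h (mem_erase.2 ⟨hx.1, hx.2.1⟩), hx.2.2⟩
  have a3 := card_le_card a2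
  have a4 := pred_card_le_card_erase (s := F.filter (Gt G τ)) (a := b)
  omega

theorem pk_insert {V : Type} [DecidableEq V] {G : V → V → Prop} {F : Finset (B4 V)}
    (hF : Pk (EW G) 1 F) {T : Q4 V} (h : Wk G T) (hd : ¬Dg T) (ha : Av (cv F) T) :
    Pk (EW G) 1 (insert (sg T) F) ∧ (insert (sg T) F).card = F.card + 1 := by
  have h1 : Disjoint (sp (sg T)) (cv F) := disjoint_left.2 fun x hx => by
    obtain ⟨a1, a2, a3, a4⟩ := ha
    rcases mem_sg.1 hx with rfl | rfl | rfl | rfl <;> assumption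
  refine ⟨?_, card_insert_of_notMem fun hT => ha.1 (sp_sub_cv hT (mem_sg.2 (Or.inl rfl)))⟩
  rw [insert_eq]
  exact (Pk.single (bk_sg h hd)).union hF (by rwa [cv_single])

theorem swap {V : Type} [Fintype V] [DecidableEq V] {G : V → V → Prop} {F : Finset (B4 V)}
    (hF : Pk (EW G) 1 F) (j : ℕ) (h : ∀ τ, j + 1 ≤ cA G F τ) (S : Finset V)
    (hS : ∀ u ∈ S, u ∉ cv F) (hc : S.card + 4 * F.card < Fintype.card V) (p q : V) :
    ∃ F' a, Pk (EW G) 1 F' ∧ F'.card = F.card ∧ (∀ τ, j ≤ cA G F' τ) ∧ a ∉ S ∧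
      (∀ u ∈ insert a S, u ∉ cv F') ∧ G p a ∧ G a q := by
  obtain ⟨v, -, hv⟩ := exists_mem_notMem_of_card_lt_card (s := S ∪ cv F) (t := univ) (by
    have := card_union_le S (cv F)
    rw [hF.card_cv] at this
    rw [card_univ]; omega)
  rw [mem_union, not_or] at hv
  obtain ⟨b, hb⟩ := card_pos.1 (lt_of_lt_of_le (Nat.succ_pos j) (h (v, p, q)))
  classical
  rw [mem_filter] at hb
  obtain ⟨hbF, g1, g2, g3⟩ := hb
  obtain ⟨x, hx, hinj, w1, w2, w3, w4⟩ := bk_one (hF.1 b hbF)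
  have hxb : ∀ i, x i ∈ sp b := fun i => mem_sp.2 ⟨i, by simp [hx]⟩
  have hxv : ∀ i, v ≠ x i := fun i e => hv.2 (e ▸ sp_sub_cv hbF (hxb i))
  have hG1 : ∀ u ∈ cv (F.erase b), u ∈ cv F ∧ u ∉ sp b := by
    intro u hu
    obtain ⟨b', hb', hu⟩ := mem_biUnion.1 hu
    rw [mem_erase] at hb'
    exact ⟨sp_sub_cv hb'.2 hu, disjoint_left.1 (hF.2 b' hb'.2 b hbF hb'.1) hu⟩
  obtain ⟨P1, P2⟩ := pk_insert (hF.mono (erase_subset b F)) (T := (v, x 1, x 2, x 3))
    ⟨g2 _ (by simp [hx]), w2, w3, g3 _ (by simp [hx])⟩ (by simp [Dg, hxv, hinj.eq_iff])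
    ⟨fun e => hv.2 (hG1 _ e).1, fun e => (hG1 _ e).2 (hxb _), fun e => (hG1 _ e).2 (hxb _),
      fun e => (hG1 _ e).2 (hxb _)⟩
  refine ⟨_, x 0, P1, ?_, fun τ => ?_, fun e => hS _ e (sp_sub_cv hbF (hxb 0)), fun u hu hu' => ?_,
    g1 _ (by simp [hx])⟩
  · rw [P2, card_erase_add_one hbF]
  · have := cA_mono G b (subset_insert (sg (v, x 1, x 2, x 3)) (F.erase b)) τ
    have := h τ
    omega
  · rw [insert_eq (sg _), cv_union, cv_single, mem_union, mem_sg] at hu'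
    rcases mem_insert.1 hu with rfl | hu
    · rcases hu' with hu' | hu'
      · simp [hinj.eq_iff, (hxv 0).symm] at hu'
      · exact (hG1 _ hu').2 (hxb 0)
    · rcases hu' with (rfl | rfl | rfl | rfl) | hu'
      · exact hv.1 hu
      · exact hS _ hu (sp_sub_cv hbF (hxb _))
      · exact hS _ hu (sp_sub_cv hbF (hxb _))
      · exact hS _ hu (sp_sub_cv hbF (hxb _))
      · exact hS _ hu (hG1 _ hu').1

theorem loop {V : Type} [Fintype V] [DecidableEq V] {G : V → V → Prop} (k : ℕ) :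
    ∀ F : Finset (B4 V), Pk (EW G) 1 F → (∀ τ, 4 * k ≤ cA G F τ) →
      Fintype.card V = 4 * F.card + 4 * k →
      ∃ F' : Finset (B4 V), Pk (EW G) 1 F' ∧ Fintype.card V = 4 * F'.card := by
  induction k with
  | zero => intro F hF _ h; exact ⟨F, hF, h⟩
  | succ k ih =>
    intro F hF h hc
    obtain ⟨p⟩ : Nonempty V := Fintype.card_pos_iff.1 (by omega)
    obtain ⟨F1, a1, p1, c1, h1, -, s1, -⟩ := swap hF (4 * k + 3) (fun τ => by have := h τ; omega)
      ∅ (by simp) (by rw [card_empty]; omega) p p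
    obtain ⟨F2, a2, p2, c2, h2, n2, s2, g2, -⟩ := swap p1 (4 * k + 2) h1 _ s1
      (by have := card_insert_le a1 (∅ : Finset V); rw [card_empty] at this; omega) a1 p
    obtain ⟨F3, a3, p3, c3, h3, n3, s3, g3, -⟩ := swap p2 (4 * k + 1) h2 _ s2
      (by
        have := card_insert_le a2 (insert a1 ∅)
        have := card_insert_le a1 (∅ : Finset V)
        rw [card_empty] at this; omega) a2 p
    obtain ⟨F4, a4, p4, c4, h4, n4, s4, g4, g1⟩ := swap p3 (4 * k) h3 _ s3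
      (by
        have := card_insert_le a3 (insert a2 (insert a1 ∅))
        have := card_insert_le a2 (insert a1 ∅)
        have := card_insert_le a1 (∅ : Finset V)
        rw [card_empty] at this; omega) a3 a1
    simp only [mem_insert, not_or] at n2 n3 n4
    obtain ⟨P1, P2⟩ := pk_insert p4 (T := (a1, a2, a3, a4)) ⟨g2, g3, g4, g1⟩
      (by
        simp only [Dg, not_or]
        exact ⟨Ne.symm n2.1, Ne.symm n3.2.1, Ne.symm n4.2.2.1, Ne.symm n3.1, Ne.symm n4.2.1,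
          Ne.symm n4.1⟩)
      ⟨s4 _ (by simp), s4 _ (by simp), s4 _ (by simp), s4 _ (by simp)⟩
    refine ih _ P1 (fun τ => (h4 τ).trans ?_) (by omega)
    classical
    unfold cA
    exact card_le_card (filter_subset_filter _ (subset_insert _ _))

def E2 {V : Type} (G : V → V → Prop) : Bool → Q4 V → Prop := fun c => cond c (Wk G) (Db G)

theorem dbl {V : Type} [DecidableEq V] {G : V → V → Prop} (A B : Finset V) (hA : A.card = 2)
    (hB : B.card = 2) (hd : Disjoint A B) (h : ∀ a ∈ A, ∀ b ∈ B, G a b ∧ G b a) :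
    Tl (EW G) 1 (A ∪ B) := by
  obtain ⟨a, a', ha, rfl⟩ := card_eq_two.1 hA
  obtain ⟨b, b', hb, rfl⟩ := card_eq_two.1 hB
  have h1 := Tl.single (bk_sg (G := G) (T := (a, b, a', b'))
    ⟨(h a (by simp) b (by simp)).1, (h a' (by simp) b (by simp)).2,
      (h a' (by simp) b' (by simp)).1, (h a (by simp) b' (by simp)).2⟩ (by
      simp only [disjoint_insert_left, disjoint_singleton_left, mem_insert, mem_singleton,
        not_or] at hd
      simp only [Dg, not_or]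
      exact ⟨hd.1.1, ha, hd.1.2, Ne.symm hd.2.1, hb, hd.2.2⟩))
  convert h1 using 1
  ext x
  rw [mem_sg]
  simp only [mem_union, mem_insert, mem_singleton]
  tauto

theorem conv {V : Type} [DecidableEq V] {G : V → V → Prop} {X : Finset V} (h : Tl (E2 G) 2 X) :
    Tl (EW G) 1 X := by
  classical
  obtain ⟨F, hF, rfl⟩ := h
  refine Tl.biUnion F sp (fun b hb => ?_) hF.2
  obtain ⟨h1, h2, c, hc⟩ := hF.1 b hb
  cases c
  · obtain ⟨x, hx⟩ := card_pos.1 (show 0 < (b 0).card by rw [h1]; omega)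
    obtain ⟨y, hy⟩ := card_pos.1 (show 0 < (b 1).card by rw [h1]; omega)
    obtain ⟨z, hz⟩ := card_pos.1 (show 0 < (b 2).card by rw [h1]; omega)
    obtain ⟨w, hw⟩ := card_pos.1 (show 0 < (b 3).card by rw [h1]; omega)
    have := (dbl (G := G) (b 0) (b 1) (h1 _) (h1 _) (h2 _ _ (by decide))
      fun a ha d hd => (hc a ha d hd z hz w hw).1).union
      (dbl (b 2) (b 3) (h1 _) (h1 _) (h2 _ _ (by decide))
        fun a ha d hd => (hc x hx y hy a ha d hd).2) (by
        simp only [disjoint_union_left, disjoint_union_right]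
        exact ⟨⟨h2 _ _ (by decide), h2 _ _ (by decide)⟩, h2 _ _ (by decide), h2 _ _ (by decide)⟩)
    convert this using 1
    ext u
    simp [mem_sp, Fin.exists_fin_succ, or_assoc]
  · obtain ⟨Y, a1, a2, a3⟩ := tileK (E := EW G) (s := 1) 2 b h2 ⟨true, hc⟩ fun i => by rw [h1]
    rwa [eq_of_subset_of_card_le a1 (by rw [a3, (hF.1 b hb).card_sp])] at a2

theorem main (η : ℝ) (hη : 0 < η) (hη1 : η ≤ 1 / 2) : ∃ n0 : ℕ,
    ∀ {V : Type} [Fintype V] [DecidableEq V] (G : V → V → Prop), (∀ a, ¬G a a) →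
      n0 ≤ Fintype.card V → 4 ∣ Fintype.card V →
      (∀ u, (1 / 2 + η) * Fintype.card V ≤ ∑ y, ind (G u y) ∧
        (1 / 2 + η) * Fintype.card V ≤ ∑ y, ind (G y u)) →
      ∃ F : Finset (B4 V), Pk (EW G) 1 F ∧ Fintype.card V = 4 * F.card := by
  obtain ⟨ζ, hζ, n1, h1⟩ := absorbers4 η (η ^ 4) hη hη1 (by positivity) le_rfl
  obtain ⟨θ, hθ, hθ1, hθ2⟩ : ∃ θ : ℝ, 0 < θ ∧ θ ≤ 1 ∧ 58 * θ ≤ ζ :=
    ⟨min 1 (ζ / 58), by positivity, min_le_left _ _, by linarith [min_le_right 1 (ζ / 58)]⟩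
  obtain ⟨K, hK, h2⟩ := global (η / 2) (θ / 2) (by positivity) (by linarith) (by positivity)
  obtain ⟨n2, h3⟩ := almost4 K θ hK hθ hθ1 2 two_pos
  obtain ⟨N, hN⟩ := exists_nat_ge (max n1 n2)
  refine ⟨N + 1, ?_⟩
  intro V _ _ G hG hn hdiv hd
  obtain ⟨n, hnn⟩ : ∃ n : ℝ, (Fintype.card V : ℝ) = n := ⟨_, rfl⟩
  rw [hnn] at hd
  have hn' : (N : ℝ) ≤ n := by rw [← hnn]; exact_mod_cast (by omega : N ≤ Fintype.card V)
  have hn0 := hN.trans hn'
  rw [max_le_iff] at hn0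
  have hnpos : 0 < n := by rw [← hnn]; exact_mod_cast (by omega : 0 < Fintype.card V)
  obtain ⟨F, hF, hF1, hF2⟩ := h1 G n hnn hn0.1 hd
  have hη4 : η ^ 4 ≤ η / 2 := by
    have := pow_le_pow_left₀ hη.le hη1 3
    nlinarith
  have hF3 : ((cv F).card : ℝ) ≤ η / 2 * n := hF1.trans (by gcongr)
  have hP : ((univ \ cv F).card : ℝ) = n - (cv F).card := by
    rw [card_sdiff_of_subset (subset_univ _), Nat.cast_sub (card_le_card (subset_univ _)),
      card_univ, hnn]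
  have hc0 : (0 : ℝ) ≤ (cv F).card := by positivity
  have hdeg : ∀ r : V → Prop, (1 / 2 + η) * n ≤ ∑ y, ind (r y) →
      (1 / 2 + η / 2) * (univ \ cv F).card ≤ ∑ y ∈ univ \ cv F, ind (r y) := by
    intro r hr
    have a1 := sum_sdiff (f := fun y => ind (r y)) (subset_univ (cv F))
    have a2 : ∑ y ∈ cv F, ind (r y) ≤ ∑ _y ∈ cv F, (1 : ℝ) := sum_le_sum fun y _ => ind_le_one _
    rw [sum_const, nsmul_eq_mul, mul_one] at a2
    rw [hP]
    nlinarith
  obtain ⟨f, f1, f2, f3, f4, f5⟩ := h2 G hG (univ \ cv F) n hnpos (by rw [hP]; nlinarith)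
    (by rw [hP]; linarith) fun u _ => ⟨hdeg _ (hd u).1, hdeg _ (hd u).2⟩
  obtain ⟨X, hX1, hX2, hX3⟩ := h3 (E2 G) (univ \ cv F) n hnpos hn0.2 (by rw [hP]; linarith) f f1 f2
    (fun U h => ⟨(f3 U h).1, (f3 U h).2.elim (fun a => ⟨true, a⟩) fun a => ⟨false, a⟩⟩) f4 f5
  obtain ⟨F', hF', rfl⟩ := conv hX2
  have hdj : Disjoint (cv F) (cv F') := disjoint_sdiff.mono_right hX1
  have hP' := hF.union hF' hdj
  have a1 := hP'.card_cv
  have a2 := card_le_univ (cv (F ∪ F'))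
  obtain ⟨k, hk⟩ : ∃ k, Fintype.card V = 4 * (F ∪ F').card + 4 * k := by
    obtain ⟨c, hc⟩ := hdiv
    exact ⟨c - (F ∪ F').card, by omega⟩
  refine loop k _ hP' (fun τ => ?_) hk
  have a3 : cA G F τ ≤ cA G (F ∪ F') τ := by
    classical
    unfold cA
    exact card_le_card (filter_subset_filter _ subset_union_left)
  rw [cv_union, card_union_of_disjoint hdj] at a1
  have a4 : Fintype.card V = (cv F).card + (cv F').card + 4 * k := by omega
  have a5 : n = (cv F).card + (cv F').card + 4 * k := by rw [← hnn]; exact_mod_cast a4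
  have a6 : ((4 * k : ℕ) : ℝ) ≤ cA G F τ := by
    push_cast
    nlinarith [hF2 τ]
  exact (Nat.cast_le.1 a6).trans a3

theorem bridge {V : Type} [Fintype V] [DecidableEq V] {G : V → V → Prop} {F : Finset (B4 V)}
    (hF : Pk (EW G) 1 F) (h : Fintype.card V = 4 * F.card) (m : ℕ) (hm : m = F.card) :
    ∃ f : Fin m × Fin 4 → V, Function.Bijective f ∧
      ∀ i j, G (f (i, j)) (f (i, j + 1)) := by
  subst hm
  choose x hx hinj hw using fun b : F => bk_one (hF.1 b.1 b.2)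
  refine ⟨fun p => x (F.equivFin.symm p.1) p.2, ?_, fun i j => ?_⟩
  · rw [Fintype.bijective_iff_injective_and_card]
    refine ⟨fun p q hpq => ?_, by simp [h, mul_comm]⟩
    have h1 : F.equivFin.symm p.1 = F.equivFin.symm q.1 := by
      by_contra hne
      refine disjoint_left.1 (hF.2 _ (F.equivFin.symm p.1).2 _ (F.equivFin.symm q.1).2
        fun e => hne (Subtype.ext e)) (mem_sp.2 ⟨p.2, by rw [hx]; exact mem_singleton_self _⟩)
        (mem_sp.2 ⟨q.2, by rw [hx]; exact mem_singleton.2 hpq⟩)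
    beta_reduce at hpq
    rw [h1] at hpq
    exact Prod.ext (F.equivFin.symm.injective h1) (hinj _ hpq)
  · obtain ⟨w1, w2, w3, w4⟩ := hw (F.equivFin.symm i)
    fin_cases j
    exacts [w1, w2, w3, w4]

end Pool.Agent.H.MP_1ff796_co
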