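import Pool.Agent.H.MP_1ff796_co.PG

namespace Pool.Agent.H.MP_1ff796_co

open Finset Pool.Agent.H.MP_b50c09_co

abbrev Q4 (ι : Type) := ι × ι × ι × ι

/-- Closed walk of length four. -/
def Wk {ι : Type} (G : ι → ι → Prop) (T : Q4 ι) : Prop :=
  G T.1 T.2.1 ∧ G T.2.1 T.2.2.1 ∧ G T.2.2.1 T.2.2.2 ∧ G T.2.2.2 T.1

/-- A four-cycle or a doubled two-cycle. -/
def Gd {ι : Type} (G : ι → ι → Prop) (T : Q4 ι) : Prop :=
  Wk G T ∧ ((T.1 ≠ T.2.2.1 ∧ T.2.1 ≠ T.2.2.2) ∨ (T.1 = T.2.2.1 ∧ T.2.1 = T.2.2.2))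

def s4 {ι : Type} (φ : ι → ℝ) (T : Q4 ι) : ℝ := φ T.1 + φ T.2.1 + φ T.2.2.1 + φ T.2.2.2

noncomputable def ld {ι : Type} [Fintype ι] (f : Q4 ι → ℝ) (v : ι) : ℝ :=
  ∑ T, f T * s4 (fun z => ind (z = v)) T

theorem sum_ind_eq {ι : Type} [Fintype ι] (φ : ι → ℝ) (z : ι) :
    ∑ v, φ v * ind (z = v) = φ z := by
  rw [sum_eq_single z (fun v _ h => by rw [ind_neg (Ne.symm h), mul_zero])
    (fun h => absurd (mem_univ z) h), ind_pos rfl, mul_one]

theorem sum_s4 {ι : Type} [Fintype ι] (φ : ι → ℝ) (T : Q4 ι) :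
    ∑ v, φ v * s4 (fun z => ind (z = v)) T = s4 φ T := by
  simp only [s4, mul_add, sum_add_distrib, sum_ind_eq]

theorem sum_ld {ι : Type} [Fintype ι] (φ : ι → ℝ) (f : Q4 ι → ℝ) :
    ∑ v, φ v * ld f v = ∑ T, f T * s4 φ T := by
  simp only [ld, mul_sum]
  rw [sum_comm]
  refine sum_congr rfl fun T _ => ?_
  rw [← sum_s4 φ T, mul_sum]
  exact sum_congr rfl fun v _ => by ring

theorem mult_nonneg {ι : Type} (v : ι) (T : Q4 ι) : 0 ≤ s4 (fun z => ind (z = v)) T :=
  add_nonneg (add_nonneg (add_nonneg (ind_nonneg _) (ind_nonneg _)) (ind_nonneg _)) (ind_nonneg _)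

theorem mult_le {ι : Type} (v : ι) (T : Q4 ι) : s4 (fun z => ind (z = v)) T ≤ 4 := by
  unfold s4
  linarith [ind_le_one (T.1 = v), ind_le_one (T.2.1 = v), ind_le_one (T.2.2.1 = v),
    ind_le_one (T.2.2.2 = v)]

theorem le_ld {ι : Type} [Fintype ι] (f : Q4 ι → ℝ) (h0 : ∀ T, 0 ≤ f T) (T : Q4 ι) (v : ι)
    (hv : T.1 = v ∨ T.2.1 = v ∨ T.2.2.1 = v ∨ T.2.2.2 = v) : f T ≤ ld f v := by
  refine le_trans ?_ (single_le_sum (f := fun T => f T * s4 (fun z => ind (z = v)) T)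
    (fun T _ => mul_nonneg (h0 T) (mult_nonneg v T)) (mem_univ T))
  refine le_mul_of_one_le_right (h0 T) ?_
  have a1 := ind_nonneg (T.1 = v)
  have a2 := ind_nonneg (T.2.1 = v)
  have a3 := ind_nonneg (T.2.2.1 = v)
  have a4 := ind_nonneg (T.2.2.2 = v)
  unfold s4
  beta_reduce
  rcases hv with h | h | h | h <;> rw [ind_pos h] <;> linarith

theorem exists_of_ld_ne {ι : Type} [Fintype ι] (f : Q4 ι → ℝ) (v : ι) (h : ld f v ≠ 0) :
    ∃ T, f T ≠ 0 ∧ (T.1 = v ∨ T.2.1 = v ∨ T.2.2.1 = v ∨ T.2.2.2 = v) := by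
  obtain ⟨T, -, hT⟩ := exists_ne_zero_of_sum_ne_zero h
  refine ⟨T, left_ne_zero_of_mul hT, ?_⟩
  by_contra h2
  push Not at h2
  apply right_ne_zero_of_mul hT
  simp only [s4, ind_neg h2.1, ind_neg h2.2.1, ind_neg h2.2.2.1, ind_neg h2.2.2.2, add_zero]

theorem psi_ineq (x h : ℝ) : (max (x + h - 1) 0) ^ 2 ≤
    (max (x - 1) 0) ^ 2 + 2 * max (x - 1) 0 * h + h ^ 2 := by
  rcases le_total (x - 1) 0 with h1 | h1 <;> rcases le_total (x + h - 1) 0 with h2 | h2
  · rw [max_eq_right h1, max_eq_right h2]; nlinarith [sq_nonneg h]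
  · rw [max_eq_right h1, max_eq_left h2]; nlinarith
  · rw [max_eq_left h1, max_eq_right h2]; nlinarith [sq_nonneg (x - 1 + h)]
  · rw [max_eq_left h1, max_eq_left h2]; nlinarith

theorem nonneg_of_small (s c a : ℝ) (ha : 0 < a) (hc : 0 < c)
    (h : ∀ ε, 0 < ε → ε ≤ a → 0 ≤ ε * s + c * ε ^ 2) : 0 ≤ s := by
  by_contra hs
  push Not at hs
  have h1 := h (min a (-s / (2 * c))) (lt_min ha (div_pos (by linarith) (by positivity)))
    (min_le_left _ _)
  have h2 : min a (-s / (2 * c)) ≤ -s / (2 * c) := min_le_right _ _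
  have h3 : 0 < min a (-s / (2 * c)) := lt_min ha (div_pos (by linarith) (by positivity))
  generalize min a (-s / (2 * c)) = e at h1 h2 h3
  rw [le_div_iff₀ (by positivity)] at h2
  nlinarith

theorem opt {ι : Type} [Fintype ι] (S : Q4 ι → Prop) (M : ℝ) (hM : 1 < M) :
    ∃ (f : Q4 ι → ℝ) (w : ι → ℝ), (∀ T, 0 ≤ f T) ∧ (∀ T, f T ≠ 0 → S T) ∧ (∀ v, -1 ≤ w v) ∧
      (∀ T, S T → 0 ≤ s4 w T) ∧ (∀ T, f T ≠ 0 → s4 w T = 0) ∧ (∀ v, ld f v ≤ 1 → w v = -1) ∧
      ∀ v, ld f v ≤ 1 + 4 / M := by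
  classical
  have hM0 : 0 < M := by linarith
  set K : Set (Q4 ι → ℝ) := Set.pi Set.univ fun T => Set.Icc 0 (if S T then 2 else 0) with hK
  have hKc : IsCompact K := isCompact_univ_pi fun T => isCompact_Icc
  have hKn : K.Nonempty := ⟨fun _ => 0, fun T _ => ⟨le_rfl, by split_ifs <;> norm_num⟩⟩
  set Φ : (Q4 ι → ℝ) → ℝ := fun f => ∑ v, (-ld f v + M / 2 * (max (ld f v - 1) 0) ^ 2) with hΦ
  have hcont : Continuous Φ := by
    simp only [hΦ, ld]
    fun_prop
  obtain ⟨f, hf, hmin⟩ := hKc.exists_isMinOn hKn hcont.continuousOn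
  have hf0 : ∀ T, 0 ≤ f T := fun T => (hf T (Set.mem_univ _)).1
  have hf1 : ∀ T, f T ≤ if S T then 2 else 0 := fun T => (hf T (Set.mem_univ _)).2
  have hfs : ∀ T, f T ≠ 0 → S T := by
    intro T h
    by_contra h2
    have := hf1 T
    rw [if_neg h2] at this
    exact h (le_antisymm this (hf0 T))
  set w : ι → ℝ := fun v => -1 + M * max (ld f v - 1) 0 with hw
  have hw1 : ∀ v, -1 ≤ w v := fun v =>
    le_add_of_nonneg_right (mul_nonneg hM0.le (le_max_right _ _))
  have key : ∀ T ε, S T → 0 ≤ f T + ε → f T + ε ≤ 2 → 0 ≤ ε * s4 w T + 8 * M * ε ^ 2 := by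
    intro T ε hS h1 h2
    have hmem : Function.update f T (f T + ε) ∈ K := by
      intro T' _
      by_cases h : T' = T
      · rw [h, Function.update_self]; beta_reduce; rw [if_pos hS]; exact ⟨h1, h2⟩
      · rw [Function.update_of_ne h]; exact hf T' (Set.mem_univ _)
    have hld : ∀ v, ld (Function.update f T (f T + ε)) v =
        ld f v + ε * s4 (fun z => ind (z = v)) T := by
      intro v
      unfold ld
      rw [← add_sum_erase _ _ (mem_univ T), ← add_sum_erase univ _ (mem_univ T),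
        Function.update_self,
        sum_congr rfl fun T' hT' => by rw [Function.update_of_ne (mem_erase.1 hT').1]]
      ring
    have h3 : Φ f ≤ Φ (Function.update f T (f T + ε)) := hmin hmem
    have h4 : Φ (Function.update f T (f T + ε)) ≤ ∑ v, ((-ld f v + M / 2 * (max (ld f v - 1) 0) ^ 2)
        + ε * (w v * s4 (fun z => ind (z = v)) T) +
          2 * M * ε ^ 2 * (1 * s4 (fun z => ind (z = v)) T)) := by
      refine sum_le_sum fun v _ => ?_
      rw [hld]
      have a1 := mul_le_mul_of_nonneg_left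
        (psi_ineq (ld f v) (ε * s4 (fun z => ind (z = v)) T)) (show 0 ≤ M / 2 by positivity)
      have a2 := mult_nonneg v T
      have a3 := mult_le v T
      have a4 : 0 ≤ M * ε ^ 2 * (s4 (fun z => ind (z = v)) T * (4 - s4 (fun z => ind (z = v)) T)) :=
        mul_nonneg (by positivity) (mul_nonneg a2 (by linarith))
      simp only [hw]
      nlinarith
    rw [sum_add_distrib, sum_add_distrib, ← mul_sum, ← mul_sum, sum_s4, sum_s4] at h4
    have h5 : s4 (fun _ : ι => (1 : ℝ)) T = 4 := by unfold s4; norm_num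
    rw [h5] at h4
    simp only [hΦ] at h3 h4
    linarith
  have hle : ∀ T, f T ≠ 0 → s4 w T ≤ 0 := by
    intro T h
    have hpos : 0 < f T := lt_of_le_of_ne (hf0 T) (Ne.symm h)
    have h1 := hf1 T
    rw [if_pos (hfs T h)] at h1
    have := nonneg_of_small (-s4 w T) (8 * M) (f T) hpos (by positivity) fun ε h2 h3 => by
      have := key T (-ε) (hfs T h) (by linarith) (by linarith)
      linarith
    linarith
  have hge : ∀ T, S T → 0 ≤ s4 w T := by
    intro T hS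
    by_cases h : f T < 2
    · exact nonneg_of_small _ (8 * M) (2 - f T) (by linarith) (by positivity) fun ε h2 h3 =>
        key T ε hS (by linarith [hf0 T]) (by linarith)
    · have hv : ∀ v, (T.1 = v ∨ T.2.1 = v ∨ T.2.2.1 = v ∨ T.2.2.2 = v) → 0 ≤ w v := by
        intro v hv
        have a1 := le_ld f hf0 T v hv
        have a2 : 1 ≤ max (ld f v - 1) 0 := le_max_of_le_left (by linarith)
        simp only [hw]
        nlinarith
      unfold s4
      linarith [hv T.1 (by simp), hv T.2.1 (by simp), hv T.2.2.1 (by simp), hv T.2.2.2 (by simp)]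
  refine ⟨f, w, hf0, hfs, hw1, hge, fun T h => le_antisymm (hle T h) (hge T (hfs T h)),
    fun v hv => ?_, fun v => ?_⟩
  · simp only [hw]
    rw [max_eq_right (by linarith), mul_zero, add_zero]
  · by_cases h : ld f v = 0
    · rw [h]; positivity
    obtain ⟨T, hT, hv⟩ := exists_of_ld_ne f v h
    have a1 := hle T hT
    have a2 : w v ≤ 3 := by
      have b1 := hw1 T.1
      have b2 := hw1 T.2.1
      have b3 := hw1 T.2.2.1
      have b4 := hw1 T.2.2.2
      unfold s4 at a1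
      rcases hv with h | h | h | h <;> rw [← h] <;> linarith
    have a3 := mul_le_mul_of_nonneg_left (le_max_left (ld f v - 1) 0) hM0.le
    simp only [hw] at a2
    have a4 : ld f v - 1 ≤ 4 / M := by rw [le_div_iff₀ hM0]; linarith
    linarith

end Pool.Agent.H.MP_1ff796_co
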