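import Pool.Agent.H.MP_b50c09_co.Count

namespace Pool.Agent.H.MP_1ff796_co

open Finset Pool.Agent.H.MP_b50c09_co

/-- Mass of a predicate. -/
noncomputable def ms {ι : Type} [Fintype ι] (μ : ι → ℝ) (p : ι → Prop) : ℝ :=
  ∑ z, μ z * ind (p z)

theorem ms_nonneg {ι : Type} [Fintype ι] {μ : ι → ℝ} (hμ : ∀ z, 0 ≤ μ z) (p : ι → Prop) :
    0 ≤ ms μ p := sum_nonneg fun z _ => mul_nonneg (hμ z) (ind_nonneg _)

theorem ms_mono {ι : Type} [Fintype ι] {μ : ι → ℝ} (hμ : ∀ z, 0 ≤ μ z) {p q : ι → Prop}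
    (h : ∀ z, p z → q z) : ms μ p ≤ ms μ q :=
  sum_le_sum fun z _ => mul_le_mul_of_nonneg_left (ind_mono (h z)) (hμ z)

theorem ms_zero {ι : Type} [Fintype ι] (μ : ι → ℝ) {p : ι → Prop} (h : ∀ z, ¬p z) :
    ms μ p = 0 := sum_eq_zero fun z _ => by rw [ind_neg (h z), mul_zero]

theorem ms_tri {ι : Type} [Fintype ι] {μ : ι → ℝ} (hμ : ∀ z, 0 ≤ μ z) {p q r : ι → Prop}
    (h1 : ∀ z, p z → q z → False) (h2 : ∀ z, p z → r z → False) (h3 : ∀ z, q z → r z → False) :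
    ms μ p + ms μ q + ms μ r ≤ ∑ z, μ z := by
  unfold ms
  rw [← sum_add_distrib, ← sum_add_distrib]
  refine sum_le_sum fun z _ => ?_
  have := hμ z
  by_cases hp : p z
  · rw [ind_pos hp, ind_neg (h1 z hp), ind_neg (h2 z hp)]; linarith
  · rw [ind_neg hp]
    by_cases hq : q z
    · rw [ind_pos hq, ind_neg (h3 z hq)]; linarith
    · rw [ind_neg hq]; nlinarith [ind_le_one (r z)]

theorem half {ι : Type} [Fintype ι] {μ : ι → ℝ} (hμ : ∀ z, 0 ≤ μ z) (S : ι → Prop)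
    (hS : ∃ a, S a) (R : ι → ι → Prop) (hR : ∀ a b, R a b → R b a → False) :
    ∃ a, S a ∧ 2 * ms μ (fun z => S z ∧ R a z) ≤ ms μ S := by
  classical
  obtain ⟨a, ha, hmin⟩ := exists_min_image (univ.filter S) (fun a => ms μ fun z => S z ∧ R a z)
    (by obtain ⟨a, ha⟩ := hS; exact ⟨a, mem_filter.2 ⟨mem_univ _, ha⟩⟩)
  refine ⟨a, (mem_filter.1 ha).2, ?_⟩
  have h0 := ms_nonneg hμ S
  have h1 : ms μ (fun z => S z ∧ R a z) ≤ ms μ S := ms_mono hμ fun z h => h.1
  rcases h0.eq_or_lt with h0 | h0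
  · linarith [ms_nonneg hμ fun z => S z ∧ R a z]
  have h2 : ms μ S * ms μ (fun z => S z ∧ R a z) ≤
      ∑ b, ∑ z, μ b * μ z * ind (S b ∧ S z ∧ R b z) := by
    rw [ms, sum_mul]
    refine sum_le_sum fun b _ => ?_
    by_cases hb : S b
    · rw [ind_pos hb, mul_one]
      refine (mul_le_mul_of_nonneg_left (hmin b (mem_filter.2 ⟨mem_univ _, hb⟩)) (hμ b)).trans
        (le_of_eq ?_)
      rw [ms, mul_sum]
      refine sum_congr rfl fun z _ => ?_
      rw [← mul_assoc, ind_congr (show (S z ∧ R b z) ↔ (S b ∧ S z ∧ R b z) by simp [hb])]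
    · rw [ind_neg hb, mul_zero, zero_mul]
      exact sum_nonneg fun z _ => mul_nonneg (mul_nonneg (hμ b) (hμ z)) (ind_nonneg _)
  have h3 : ∑ b, ∑ z, μ b * μ z * ind (S b ∧ S z ∧ R b z) +
      ∑ b, ∑ z, μ b * μ z * ind (S b ∧ S z ∧ R b z) ≤ ms μ S * ms μ S := by
    conv_lhs => rw [sum_comm]; congr; rfl; rw [sum_comm]
    rw [ms, sum_mul_sum, ← sum_add_distrib]
    refine sum_le_sum fun b _ => ?_
    rw [← sum_add_distrib]
    refine sum_le_sum fun z _ => ?_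
    have e : μ b * ind (S b) * (μ z * ind (S z)) = μ b * μ z * ind (S b ∧ S z) := by
      rw [ind_and]; ring
    rw [e, mul_comm (μ z) (μ b), ← mul_add]
    refine mul_le_mul_of_nonneg_left ?_ (mul_nonneg (hμ b) (hμ z))
    by_cases h : S z ∧ S b ∧ R z b
    · rw [ind_pos h, ind_neg (fun h' => hR _ _ h.2.2 h'.2.2), ind_pos ⟨h.2.1, h.1⟩]; norm_num
    · rw [ind_neg h, zero_add]; exact ind_mono fun h' => ⟨h'.1, h'.2.1⟩
  have h4 : ms μ S * (2 * ms μ (fun z => S z ∧ R a z)) ≤ ms μ S * ms μ S := by linarith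
  exact le_of_mul_le_mul_left h4 h0

theorem pg {ι : Type} [Fintype ι] (H : ι → ι → Prop)
    (h4 : ∀ a b c d, H a b → H b c → H c d → H d a → False) (μ : ι → ℝ) (hμ : ∀ z, 0 ≤ μ z)
    (hp : ∃ s x t, H s x ∧ H x t) :
    ∃ s x t, H s x ∧ H x t ∧ 3 * (ms μ (H t) + ms μ (fun z => H z s)) ≤ 2 * ∑ z, μ z := by
  classical
  by_contra hcon
  push Not at hcon
  have h2 : ∀ a b, H a b → H b a → False := fun a b h h' => h4 a b a b h h' h h'
  set M := ∑ z, μ z with hM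
  have hM0 : 0 ≤ M := sum_nonneg fun z _ => hμ z
  -- every vertex has an independent out- or in-neighbourhood
  have F1 : ∀ x a0 a b b0, H x a0 → H x a → H a0 a → H b x → H b0 x → H b b0 → False := by
    intro x a0 a b b0 q1 q2 q3 q4 q5 q6
    obtain ⟨a', ⟨p1, a1, p2, p3⟩, p4⟩ := half hμ (fun z => H x z ∧ ∃ y, H x y ∧ H y z)
      ⟨a, q2, a0, q1, q3⟩ H h2
    obtain ⟨b', ⟨r1, b1, r2, r3⟩, r4⟩ := half hμ (fun z => H z x ∧ ∃ y, H y x ∧ H z y)
      ⟨b, q4, b0, q5, q6⟩ (fun u v => H v u) (fun u v h h' => h2 _ _ h h')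
    have c1 := hcon x a1 a' p2 p3
    have c2 := hcon b' b1 x r3 r2
    have c3 := hcon b' x a' r1 p1
    have c4 : ms μ (fun z => H x z ∧ ∃ y, H x y ∧ H y z) ≤ ms μ (H x) := ms_mono hμ fun z h => h.1
    have c5 : ms μ (fun z => H z x ∧ ∃ y, H y x ∧ H z y) ≤ ms μ (fun z => H z x) :=
      ms_mono hμ fun z h => h.1
    have c6 : ms μ (H x) + ms μ (fun z => H z x) + ms μ (fun z => ¬H x z ∧ ¬H z x) ≤ M :=
      ms_tri hμ (fun z h h' => h2 _ _ h h') (fun z h h' => h'.1 h) (fun z h h' => h'.2 h)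
    have c7 : ms μ (H a') + ms μ (fun z => H z b') ≤
        ms μ (fun z => (H x z ∧ ∃ y, H x y ∧ H y z) ∧ H a' z) +
        ms μ (fun z => (H z x ∧ ∃ y, H y x ∧ H z y) ∧ H z b') +
        ms μ (fun z => ¬H x z ∧ ¬H z x) := by
      unfold ms
      rw [← sum_add_distrib, ← sum_add_distrib, ← sum_add_distrib]
      refine sum_le_sum fun z _ => ?_
      rw [← mul_add, ← mul_add, ← mul_add]
      refine mul_le_mul_of_nonneg_left ?_ (hμ z)
      have i1 := ind_nonneg ((H x z ∧ ∃ y, H x y ∧ H y z) ∧ H a' z)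
      have i2 := ind_nonneg ((H z x ∧ ∃ y, H y x ∧ H z y) ∧ H z b')
      have i3 := ind_nonneg (¬H x z ∧ ¬H z x)
      by_cases u1 : H a' z
      · rw [ind_pos u1, ind_neg (fun h => h4 _ _ _ _ p1 u1 h r1)]
        by_cases u2 : H x z
        · rw [ind_pos (p := (H x z ∧ ∃ y, H x y ∧ H y z) ∧ H a' z) ⟨⟨u2, a', p1, u1⟩, u1⟩]
          linarith
        · rw [ind_pos (p := ¬H x z ∧ ¬H z x) ⟨u2, fun h => h4 _ _ _ _ p2 p3 u1 h⟩]
          linarith
      · rw [ind_neg u1]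
        by_cases u3 : H z b'
        · rw [ind_pos u3]
          by_cases u2 : H z x
          · rw [ind_pos (p := (H z x ∧ ∃ y, H y x ∧ H z y) ∧ H z b') ⟨⟨u2, b', r1, u3⟩, u3⟩]
            linarith
          · rw [ind_pos (p := ¬H x z ∧ ¬H z x) ⟨fun h => h4 _ _ _ _ h u3 r3 r2, u2⟩]
            linarith
        · rw [ind_neg u3]; linarith
    linarith
  -- no transitive triangles
  have LA : ∀ b b0 s y, H b b0 → H b0 s → H b s → H y b → 3 * ms μ (fun z => H z b) < M := by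
    intro b b0 s y q1 q2 q3 q4
    have c1 := hcon y b s q4 q3
    have c3 : ms μ (H s) + ms μ (fun z => H z b) + ms μ (fun z => H z y) ≤ M :=
      ms_tri hμ (fun z h h' => h4 _ _ _ _ q1 q2 h h') (fun z h h' => h4 _ _ _ _ q4 q3 h h')
        (fun z h h' => F1 b b0 s z y q1 q3 q2 h q4 h')
    linarith
  have LB : ∀ b b0 s x, H b b0 → H b0 s → H b s → H s x → 3 * ms μ (H s) < M := by
    intro b b0 s x q1 q2 q3 q4
    have c1 := hcon b s x q3 q4
    have c3 : ms μ (fun z => H z b) + ms μ (H s) + ms μ (H x) ≤ M :=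
      ms_tri hμ (fun z h h' => h4 _ _ _ _ q1 q2 h' h) (fun z h h' => h4 _ _ _ _ q3 q4 h' h)
        (fun z h h' => F1 s x z b b0 q4 h h' q3 q2 q1)
    linarith
  have TT : ∀ b b0 s, H b b0 → H b0 s → H b s → False := by
    intro b b0 s q1 q2 q3
    have c1 := hcon b b0 s q1 q2
    have c2 : 3 * ms μ (H s) ≤ M := by
      by_cases h : ∃ x, H s x
      · obtain ⟨x, hx⟩ := h
        exact (LB b b0 s x q1 q2 q3 hx).le
      · rw [ms_zero μ (not_exists.1 h)]; linarith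
    have c3 : 3 * ms μ (fun z => H z b) ≤ M := by
      by_cases h : ∃ y, H y b
      · obtain ⟨y, hy⟩ := h
        exact (LA b b0 s y q1 q2 q3 hy).le
      · rw [ms_zero μ (not_exists.1 h)]; linarith
    linarith
  have E1 : ∀ x a, H x a → ms μ (H x) + ms μ (fun z => H z a) + ms μ (H a) ≤ M :=
    fun x a q => ms_tri hμ (fun z h h' => TT _ _ _ h h' q) (fun z h h' => TT _ _ _ q h' h)
      (fun z h h' => h2 _ _ h h')
  have E2 : ∀ x a, H x a → ms μ (H x) + ms μ (fun z => H z a) + ms μ (fun z => H z x) ≤ M :=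
    fun x a q => ms_tri hμ (fun z h h' => TT _ _ _ h h' q) (fun z h h' => h2 _ _ h h')
      (fun z h h' => TT _ _ _ h' q h)
  have cyc : ∀ (σ : ι → ι) (k : ℕ) (C : Finset ι), C.card = k → C.Nonempty →
      (∀ v ∈ C, σ v ∈ C ∧ H v (σ v)) → False := by
    intro σ k
    induction k using Nat.strong_induction_on with
    | _ k ih =>
    intro C hk hne hC
    have hsub : C.image σ ⊆ C := fun y hy => by
      obtain ⟨v, hv, rfl⟩ := mem_image.1 hy
      exact (hC v hv).1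
    by_cases he : C.image σ = C
    · have hinj : Set.InjOn σ C := card_image_iff.1 (by rw [he])
      have hs : ∀ F : ι → ℝ, ∑ v ∈ C, F (σ v) = ∑ v ∈ C, F v := fun F => by
        rw [← sum_image (f := F) hinj, he]
      have a1 : ∑ _v ∈ C, 2 * M <
          ∑ v ∈ C, 3 * (ms μ (H (σ (σ v))) + ms μ (fun z => H z v)) :=
        sum_lt_sum_of_nonempty hne fun v hv => hcon _ _ _ (hC v hv).2 (hC _ (hC v hv).1).2
      have a2 : ∑ v ∈ C, (2 * ms μ (H v) + ms μ (H (σ v)) + 2 * ms μ (fun z => H z (σ v)) +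
          ms μ (fun z => H z v)) ≤ ∑ _v ∈ C, 2 * M :=
        sum_le_sum fun v hv => by linarith [E1 _ _ (hC v hv).2, E2 _ _ (hC v hv).2]
      have a3 := hs fun v => ms μ (H (σ v))
      have a4 := hs fun v => ms μ (H v)
      have a5 := hs fun v => ms μ (fun z => H z v)
      simp only [sum_add_distrib, ← mul_sum] at a1 a2
      linarith
    · refine ih (C.image σ).card (hk ▸ card_lt_card (Finset.ssubset_iff_subset_ne.2 ⟨hsub, he⟩))
        _ rfl (hne.image σ) fun v hv => ⟨mem_image_of_mem σ (hsub hv), (hC v (hsub hv)).2⟩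
  by_cases hD : ∀ s x t, H s x → H x t → ∃ y, H t y
  · have hD' : ∀ t, ∃ y, (∃ s x, H s x ∧ H x t) → H t y := by
      intro t
      by_cases h : ∃ s x, H s x ∧ H x t
      · obtain ⟨s, x, q1, q2⟩ := h
        obtain ⟨y, hy⟩ := hD s x t q1 q2
        exact ⟨y, fun _ => hy⟩
      · exact ⟨t, fun h' => absurd h' h⟩
    choose σ hσ using hD'
    refine cyc σ _ (univ.filter fun t => ∃ s x, H s x ∧ H x t) rfl ?_ ?_
    · obtain ⟨s, x, t, q⟩ := hp
      exact ⟨t, mem_filter.2 ⟨mem_univ _, s, x, q⟩⟩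
    · intro v hv
      have q := (mem_filter.1 hv).2
      obtain ⟨s, x, q1, q2⟩ := id q
      exact ⟨mem_filter.2 ⟨mem_univ _, x, v, q2, hσ v q⟩, hσ v q⟩
  · push Not at hD
    obtain ⟨s, x, t, q1, q2, q3⟩ := hD
    have c1 := hcon s x t q1 q2
    rw [ms_zero μ q3] at c1
    obtain ⟨s1, q4⟩ : ∃ y, H y s := by
      by_contra h
      rw [ms_zero μ (not_exists.1 h)] at c1; linarith
    have c2 := hcon s1 s x q4 q1
    have c3 := E2 s1 s q4
    have c4 := ms_nonneg hμ (H s1)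
    obtain ⟨y, q5, q6⟩ : ∃ y, H x y ∧ H y s := by
      by_contra h
      have := ms_tri hμ (p := H x) (q := fun z => H z s) (r := fun _ => False)
        (fun z a b => h ⟨z, a, b⟩) (fun _ _ b => b) (fun _ _ b => b)
      have := ms_nonneg hμ (fun _ : ι => False)
      linarith
    have d1 := hcon s x y q1 q5
    have d2 := hcon x y s q5 q6
    have d3 := hcon y s x q6 q1
    linarith [E1 _ _ q1, E2 _ _ q1, E1 _ _ q5, E2 _ _ q5, E1 _ _ q6, E2 _ _ q6]

end Pool.Agent.H.MP_1ff796_co
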