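import Pool.Agent.H.MP_1ff796_co.Opt
import Pool.Agent.H.MP_b50c09_co.Design

namespace Pool.Agent.H.MP_1ff796_co

open Finset Pool.Agent.H.MP_b50c09_co

variable {V : Type} [DecidableEq V]

abbrev B4 (V : Type) := Fin 4 → Finset V

def sp (b : B4 V) : Finset V := univ.biUnion b

def Cp (E : Bool → Q4 V → Prop) (b : B4 V) : Prop :=
  ∃ c, ∀ x ∈ b 0, ∀ y ∈ b 1, ∀ z ∈ b 2, ∀ w ∈ b 3, E c (x, y, z, w)

def Bk (E : Bool → Q4 V → Prop) (s : ℕ) (b : B4 V) : Prop :=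
  (∀ i, (b i).card = s) ∧ (∀ i j, i ≠ j → Disjoint (b i) (b j)) ∧ Cp E b

def Pk (E : Bool → Q4 V → Prop) (s : ℕ) (F : Finset (B4 V)) : Prop :=
  (∀ b ∈ F, Bk E s b) ∧ ∀ b ∈ F, ∀ b' ∈ F, b ≠ b' → Disjoint (sp b) (sp b')

def cv (F : Finset (B4 V)) : Finset V := F.biUnion sp

def Tl (E : Bool → Q4 V → Prop) (s : ℕ) (X : Finset V) : Prop := ∃ F, Pk E s F ∧ cv F = X

variable {E : Bool → Q4 V → Prop} {s : ℕ}

omit [DecidableEq V] in
theorem Cp.mono {b b' : B4 V} (h : Cp E b) (hb : ∀ i, b' i ⊆ b i) : Cp E b' := by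
  obtain ⟨c, hc⟩ := h
  exact ⟨c, fun x hx y hy z hz w hw => hc x (hb _ hx) y (hb _ hy) z (hb _ hz) w (hb _ hw)⟩

theorem mem_sp {b : B4 V} {x : V} : x ∈ sp b ↔ ∃ i, x ∈ b i := by simp [sp]

theorem sub_sp (b : B4 V) (i : Fin 4) : b i ⊆ sp b := fun _ hx => mem_sp.2 ⟨i, hx⟩

theorem Bk.card_sp {b : B4 V} (hb : Bk E s b) : (sp b).card = 4 * s := by
  rw [sp, card_biUnion (fun i _ j _ h => hb.2.1 i j h), sum_congr rfl fun i _ => hb.1 i]
  simp

theorem Pk.card_cv {F : Finset (B4 V)} (hF : Pk E s F) : (cv F).card = 4 * s * F.card := by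
  rw [cv, card_biUnion (fun b hb b' hb' h => hF.2 b hb b' hb' h),
    sum_congr rfl fun b hb => (hF.1 b hb).card_sp, sum_const, smul_eq_mul, mul_comm]

theorem sp_sub_cv {F : Finset (B4 V)} {b : B4 V} (hb : b ∈ F) : sp b ⊆ cv F :=
  subset_biUnion_of_mem sp hb

theorem cv_union (F G : Finset (B4 V)) : cv (F ∪ G) = cv F ∪ cv G := by
  simp [cv, union_biUnion]

theorem Pk.union {F G : Finset (B4 V)} (hF : Pk E s F) (hG : Pk E s G)
    (h : Disjoint (cv F) (cv G)) : Pk E s (F ∪ G) := by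
  refine ⟨fun b hb => (mem_union.1 hb).elim (hF.1 b) (hG.1 b), fun b hb b' hb' hne => ?_⟩
  rcases mem_union.1 hb with hb | hb <;> rcases mem_union.1 hb' with hb' | hb'
  · exact hF.2 b hb b' hb' hne
  · exact h.mono (sp_sub_cv hb) (sp_sub_cv hb')
  · exact h.symm.mono (sp_sub_cv hb) (sp_sub_cv hb')
  · exact hG.2 b hb b' hb' hne

theorem Pk.mono {F G : Finset (B4 V)} (hF : Pk E s F) (h : G ⊆ F) : Pk E s G :=
  ⟨fun b hb => hF.1 b (h hb), fun b hb b' hb' => hF.2 b (h hb) b' (h hb')⟩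

theorem Pk.single {b : B4 V} (hb : Bk E s b) : Pk E s {b} := by
  refine ⟨by simpa using hb, ?_⟩
  intro x hx y hy hne
  rw [mem_singleton] at hx hy
  exact absurd (hx.trans hy.symm) hne

theorem Pk.empty : Pk E s ∅ := ⟨by simp, by simp⟩

theorem cv_single (b : B4 V) : cv {b} = sp b := by simp [cv]

theorem Tl.empty : Tl E s ∅ := ⟨∅, Pk.empty, by simp [cv]⟩

theorem Tl.single {b : B4 V} (hb : Bk E s b) : Tl E s (sp b) :=
  ⟨{b}, Pk.single hb, cv_single b⟩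

theorem Tl.union {X Y : Finset V} (hX : Tl E s X) (hY : Tl E s Y) (h : Disjoint X Y) :
    Tl E s (X ∪ Y) := by
  obtain ⟨F, hF, rfl⟩ := hX
  obtain ⟨G, hG, rfl⟩ := hY
  exact ⟨F ∪ G, hF.union hG h, cv_union F G⟩

theorem Tl.biUnion {ι : Type} [DecidableEq ι] (I : Finset ι) (X : ι → Finset V)
    (hX : ∀ i ∈ I, Tl E s (X i))
    (h : ∀ i ∈ I, ∀ j ∈ I, i ≠ j → Disjoint (X i) (X j)) : Tl E s (I.biUnion X) := by
  induction I using Finset.induction_on with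
  | empty => simpa using Tl.empty
  | insert i I hi ih =>
    rw [biUnion_insert]
    refine (hX i (mem_insert_self _ _)).union
      (ih (fun j hj => hX j (mem_insert_of_mem hj))
        fun a ha b hb => h a (mem_insert_of_mem ha) b (mem_insert_of_mem hb)) ?_
    rw [disjoint_biUnion_right]
    intro j hj
    exact h i (mem_insert_self _ _) j (mem_insert_of_mem hj) (fun e => hi (e ▸ hj))

theorem tileK (q : ℕ) : ∀ b : B4 V, (∀ i j, i ≠ j → Disjoint (b i) (b j)) → Cp E b →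
    (∀ i, q * s ≤ (b i).card) → ∃ X ⊆ sp b, Tl E s X ∧ X.card = 4 * s * q := by
  induction q with
  | zero => intro b _ _ _; exact ⟨∅, empty_subset _, Tl.empty, by simp⟩
  | succ q ih =>
    intro b hd hc hq
    have e : (q + 1) * s = q * s + s := by ring
    choose a ha1 ha2 using fun i => exists_subset_card_eq (s := b i) (n := s)
      (by have := hq i; omega)
    have hb : Bk E s a := ⟨ha2, fun i j h => (hd i j h).mono (ha1 i) (ha1 j), hc.mono ha1⟩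
    obtain ⟨X, hX1, hX2, hX3⟩ := ih (fun i => b i \ a i)
      (fun i j h => (hd i j h).mono sdiff_subset sdiff_subset) (hc.mono fun i => sdiff_subset)
      (fun i => by
        have := hq i
        rw [card_sdiff_of_subset (ha1 i), ha2]; omega)
    have hdX : Disjoint X (sp a) := by
      rw [disjoint_left]
      intro x hx hx'
      obtain ⟨i, hi⟩ := mem_sp.1 (hX1 hx)
      obtain ⟨j, hj⟩ := mem_sp.1 hx'
      rw [mem_sdiff] at hi
      by_cases h : i = j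
      · exact hi.2 (h ▸ hj)
      · exact disjoint_left.1 (hd i j h) hi.1 (ha1 j hj)
    refine ⟨X ∪ sp a, fun x hx => ?_, hX2.union (Tl.single hb) hdX, ?_⟩
    · rcases mem_union.1 hx with hx | hx
      · obtain ⟨i, hi⟩ := mem_sp.1 (hX1 hx)
        exact mem_sp.2 ⟨i, (mem_sdiff.1 hi).1⟩
      · obtain ⟨i, hi⟩ := mem_sp.1 hx
        exact mem_sp.2 ⟨i, ha1 i hi⟩
    · rw [card_union_of_disjoint hdX, hX3, hb.card_sp]; ring

theorem tile_rest {T : ℕ} (hs : 0 < s) {b : B4 V} (hb : Bk E T b) (X : Finset V) (a : ℝ)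
    (ha : ∀ i, a ≤ ((b i \ X).card : ℝ)) :
    ∃ Y ⊆ sp b \ X, Tl E s Y ∧ 4 * a - 4 * s ≤ (Y.card : ℝ) := by
  obtain ⟨i0, -, hi0⟩ := exists_min_image univ (fun i => (b i \ X).card) univ_nonempty
  obtain ⟨q, h1, h2⟩ : ∃ q, q * s ≤ (b i0 \ X).card ∧ (b i0 \ X).card < q * s + s :=
    ⟨_, Nat.div_mul_le_self _ s, Nat.lt_div_mul_add hs⟩
  obtain ⟨Y, hY1, hY2, hY3⟩ := tileK (s := s) q (fun i => b i \ X)
    (fun i j h => (hb.2.1 i j h).mono sdiff_subset sdiff_subset)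
    (hb.2.2.mono fun i => sdiff_subset) (fun i => h1.trans (hi0 i (mem_univ _)))
  refine ⟨Y, fun x hx => ?_, hY2, ?_⟩
  · obtain ⟨i, hi⟩ := mem_sp.1 (hY1 hx)
    rw [mem_sdiff] at hi ⊢
    exact ⟨mem_sp.2 ⟨i, hi.1⟩, hi.2⟩
  · have h4 : ((b i0 \ X).card : ℝ) ≤ (q * s + s : ℕ) := by exact_mod_cast h2.le
    rw [hY3]
    push_cast at h4 ⊢
    linarith [ha i0]

theorem exists_box4 (t : ℕ) (ρ : ℝ) (hρ : 0 < ρ) : ∃ n0 : ℕ,
    ∀ {α : Type} (A B C D : Finset α) (r : Q4 α → Prop),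
      n0 ≤ A.card → n0 ≤ B.card → n0 ≤ C.card → n0 ≤ D.card →
      ρ * (A.card * B.card * C.card * D.card) ≤ ∑ T ∈ A ×ˢ B ×ˢ C ×ˢ D, ind (r T) →
      ∃ S ⊆ A, ∃ T ⊆ B, ∃ U ⊆ C, ∃ W ⊆ D, S.card = t ∧ T.card = t ∧ U.card = t ∧ W.card = t ∧
        ∀ a ∈ S, ∀ b ∈ T, ∀ c ∈ U, ∀ d ∈ W, r (a, b, c, d) := by
  obtain ⟨σ, hσ, n1, h1⟩ := box2 t ρ hρ
  obtain ⟨σ', hσ', n2, h2⟩ := box2 t σ hσ
  refine ⟨n1 + n2 + t, ?_⟩
  intro α A B C D r hA hB hC hD h
  have h3 := h1 A B (C ×ˢ D) (fun a b p => r (a, b, p)) (by omega) (by omega) (by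
    rw [card_product, Nat.cast_mul, ← mul_assoc ((A.card : ℝ) * B.card)]
    refine h.trans (le_of_eq ?_)
    rw [sum_product]
    exact sum_congr rfl fun a _ => sum_product _ _ _)
  have h4 := h2 C D (powersetCard t A ×ˢ powersetCard t B)
    (fun c d p => ∀ b ∈ p.2, ∀ a ∈ p.1, r (a, b, c, d)) (by omega) (by omega) (by
    rw [card_product, Nat.cast_mul] at h3 ⊢
    rw [sum_product] at h3
    simp only [sum_product]
    linarith)
  have hp : ∀ X : Finset α, n1 + n2 + t ≤ X.card → (0 : ℝ) < (powersetCard t X).card := by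
    intro X hX
    rw [card_powersetCard]
    exact_mod_cast Nat.choose_pos (by omega)
  rw [card_product, Nat.cast_mul] at h4
  have h5 := (lt_of_lt_of_le (mul_pos hσ' (mul_pos (mul_pos (mul_pos (hp A hA) (hp B hB))
    (hp C hC)) (hp D hD))) h4).ne'
  obtain ⟨p, hp, h6⟩ := exists_ne_zero_of_sum_ne_zero h5
  obtain ⟨U, hU, h7⟩ := exists_ne_zero_of_sum_ne_zero h6
  obtain ⟨W, hW, h8⟩ := exists_ne_zero_of_sum_ne_zero h7
  rw [mem_product, mem_powersetCard, mem_powersetCard] at hp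
  rw [mem_powersetCard] at hU hW
  exact ⟨p.1, hp.1.1, p.2, hp.2.1, U, hU.1, W, hW.1, hp.1.2, hp.2.2, hU.2, hW.2,
    fun a ha b hb c hc d hd => of_ind_ne_zero h8 d hd c hc b hb a ha⟩

end Pool.Agent.H.MP_1ff796_co
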