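import Pool.Agent.H.MP_1ff796_co.Small

namespace Pool.Agent.H.MP_1ff796_co

open Finset Pool.Agent.H.MP_b50c09_co

section
variable {V : Type} [DecidableEq V] {m : ℕ}

abbrev Om (m : ℕ) (P : Finset V) : Finset (Fin m → V) := Fintype.piFinset fun _ : Fin m => P

theorem resample (P : Finset V) (j : Fin m) (F : (Fin m → V) → ℝ) :
    P.card * ∑ σ ∈ Om m P, F σ = ∑ σ ∈ Om m P, ∑ y ∈ P, F (Function.update σ j y) := by
  rw [mul_sum, sum_congr rfl fun σ _ => show (P.card : ℝ) * F σ = ∑ _y ∈ P, F σ by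
    rw [sum_const, nsmul_eq_mul], ← sum_product', ← sum_product']
  have hm : ∀ p ∈ Om m P ×ˢ P, (Function.update p.1 j p.2, p.1 j) ∈ Om m P ×ˢ P := by
    intro p hp
    rw [mem_product, Fintype.mem_piFinset] at hp ⊢
    refine ⟨fun i => ?_, hp.1 j⟩
    by_cases h : i = j
    · rw [h]; dsimp only; rw [Function.update_self]; exact hp.2
    · dsimp only; rw [Function.update_of_ne h]; exact hp.1 i
  refine sum_nbij' (fun p => (Function.update p.1 j p.2, p.1 j))
    (fun p => (Function.update p.1 j p.2, p.1 j)) hm hm ?_ ?_ ?_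
  · intro p _; simp
  · intro p _; simp
  · intro p _; simp

theorem resample_ind (P : Finset V) (j : Fin m) (a : V) (R : (Fin m → V) → Prop)
    (hR : ∀ σ y, R (Function.update σ j y) → R σ) :
    P.card * ∑ σ ∈ Om m P, ind (σ j = a ∧ R σ) ≤ ∑ σ ∈ Om m P, ind (R σ) := by
  rw [resample P j]
  refine sum_le_sum fun σ _ => ?_
  have h1 : ∑ y ∈ P, ind (Function.update σ j y j = a ∧ R (Function.update σ j y)) ≤
      ∑ y ∈ P, ind (a = y) * ind (R σ) := by
    refine sum_le_sum fun y _ => ?_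
    rw [← ind_and, Function.update_self]
    exact ind_mono fun h => ⟨h.1.symm, hR σ y h.2⟩
  rw [← sum_mul] at h1
  nlinarith [sum_ind_eq_le P a, ind_nonneg (R σ)]

theorem sum_Om (P : Finset V) : ∑ _σ ∈ Om m P, (1 : ℝ) = (P.card : ℝ) ^ m := by
  simp [Fintype.card_piFinset]

theorem cnt1 (P : Finset V) (i : Fin m) (a : V) :
    P.card * ∑ σ ∈ Om m P, ind (σ i = a) ≤ (P.card : ℝ) ^ m := by
  have := resample_ind P i a (fun _ => True) (fun _ _ h => h)
  simp only [and_true, ind_pos trivial] at this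
  rwa [sum_Om] at this

theorem cnt2 (P : Finset V) (i j : Fin m) (hij : i ≠ j) (a b : V) :
    (P.card : ℝ) ^ 2 * ∑ σ ∈ Om m P, ind (σ i = a ∧ σ j = b) ≤ (P.card : ℝ) ^ m := by
  have h1 := resample_ind P i a (fun σ => σ j = b)
    (fun σ y h => by rwa [Function.update_of_ne hij.symm] at h)
  have h2 := cnt1 P j b
  have h3 := mul_le_mul_of_nonneg_left h1 (show (0 : ℝ) ≤ P.card by positivity)
  nlinarith

theorem cnt4 (P : Finset V) (i j k l : Fin m) (hij : i ≠ j) (hik : i ≠ k) (hil : i ≠ l)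
    (hjk : j ≠ k) (hjl : j ≠ l) (hkl : k ≠ l) (a b c d : V) :
    (P.card : ℝ) ^ 4 * ∑ σ ∈ Om m P, ind (σ i = a ∧ σ j = b ∧ σ k = c ∧ σ l = d) ≤
      (P.card : ℝ) ^ m := by
  have h1 := resample_ind P i a (fun σ => σ j = b ∧ σ k = c ∧ σ l = d)
    (fun σ y h => by
      rwa [Function.update_of_ne hij.symm, Function.update_of_ne hik.symm,
        Function.update_of_ne hil.symm] at h)
  have h2 := resample_ind P j b (fun σ => σ k = c ∧ σ l = d)
    (fun σ y h => by rwa [Function.update_of_ne hjk.symm, Function.update_of_ne hjl.symm] at h)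
  have h3 := cnt2 P k l hkl c d
  have h4 := mul_le_mul_of_nonneg_left h1 (show (0 : ℝ) ≤ (P.card : ℝ) ^ 3 by positivity)
  have h5 := mul_le_mul_of_nonneg_left h2 (show (0 : ℝ) ≤ (P.card : ℝ) ^ 2 by positivity)
  nlinarith

theorem variance (P : Finset V) (hP : P.Nonempty) (i : Fin m) (X : V → V → ℝ)
    (h1 : ∀ u y, (X u y) ^ 2 ≤ 1) (h0 : ∀ u, ∑ y ∈ P, X u y = 0) :
    ∑ σ ∈ Om m P, (∑ j ∈ univ.erase i, X (σ i) (σ j)) ^ 2 ≤ m * (P.card : ℝ) ^ m := by
  have hp : (0 : ℝ) < P.card := by exact_mod_cast hP.card_pos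
  simp only [sq, sum_mul_sum]
  rw [sum_comm]
  have h2 : ∀ j ∈ univ.erase i, ∑ σ ∈ Om m P, ∑ l ∈ univ.erase i,
      X (σ i) (σ j) * X (σ i) (σ l) ≤ (P.card : ℝ) ^ m := by
    intro j hj
    rw [sum_comm, sum_eq_single j]
    · rw [← sum_Om]
      exact sum_le_sum fun σ _ => by rw [← sq]; exact h1 _ _
    · intro l _ hl
      refine (mul_eq_zero.1 ?_).resolve_left hp.ne'
      rw [resample P j]
      refine sum_eq_zero fun σ _ => ?_
      simp only [Function.update_self, Function.update_of_ne (mem_erase.1 hj).1.symm,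
        Function.update_of_ne hl]
      rw [← sum_mul, h0, zero_mul]
    · intro h; exact absurd hj h
  refine (sum_le_sum h2).trans ?_
  rw [sum_const, nsmul_eq_mul]
  have : (univ.erase i).card ≤ m := by simpa using card_le_univ (univ.erase i)
  exact mul_le_mul_of_nonneg_right (by exact_mod_cast this) (by positivity)

theorem cheb (P : Finset V) (hP : P.Nonempty) (η : ℝ) (hη : 0 < η) (hm : 8 ≤ η * m)
    (R : V → V → Prop) (hR : ∀ u ∈ P, (1 / 2 + η) * P.card ≤ ∑ y ∈ P, ind (R u y)) (i : Fin m) :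
    η ^ 2 * m * ∑ σ ∈ Om m P, ind (∑ j, ind (R (σ i) (σ j)) < (1 / 2 + η / 2) * m) ≤
      16 * (P.card : ℝ) ^ m := by
  have hp : (0 : ℝ) < P.card := by exact_mod_cast hP.card_pos
  have hm0 : (0 : ℝ) < m := by exact_mod_cast i.pos
  set d : V → ℝ := fun u => (∑ y ∈ P, ind (R u y)) / P.card with hd
  have hd0 : ∀ u, 0 ≤ d u := fun u => div_nonneg (sum_nonneg fun _ _ => ind_nonneg _) hp.le
  have hd1 : ∀ u, d u ≤ 1 := fun u => by
    simp only [hd]
    rw [div_le_one hp]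
    have : ∑ y ∈ P, ind (R u y) ≤ ∑ _y ∈ P, (1 : ℝ) := sum_le_sum fun _ _ => ind_le_one _
    simpa using this
  have h1 := variance P hP i (fun u y => ind (R u y) - d u)
    (fun u y => by nlinarith [ind_nonneg (R u y), ind_le_one (R u y), hd0 u, hd1 u])
    (fun u => by
      rw [sum_sub_distrib, sum_const, nsmul_eq_mul]
      simp only [hd]
      field_simp
      ring)
  have h2 : ∑ σ ∈ Om m P, η ^ 2 * m ^ 2 *
      ind (∑ j, ind (R (σ i) (σ j)) < (1 / 2 + η / 2) * m) ≤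
      ∑ σ ∈ Om m P, 16 * (∑ j ∈ univ.erase i, (ind (R (σ i) (σ j)) - d (σ i))) ^ 2 := by
    refine sum_le_sum fun σ hσ => ?_
    by_cases h : ∑ j, ind (R (σ i) (σ j)) < (1 / 2 + η / 2) * m
    · rw [ind_pos h, mul_one, sum_sub_distrib, sum_const, nsmul_eq_mul,
        card_erase_of_mem (mem_univ _), card_univ, Fintype.card_fin, Nat.cast_pred i.pos]
      have a1 : ∑ j ∈ univ.erase i, ind (R (σ i) (σ j)) ≤ ∑ j, ind (R (σ i) (σ j)) :=
        sum_le_sum_of_subset_of_nonneg (erase_subset _ _) fun _ _ _ => ind_nonneg _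
      have a2 : 1 / 2 + η ≤ d (σ i) := by
        simp only [hd]
        rw [le_div_iff₀ hp]; exact hR _ (Fintype.mem_piFinset.1 hσ i)
      have a3 := hd1 (σ i)
      have a4 := mul_le_mul_of_nonneg_left a2 hm0.le
      have a5 : η * m / 4 ≤ -(∑ j ∈ univ.erase i, ind (R (σ i) (σ j)) - (m - 1) * d (σ i)) := by
        linarith
      have a6 := pow_le_pow_left₀ (by positivity) a5 2
      nlinarith
    · rw [ind_neg h, mul_zero]; positivity
  rw [← mul_sum, ← mul_sum] at h2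
  have h3 : m * (η ^ 2 * m * ∑ σ ∈ Om m P,
      ind (∑ j, ind (R (σ i) (σ j)) < (1 / 2 + η / 2) * m)) ≤ m * (16 * (P.card : ℝ) ^ m) := by
    linarith
  exact le_of_mul_le_mul_left h3 hm0

end

theorem one_sample {m : ℕ} (G : Fin m → Fin m → Prop) (η ε : ℝ) (hη : 0 < η) (hη1 : η ≤ 1)
    (hε : 0 < ε) (hε1 : ε ≤ η / 4) :
    ∃ f : Q4 (Fin m) → ℝ, (∀ T, 0 ≤ f T) ∧ (∀ T, f T ≠ 0 → Gd G T) ∧ (∀ v, ld f v ≤ 1) ∧
      ∑ i, (1 - ld f i) ≤ ε * m + 4 / η * ∑ i,
        (ind (∑ j, ind (G i j) < (1 / 2 + η / 2) * m) +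
          ind (∑ j, ind (G j i) < (1 / 2 + η / 2) * m)) := by
  classical
  set B := univ.filter fun i => ∑ j, ind (G i j) < (1 / 2 + η / 2) * m ∨
    ∑ j, ind (G j i) < (1 / 2 + η / 2) * m with hB
  have hb : (B.card : ℝ) ≤ ∑ i, (ind (∑ j, ind (G i j) < (1 / 2 + η / 2) * m) +
      ind (∑ j, ind (G j i) < (1 / 2 + η / 2) * m)) := by
    rw [hB, ← sum_ind]
    refine sum_le_sum fun i _ => ?_
    have a1 := ind_nonneg (∑ j, ind (G i j) < (1 / 2 + η / 2) * m)
    have a2 := ind_nonneg (∑ j, ind (G j i) < (1 / 2 + η / 2) * m)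
    by_cases h : ∑ j, ind (G i j) < (1 / 2 + η / 2) * m ∨ ∑ j, ind (G j i) < (1 / 2 + η / 2) * m
    · rw [ind_pos h]
      rcases h with h | h <;> rw [ind_pos h] <;> linarith
    · rw [ind_neg h]; linarith
  have h4 : 1 ≤ 4 / η := by rw [le_div_iff₀ hη]; linarith
  have hb0 : (0 : ℝ) ≤ B.card := by positivity
  have hm0 : (0 : ℝ) ≤ m := by positivity
  have hb2 := mul_le_mul_of_nonneg_left hb (show 0 ≤ 4 / η by positivity)
  by_cases hs : (B.card : ℝ) ≤ η / 4 * m
  · have hc : ((univ \ B).card : ℝ) ≤ m := by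
      have : (univ \ B).card ≤ m := by simpa using card_le_univ (univ \ B)
      exact_mod_cast this
    have hdeg : ∀ (r : Fin m → Prop) (r' : Fin m → Prop), (∀ z, z ∉ B → r z → r' z) →
        ¬(∑ j, ind (r j) < (1 / 2 + η / 2) * m) →
        (1 / 2 + ε) * (univ \ B).card ≤ ∑ z, ind (r' z) := by
      intro r r' h1 h2
      have a1 : ∑ j, ind (r j) ≤ ∑ j, (ind (r' j) + ind (j ∈ B)) := by
        refine sum_le_sum fun j _ => ?_
        have := ind_nonneg (r' j)
        by_cases hj : j ∈ B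
        · rw [ind_pos hj]; linarith [ind_le_one (r j)]
        · rw [ind_neg hj, add_zero]; exact ind_mono (h1 j hj)
      rw [sum_add_distrib] at a1
      have a2 := sum_ind_mem_le univ B
      have a3 := mul_le_mul hε1 hc (by positivity) (by positivity)
      linarith [not_lt.1 h2]
    obtain ⟨f, a1, a2, a3, a4⟩ := small (fun i j => i ∈ univ \ B ∧ j ∈ univ \ B ∧ G i j) (univ \ B)
      (fun a b h => ⟨h.1, h.2.1⟩) ε hε (by linarith) (fun u hu => by
        have hu' : u ∉ B := (mem_sdiff.1 hu).2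
        rw [hB, mem_filter, not_and, not_or] at hu'
        exact ⟨hdeg (G u) _ (fun z hz h => ⟨hu, mem_sdiff.2 ⟨mem_univ _, hz⟩, h⟩)
          (hu' (mem_univ _)).1, hdeg (fun z => G z u) _
          (fun z hz h => ⟨mem_sdiff.2 ⟨mem_univ _, hz⟩, hu, h⟩) (hu' (mem_univ _)).2⟩)
    refine ⟨f, a1, fun T hT => ?_, a3, ?_⟩
    · obtain ⟨⟨q1, q2, q3, q4⟩, q5⟩ := a2 T hT
      exact ⟨⟨q1.2.2, q2.2.2, q3.2.2, q4.2.2⟩, q5⟩
    · have b1 : ∑ i, (1 - ld f i) ≤ ∑ i, (ε + ind (i ∈ B)) := by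
        refine sum_le_sum fun i _ => ?_
        by_cases hi : i ∈ B
        · rw [ind_pos hi]
          have : 0 ≤ ld f i := sum_nonneg fun T _ => mul_nonneg (a1 T) (mult_nonneg i T)
          linarith
        · rw [ind_neg hi]; linarith [a4 i (mem_sdiff.2 ⟨mem_univ _, hi⟩)]
      rw [sum_add_distrib, sum_const, card_univ, Fintype.card_fin, nsmul_eq_mul] at b1
      have b2 := sum_ind_mem_le univ B
      nlinarith
  · refine ⟨fun _ => 0, fun _ => le_rfl, fun T h => absurd rfl h, fun v => by simp [ld], ?_⟩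
    simp only [ld, zero_mul, sum_const_zero, sub_zero, sum_const, card_univ, Fintype.card_fin,
      nsmul_eq_mul, mul_one]
    have b1 := mul_le_mul_of_nonneg_left (not_le.1 hs).le (show 0 ≤ 4 / η by positivity)
    have e : 4 / η * (η / 4 * m) = m := by field_simp
    have : 0 ≤ ε * m := by positivity
    linarith

end Pool.Agent.H.MP_1ff796_co
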