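import Pool.Agent.H.MP_1ff796_co.Pack4

namespace Pool.Agent.H.MP_1ff796_co

open Finset Pool.Agent.H.MP_b50c09_co

/-- Some two entries coincide. -/
def Dg {V : Type} (T : Q4 V) : Prop :=
  T.1 = T.2.1 ∨ T.1 = T.2.2.1 ∨ T.1 = T.2.2.2 ∨ T.2.1 = T.2.2.1 ∨ T.2.1 = T.2.2.2 ∨
    T.2.2.1 = T.2.2.2

/-- All entries avoid `X`. -/
def Av {V : Type} (X : Finset V) (T : Q4 V) : Prop :=
  T.1 ∉ X ∧ T.2.1 ∉ X ∧ T.2.2.1 ∉ X ∧ T.2.2.2 ∉ X

theorem ind_or_le (p q : Prop) : ind (p ∨ q) ≤ ind p + ind q := by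
  by_cases hp : p
  · rw [ind_pos hp]; linarith [ind_le_one (p ∨ q), ind_nonneg q]
  · rw [ind_neg hp, zero_add]; exact ind_mono fun h => h.resolve_left hp

theorem ind_split (p q : Prop) : ind p ≤ ind (p ∧ ¬q) + ind q := by
  refine le_trans (ind_mono fun h => ?_) (ind_or_le _ _)
  by_cases hq : q
  · exact Or.inr hq
  · exact Or.inl ⟨h, hq⟩

theorem pair_le {V : Type} (A B : Finset V) (t : ℝ) (h : (A.card : ℝ) = t) :
    ∑ a ∈ A, ∑ b ∈ B, ind (a = b) ≤ t := by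
  have : ∑ a ∈ A, ∑ b ∈ B, ind (a = b) ≤ ∑ _a ∈ A, (1 : ℝ) :=
    sum_le_sum fun a _ => sum_ind_eq_le _ _
  rwa [sum_const, nsmul_eq_mul, mul_one, h] at this

theorem clean {V : Type} [DecidableEq V] (A B C D X : Finset V) (t x : ℝ)
    (hA : (A.card : ℝ) = t) (hB : (B.card : ℝ) = t) (hC : (C.card : ℝ) = t)
    (hD : (D.card : ℝ) = t) (a1 : ((A ∩ X).card : ℝ) ≤ x) (a2 : ((B ∩ X).card : ℝ) ≤ x)
    (a3 : ((C ∩ X).card : ℝ) ≤ x) (a4 : ((D ∩ X).card : ℝ) ≤ x) (r : Q4 V → Prop) :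
    ∑ T ∈ A ×ˢ B ×ˢ C ×ˢ D, ind (r T) ≤
      ∑ T ∈ A ×ˢ B ×ˢ C ×ˢ D, ind ((r T ∧ ¬Dg T) ∧ Av X T) + (6 * t ^ 3 + 4 * x * t ^ 3) := by
  have h1 : ∀ T : Q4 V, ind (r T) ≤ ind ((r T ∧ ¬Dg T) ∧ Av X T) +
      ((ind (T.1 = T.2.1) + ind (T.1 = T.2.2.1) + ind (T.1 = T.2.2.2) + ind (T.2.1 = T.2.2.1) +
        ind (T.2.1 = T.2.2.2) + ind (T.2.2.1 = T.2.2.2)) +
      (ind (T.1 ∈ X) + ind (T.2.1 ∈ X) + ind (T.2.2.1 ∈ X) + ind (T.2.2.2 ∈ X))) := by
    intro T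
    have b1 := ind_split (r T) (Dg T)
    have b2 := ind_split (r T ∧ ¬Dg T) (T.1 ∈ X ∨ T.2.1 ∈ X ∨ T.2.2.1 ∈ X ∨ T.2.2.2 ∈ X)
    rw [ind_congr (show (r T ∧ ¬Dg T) ∧ ¬(T.1 ∈ X ∨ T.2.1 ∈ X ∨ T.2.2.1 ∈ X ∨ T.2.2.2 ∈ X) ↔
      (r T ∧ ¬Dg T) ∧ Av X T by simp only [Av, not_or])] at b2
    unfold Dg at b1
    linarith [ind_or_le (T.1 ∈ X) (T.2.1 ∈ X ∨ T.2.2.1 ∈ X ∨ T.2.2.2 ∈ X),
      ind_or_le (T.2.1 ∈ X) (T.2.2.1 ∈ X ∨ T.2.2.2 ∈ X), ind_or_le (T.2.2.1 ∈ X) (T.2.2.2 ∈ X),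
      ind_or_le (T.1 = T.2.1) (T.1 = T.2.2.1 ∨ T.1 = T.2.2.2 ∨ T.2.1 = T.2.2.1 ∨
        T.2.1 = T.2.2.2 ∨ T.2.2.1 = T.2.2.2),
      ind_or_le (T.1 = T.2.2.1) (T.1 = T.2.2.2 ∨ T.2.1 = T.2.2.1 ∨
        T.2.1 = T.2.2.2 ∨ T.2.2.1 = T.2.2.2),
      ind_or_le (T.1 = T.2.2.2) (T.2.1 = T.2.2.1 ∨ T.2.1 = T.2.2.2 ∨ T.2.2.1 = T.2.2.2),
      ind_or_le (T.2.1 = T.2.2.1) (T.2.1 = T.2.2.2 ∨ T.2.2.1 = T.2.2.2),
      ind_or_le (T.2.1 = T.2.2.2) (T.2.2.1 = T.2.2.2), show ind ((r T ∧ ¬(T.1 = T.2.1 ∨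
        T.1 = T.2.2.1 ∨ T.1 = T.2.2.2 ∨ T.2.1 = T.2.2.1 ∨ T.2.1 = T.2.2.2 ∨
        T.2.2.1 = T.2.2.2))) = ind (r T ∧ ¬Dg T) from rfl]
  refine (sum_le_sum fun T _ => h1 T).trans ?_
  rw [sum_add_distrib]
  refine add_le_add_right ?_ _
  simp only [sum_add_distrib, sum_product, sum_const, nsmul_eq_mul, ← mul_sum, sum_ind_mem,
    card_product, Nat.cast_mul, hA, hB, hC, hD]
  have ht : 0 ≤ t := by rw [← hA]; positivity
  have h2 : 0 ≤ t ^ 2 := by positivity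
  have h3 : 0 ≤ t ^ 3 := by positivity
  linarith [mul_le_mul_of_nonneg_left (pair_le A B t hA) h2,
    mul_le_mul_of_nonneg_left (pair_le A C t hA) h2,
    mul_le_mul_of_nonneg_left (pair_le A D t hA) h2,
    mul_le_mul_of_nonneg_left (pair_le B C t hB) h2,
    mul_le_mul_of_nonneg_left (pair_le B D t hB) h2,
    mul_le_mul_of_nonneg_left (pair_le C D t hC) h2,
    mul_le_mul_of_nonneg_left a1 h3, mul_le_mul_of_nonneg_left a2 h3,
    mul_le_mul_of_nonneg_left a3 h3, mul_le_mul_of_nonneg_left a4 h3]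

def bx {V ι : Type} (cl : ι → Finset V) (τ : Q4 ι) : Finset (Q4 V) :=
  cl τ.1 ×ˢ cl τ.2.1 ×ˢ cl τ.2.2.1 ×ˢ cl τ.2.2.2

/-- Number of roles of `y` in the multiset. -/
noncomputable def cn {ι : Type} (m : Multiset (Q4 ι)) (y : ι) : ℝ :=
  (m.map (s4 fun z => ind (z = y))).sum

theorem card_inter_cl' {V ι : Type} [DecidableEq V] (cl : ι → Finset V)
    (hd : ∀ i j, i ≠ j → Disjoint (cl i) (cl j)) (A : Finset V) (x y : ι) (hA : A ⊆ cl x) :
    ((A ∩ cl y).card : ℝ) = A.card * ind (x = y) := by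
  by_cases h : x = y
  · subst h; rw [inter_eq_left.2 hA, ind_pos rfl, mul_one]
  · rw [ind_neg h, mul_zero, Nat.cast_eq_zero, card_eq_zero, ← disjoint_iff_inter_eq_empty]
    exact (hd x y h).mono_left hA

theorem bk_of {V : Type} {E : Bool → Q4 V → Prop} {s : ℕ} (hs : 0 < s) (c : Bool)
    (A B C D : Finset V) (cA : A.card = s) (cB : B.card = s) (cC : C.card = s) (cD : D.card = s)
    (h : ∀ x ∈ A, ∀ y ∈ B, ∀ z ∈ C, ∀ w ∈ D, E c (x, y, z, w) ∧ ¬Dg (x, y, z, w)) :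
    Bk E s ![A, B, C, D] := by
  obtain ⟨x, hx⟩ := card_pos.1 (cA ▸ hs)
  obtain ⟨y, hy⟩ := card_pos.1 (cB ▸ hs)
  obtain ⟨z, hz⟩ := card_pos.1 (cC ▸ hs)
  obtain ⟨w, hw⟩ := card_pos.1 (cD ▸ hs)
  have d1 : Disjoint A B := disjoint_left.2 fun a p q => (h a p a q z hz w hw).2 (by simp [Dg])
  have d2 : Disjoint A C := disjoint_left.2 fun a p q => (h a p y hy a q w hw).2 (by simp [Dg])
  have d3 : Disjoint A D := disjoint_left.2 fun a p q => (h a p y hy z hz a q).2 (by simp [Dg])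
  have d4 : Disjoint B C := disjoint_left.2 fun a p q => (h x hx a p a q w hw).2 (by simp [Dg])
  have d5 : Disjoint B D := disjoint_left.2 fun a p q => (h x hx a p z hz a q).2 (by simp [Dg])
  have d6 : Disjoint C D := disjoint_left.2 fun a p q => (h x hx y hy a p a q).2 (by simp [Dg])
  refine ⟨fun i => ?_, fun i j hij => ?_, c, fun a ha b hb d hd e he => (h a ha b hb d hd e he).1⟩
  · fin_cases i
    exacts [cA, cB, cC, cD]
  · fin_cases i <;> fin_cases j <;> first | exact absurd rfl hij | skip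
    exacts [d1, d2, d3, d1.symm, d4, d5, d2.symm, d4.symm, d6, d3.symm, d5.symm, d6.symm]

theorem seqExtract4 (s : ℕ) (hs : 0 < s) (δ : ℝ) (hδ : 0 < δ) : ∃ T0 : ℕ, ∀ T : ℕ, T0 ≤ T →
    ∀ {V ι : Type} [DecidableEq V] (E : Bool → Q4 V → Prop),
    ∀ (cl : ι → Finset V), (∀ i, (cl i).card = T) → (∀ i j, i ≠ j → Disjoint (cl i) (cl j)) →
    ∀ m : Multiset (Q4 ι), (∀ τ ∈ m, ∃ c, δ * (T : ℝ) ^ 4 ≤ ∑ U ∈ bx cl τ, ind (E c U)) →
      (∀ y, s * cn m y ≤ δ * T / 16) →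
      ∃ X, Tl E s X ∧ (∀ v ∈ X, ∃ i, v ∈ cl i) ∧ ∀ y, ((X ∩ cl y).card : ℝ) = s * cn m y := by
  obtain ⟨T0, hT0⟩ := exists_box4 s (δ / 2) (by positivity)
  obtain ⟨T1, hT1⟩ := exists_nat_ge (24 / δ)
  refine ⟨T0 + T1, ?_⟩
  intro T hT V ι _ E cl hc hd m
  have hT2 : 24 ≤ δ * T := by
    have : (T1 : ℝ) ≤ T := by exact_mod_cast (by omega : T1 ≤ T)
    rw [div_le_iff₀ hδ] at hT1; nlinarith
  have hs' : (0 : ℝ) ≤ s := by positivity
  induction m using Multiset.induction_on with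
  | empty => intro _ _; exact ⟨∅, Tl.empty, by simp, by simp [cn]⟩
  | cons τ m ih =>
    intro h1 h2
    have hcn : ∀ y, cn (τ ::ₘ m) y = s4 (fun z => ind (z = y)) τ + cn m y := fun y => by
      rw [cn, Multiset.map_cons, Multiset.sum_cons, cn]
    have h2' : ∀ y, s * cn m y ≤ δ * T / 16 := by
      intro y
      have := h2 y
      rw [hcn] at this
      nlinarith [mul_nonneg hs' (mult_nonneg y τ)]
    obtain ⟨X, hX1, hX2, hX3⟩ := ih (fun σ hσ => h1 σ (Multiset.mem_cons_of_mem hσ)) h2'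
    have hX4 : ∀ y, ((cl y ∩ X).card : ℝ) ≤ δ * T / 16 := by
      intro y; rw [inter_comm, hX3]; exact h2' y
    obtain ⟨c, h4⟩ := h1 τ (Multiset.mem_cons_self _ _)
    have h3 := clean (cl τ.1) (cl τ.2.1) (cl τ.2.2.1) (cl τ.2.2.2) X T _ (by rw [hc]) (by rw [hc])
      (by rw [hc]) (by rw [hc]) (hX4 _) (hX4 _) (hX4 _) (hX4 _) (E c)
    unfold bx at h4
    obtain ⟨A, hA, B, hB, C, hC, D, hD, cA, cB, cC, cD, hr⟩ := hT0 (cl τ.1) (cl τ.2.1)
      (cl τ.2.2.1) (cl τ.2.2.2) (fun U => (E c U ∧ ¬Dg U) ∧ Av X U) (by rw [hc]; omega)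
      (by rw [hc]; omega) (by rw [hc]; omega) (by rw [hc]; omega) (by
        simp only [hc]
        have hT3 : (0 : ℝ) ≤ (T : ℝ) ^ 3 := by positivity
        nlinarith [mul_le_mul_of_nonneg_right hT2 hT3])
    have hb := bk_of hs c A B C D cA cB cC cD fun x hx y hy z hz w hw => (hr x hx y hy z hz w hw).1
    obtain ⟨x, hx⟩ := card_pos.1 (cA ▸ hs)
    obtain ⟨y, hy⟩ := card_pos.1 (cB ▸ hs)
    obtain ⟨z, hz⟩ := card_pos.1 (cC ▸ hs)
    obtain ⟨w, hw⟩ := card_pos.1 (cD ▸ hs)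
    have hdX : Disjoint X (sp ![A, B, C, D]) := by
      rw [disjoint_right]
      intro a ha
      obtain ⟨i, hi⟩ := mem_sp.1 ha
      fin_cases i
      · exact (hr a hi y hy z hz w hw).2.1
      · exact (hr x hx a hi z hz w hw).2.2.1
      · exact (hr x hx y hy a hi w hw).2.2.2.1
      · exact (hr x hx y hy z hz a hi).2.2.2.2
    refine ⟨X ∪ sp ![A, B, C, D], hX1.union (Tl.single hb) hdX, ?_, ?_⟩
    · intro v hv
      rcases mem_union.1 hv with hv | hv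
      · exact hX2 v hv
      · obtain ⟨i, hi⟩ := mem_sp.1 hv
        fin_cases i
        exacts [⟨_, hA hi⟩, ⟨_, hB hi⟩, ⟨_, hC hi⟩, ⟨_, hD hi⟩]
    · intro u
      rw [union_inter_distrib_right, card_union_of_disjoint
        (hdX.mono inter_subset_left inter_subset_left), Nat.cast_add, hX3, sp, biUnion_inter,
        card_biUnion (fun i _ j _ h => (hb.2.1 i j h).mono inter_subset_left inter_subset_left),
        Nat.cast_sum, Fin.sum_univ_four, hcn]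
      have e1 := card_inter_cl' cl hd A _ u hA
      have e2 := card_inter_cl' cl hd B _ u hB
      have e3 := card_inter_cl' cl hd C _ u hC
      have e4 := card_inter_cl' cl hd D _ u hD
      rw [cA] at e1
      rw [cB] at e2
      rw [cC] at e3
      rw [cD] at e4
      change _ + (((A ∩ cl u).card : ℝ) + ((B ∩ cl u).card : ℝ) + ((C ∩ cl u).card : ℝ) +
        ((D ∩ cl u).card : ℝ)) = _
      rw [e1, e2, e3, e4, s4]
      ring

theorem cn_sum {ι κ : Type} (y : ι) (J : Finset κ) (m : κ → Multiset (Q4 ι)) :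
    cn (∑ j ∈ J, m j) y = ∑ j ∈ J, cn (m j) y := by
  classical
  unfold cn
  induction J using Finset.induction_on with
  | empty => simp
  | insert j J hj ih => rw [sum_insert hj, sum_insert hj, Multiset.map_add, Multiset.sum_add, ih]

/-- The quadruple with first entry `x` and differences `ω`. -/
def tq {ι : Type} [AddCommGroup ι] (p : (ι × ι × ι) × ι) : Q4 ι :=
  (p.2, p.2 + p.1.1, p.2 + p.1.2.1, p.2 + p.1.2.2)

theorem tq_bij {ι : Type} [AddCommGroup ι] : Function.Bijective (tq (ι := ι)) := by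
  refine Function.bijective_iff_has_inverse.2 ⟨fun T => ((T.2.1 - T.1, T.2.2.1 - T.1,
    T.2.2.2 - T.1), T.1), fun p => ?_, fun T => ?_⟩ <;> simp [tq]

theorem sum_tq {ι : Type} [Fintype ι] [AddCommGroup ι] (ω : ι × ι × ι) (y : ι) :
    ∑ x, s4 (fun z => ind (z = y)) (tq (ω, x)) = 4 := by
  have h : ∀ a : ι, ∑ x, ind (x + a = y) = 1 := fun a => by
    have := sum_ind_eq (fun _ => (1 : ℝ)) (y - a)
    simp only [one_mul] at this
    rw [← this]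
    exact sum_congr rfl fun x _ => ind_congr (by rw [eq_comm, sub_eq_iff_eq_add])
  have h0 := h 0
  simp only [add_zero] at h0
  simp only [s4, tq, sum_add_distrib, h, h0]
  norm_num

theorem design4 {ι : Type} [Fintype ι] [AddCommGroup ι] (g : Q4 ι → ℝ)
    (K η μ : ℝ) (D : ℕ) (h0 : ∀ τ, 0 ≤ g τ) (hK : ∀ τ, g τ ≤ K) (hη : 0 < η) (hμ : 0 ≤ μ)
    (hD : 16 * K ^ 2 ≤ η ^ 2 * D) (hD0 : 0 < D) (l : ι → ℝ)
    (hl : ∀ x, ld g x = (Fintype.card ι : ℝ) ^ 3 * l x) (hl1 : ∀ x, l x ≤ 1) :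
    ∃ m : Multiset (Q4 ι), (∀ τ ∈ m, g τ ≠ 0) ∧ (∀ y, cn m y ≤ 4 * K * μ * D) ∧
      ∑ y, |cn m y - μ * D| ≤
        4 * D * Fintype.card ι + μ * η * D * Fintype.card ι + μ * D * ∑ y, (1 - l y) := by
  obtain ⟨h, hh⟩ : ∃ h : ι × ι × ι → ι → ℝ, ∀ ω y, h ω y =
      ∑ x, g (tq (ω, x)) * s4 (fun z => ind (z = y)) (tq (ω, x)) := ⟨_, fun _ _ => rfl⟩
  have hh0 : ∀ ω x, 0 ≤ h ω x := fun ω y => by
    rw [hh]; exact sum_nonneg fun x _ => mul_nonneg (h0 _) (mult_nonneg _ _)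
  have hh1 : ∀ ω x, h ω x ≤ 4 * K := fun ω y => by
    rw [hh, ← sum_tq ω y, sum_mul]
    exact sum_le_sum fun x _ => by
      rw [mul_comm]; exact mul_le_mul_of_nonneg_left (hK _) (mult_nonneg _ _)
  have hsum : ∀ x, ∑ ω, h ω x = Fintype.card (ι × ι × ι) * l x := by
    intro y
    have e : (Fintype.card (ι × ι × ι) : ℝ) = (Fintype.card ι : ℝ) ^ 3 := by
      simp only [Fintype.card_prod, Nat.cast_mul]; ring
    rw [e, ← hl, ld, ← tq_bij.sum_comp, Fintype.sum_prod_type (α₂ := ι) (α₁ := ι × ι × ι)]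
    exact sum_congr rfl fun ω _ => hh ω y
  obtain ⟨w, hw⟩ := maurey h (16 * K ^ 2) (fun ω x => by nlinarith [hh0 ω x, hh1 ω x]) l hsum D
  obtain ⟨q, hq⟩ : ∃ q : Fin D → ι → ℕ, ∀ j x, q j x = ⌊μ * g (tq (w j, x))⌋₊ :=
    ⟨_, fun _ _ => rfl⟩
  obtain ⟨m, hm⟩ : ∃ m : Multiset (Q4 ι),
      m = ∑ j, ∑ x, Multiset.replicate (q j x) (tq (w j, x)) := ⟨_, rfl⟩
  have hcnt : ∀ y, cn m y = ∑ j, ∑ x, q j x * s4 (fun z => ind (z = y)) (tq (w j, x)) := by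
    intro y
    rw [hm, cn_sum]
    refine sum_congr rfl fun j _ => ?_
    rw [cn_sum]
    refine sum_congr rfl fun x _ => ?_
    rw [cn, Multiset.map_replicate, Multiset.sum_replicate, nsmul_eq_mul]
  have hq1 : ∀ j x, (q j x : ℝ) ≤ μ * g (tq (w j, x)) := fun j x => by
    rw [hq]; exact Nat.floor_le (mul_nonneg hμ (h0 _))
  have hq2 : ∀ j x, μ * g (tq (w j, x)) ≤ (q j x : ℝ) + 1 := fun j x => by
    rw [hq]; exact (Nat.lt_floor_add_one _).le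
  have hc1 : ∀ y, cn m y ≤ μ * ∑ j, h (w j) y := by
    intro y
    rw [hcnt, mul_sum]
    refine sum_le_sum fun j _ => ?_
    rw [hh, mul_sum]
    refine sum_le_sum fun x _ => ?_
    rw [← mul_assoc]
    exact mul_le_mul_of_nonneg_right (hq1 j x) (mult_nonneg _ _)
  have hc2 : ∀ y, μ * ∑ j, h (w j) y ≤ cn m y + 4 * D := by
    intro y
    have : ∀ j, μ * h (w j) y ≤ ∑ x, q j x * s4 (fun z => ind (z = y)) (tq (w j, x)) + 4 := by
      intro j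
      rw [hh, mul_sum, ← sum_tq (w j) y, ← sum_add_distrib]
      refine sum_le_sum fun x _ => ?_
      linarith [mul_le_mul_of_nonneg_right (hq2 j x) (mult_nonneg y (tq (w j, x)))]
    rw [hcnt, mul_sum]
    refine (sum_le_sum fun j _ => this j).trans (le_of_eq ?_)
    rw [sum_add_distrib, sum_const, card_univ, Fintype.card_fin, nsmul_eq_mul, mul_comm]
  refine ⟨m, ?_, ?_, ?_⟩
  · intro τ hτ
    rw [hm, Multiset.mem_sum] at hτ
    obtain ⟨j, -, hτ⟩ := hτ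
    rw [Multiset.mem_sum] at hτ
    obtain ⟨x, -, hτ⟩ := hτ
    rw [Multiset.mem_replicate] at hτ
    intro h0
    apply hτ.1
    rw [hq, ← hτ.2, h0, mul_zero, Nat.floor_zero]
  · intro y
    refine (hc1 y).trans ?_
    have : ∑ j, h (w j) y ≤ ∑ _j : Fin D, 4 * K := sum_le_sum fun j _ => hh1 _ _
    rw [sum_const, card_univ, Fintype.card_fin, nsmul_eq_mul] at this
    nlinarith [mul_le_mul_of_nonneg_left this hμ]
  · have hD' : (0 : ℝ) < D := by exact_mod_cast hD0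
    have hκ : 0 < η * D := by positivity
    have h1 : ∀ y, |cn m y - μ * D| ≤
        4 * D + μ * ((∑ j, h (w j) y - D * l y) ^ 2 / (2 * (η * D)) + η * D / 2) +
          μ * D * (1 - l y) := by
      intro y
      have a1 := mul_le_mul_of_nonneg_left (abs_le_sq (∑ j, h (w j) y - D * l y) _ hκ) hμ
      have a2 := mul_le_mul_of_nonneg_left (le_abs_self (∑ j, h (w j) y - D * l y)) hμ
      have a3 := mul_le_mul_of_nonneg_left (neg_abs_le (∑ j, h (w j) y - D * l y)) hμ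
      have a4 : 0 ≤ μ * D * (1 - l y) := mul_nonneg (by positivity) (by linarith [hl1 y])
      have a5 := hc1 y
      have a6 := hc2 y
      rw [abs_le]
      constructor <;> nlinarith
    refine (sum_le_sum fun y _ => h1 y).trans ?_
    rw [sum_add_distrib, sum_add_distrib, ← mul_sum, ← mul_sum, sum_add_distrib, ← sum_div,
      sum_const, sum_const, card_univ, nsmul_eq_mul, nsmul_eq_mul]
    have hN : (0 : ℝ) ≤ Fintype.card ι := by positivity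
    have h2 : (∑ y, (∑ j, h (w j) y - D * l y) ^ 2) / (2 * (η * D)) ≤
        Fintype.card ι * (η * D / 2) := by
      rw [div_le_iff₀ (by positivity)]
      refine hw.trans ?_
      have := mul_le_mul_of_nonneg_left hD (mul_nonneg hD'.le hN)
      nlinarith
    rw [← mul_sum]
    nlinarith [mul_le_mul_of_nonneg_left h2 hμ]

end Pool.Agent.H.MP_1ff796_co
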