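import Pool.Agent.H.MP_1ff796_co.Opt

namespace Pool.Agent.H.MP_1ff796_co

open Finset Pool.Agent.H.MP_b50c09_co

theorem ind_two {p q : Prop} (h : ¬(p ∧ q)) : ind p + ind q ≤ 1 := by
  by_cases hp : p
  · rw [ind_pos hp, ind_neg (fun hq => h ⟨hp, hq⟩), add_zero]
  · rw [ind_neg hp, zero_add]; exact ind_le_one q

theorem caseA1 (o0 o1 o2 o3 i0 i1 i2 i3 : Prop) (w0 w1 w2 w3 : ℝ)
    (e : w0 + w1 + w2 + w3 = 0) (h0 : w0 = -1) (h1 : -1 < w1) (h2 : -1 < w2) (h3 : -1 < w3)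
    (p1 : o2 ∧ i0 → w1 ≤ -1) (p2 : o3 ∧ i1 → w2 ≤ -1) (p3 : o0 ∧ i2 → w3 ≤ -1)
    (d1 : o1 ∧ i1 → 1 ≤ w1) (d2 : o2 ∧ i2 → 1 ≤ w2) (d3 : o3 ∧ i3 → 1 ≤ w3)
    (n0 : ¬o0 ∧ ¬i0) :
    (ind o0 + ind i0) + (ind o1 + ind i1) + (ind o2 + ind i2) + (ind o3 + ind i3) ≤ 4 := by
  rw [ind_neg n0.1, ind_neg n0.2]
  have a1 := ind_le_one o1
  have a2 := ind_le_one i3
  have a3 := ind_le_one o2
  have a4 := ind_le_one i2
  have a5 := ind_two (p := o3) (q := i1) fun h => by linarith [p2 h]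
  by_cases c : o2 ∧ i2
  · have := d2 c
    have b1 := ind_two (p := o1) (q := i1) fun h => by linarith [d1 h]
    have b3 := ind_two (p := o3) (q := i3) fun h => by linarith [d3 h]
    linarith
  · have := ind_two c
    linarith

theorem caseA (o0 o1 o2 o3 i0 i1 i2 i3 : Prop) (w0 w1 w2 w3 : ℝ)
    (e : w0 + w1 + w2 + w3 = 0) (h0 : -1 ≤ w0) (h1 : -1 ≤ w1) (h2 : -1 ≤ w2) (h3 : -1 ≤ w3)
    (p0 : o1 ∧ i3 → w0 ≤ -1)
    (p1 : o2 ∧ i0 → w1 ≤ -1) (p2 : o3 ∧ i1 → w2 ≤ -1) (p3 : o0 ∧ i2 → w3 ≤ -1)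
    (d0 : o0 ∧ i0 → 1 ≤ w0)
    (d1 : o1 ∧ i1 → 1 ≤ w1) (d2 : o2 ∧ i2 → 1 ≤ w2) (d3 : o3 ∧ i3 → 1 ≤ w3)
    (n0 : w0 = -1 → ¬o0 ∧ ¬i0) (n1 : w1 = -1 → ¬o1 ∧ ¬i1) (n2 : w2 = -1 → ¬o2 ∧ ¬i2)
    (n3 : w3 = -1 → ¬o3 ∧ ¬i3) :
    (ind o0 + ind i0) + (ind o1 + ind i1) + (ind o2 + ind i2) + (ind o3 + ind i3) ≤ 4 := by
  have z : ∀ {o i : Prop}, ¬o ∧ ¬i → ind o + ind i ≤ 0 := fun h => by
    rw [ind_neg h.1, ind_neg h.2, add_zero]
  have t : ∀ o i : Prop, ind o + ind i ≤ 2 := fun o i => by linarith [ind_le_one o, ind_le_one i]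
  have t0 := t o0 i0
  have t1 := t o1 i1
  have t2 := t o2 i2
  have t3 := t o3 i3
  rcases h0.eq_or_lt with h0 | h0 <;> rcases h1.eq_or_lt with h1 | h1 <;>
    rcases h2.eq_or_lt with h2 | h2 <;> rcases h3.eq_or_lt with h3 | h3
  all_goals first
    | linarith [z (n0 h0.symm), z (n1 h1.symm)]
    | linarith [z (n0 h0.symm), z (n2 h2.symm)]
    | linarith [z (n0 h0.symm), z (n3 h3.symm)]
    | linarith [z (n1 h1.symm), z (n2 h2.symm)]
    | linarith [z (n1 h1.symm), z (n3 h3.symm)]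
    | linarith [z (n2 h2.symm), z (n3 h3.symm)]
    | skip
  · exact caseA1 o0 o1 o2 o3 i0 i1 i2 i3 w0 w1 w2 w3 e h0.symm h1 h2 h3 p1 p2 p3 d1 d2 d3
      (n0 h0.symm)
  · linarith [caseA1 o1 o2 o3 o0 i1 i2 i3 i0 w1 w2 w3 w0 (by linarith) h1.symm h2 h3 h0 p2 p3 p0
      d2 d3 d0 (n1 h1.symm)]
  · linarith [caseA1 o2 o3 o0 o1 i2 i3 i0 i1 w2 w3 w0 w1 (by linarith) h2.symm h3 h0 h1 p3 p0 p1
      d3 d0 d1 (n2 h2.symm)]
  · linarith [caseA1 o3 o0 o1 o2 i3 i0 i1 i2 w3 w0 w1 w2 (by linarith) h3.symm h0 h1 h2 p0 p1 p2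
      d0 d1 d2 (n3 h3.symm)]
  · linarith [ind_two (p := o1) (q := i3) fun h => by linarith [p0 h],
      ind_two (p := o2) (q := i0) fun h => by linarith [p1 h],
      ind_two (p := o3) (q := i1) fun h => by linarith [p2 h],
      ind_two (p := o0) (q := i2) fun h => by linarith [p3 h]]

theorem caseB (o0 o1 o2 o3 i0 i1 i2 i3 : Prop) (w0 w1 w2 w3 : ℝ)
    (e : w0 + w1 + w2 + w3 = 0) (h0 : -1 ≤ w0) (h1 : -1 ≤ w1) (h2 : -1 ≤ w2) (h3 : -1 ≤ w3)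
    (p0 : o0 ∧ i1 → 2 ≤ w0 + w1) (p1 : o1 ∧ i2 → 2 ≤ w1 + w2) (p2 : o2 ∧ i3 → 2 ≤ w2 + w3)
    (p3 : o3 ∧ i0 → 2 ≤ w3 + w0)
    (n0 : w0 = -1 → ¬o0 ∧ ¬i0) (n1 : w1 = -1 → ¬o1 ∧ ¬i1) (n2 : w2 = -1 → ¬o2 ∧ ¬i2)
    (n3 : w3 = -1 → ¬o3 ∧ ¬i3) :
    (ind o0 + ind i0) + (ind o1 + ind i1) + (ind o2 + ind i2) + (ind o3 + ind i3) ≤ 4 := by
  have z : ∀ {o i : Prop}, ¬o ∧ ¬i → ind o + ind i ≤ 0 := fun h => by
    rw [ind_neg h.1, ind_neg h.2, add_zero]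
  have t : ∀ o i : Prop, ind o + ind i ≤ 2 := fun o i => by linarith [ind_le_one o, ind_le_one i]
  have t0 := t o0 i0
  have t1 := t o1 i1
  have t2 := t o2 i2
  have t3 := t o3 i3
  by_cases c0 : o0 ∧ i1
  · have := p0 c0
    linarith [z (n2 (by linarith)), z (n3 (by linarith))]
  by_cases c1 : o1 ∧ i2
  · have := p1 c1
    linarith [z (n0 (by linarith)), z (n3 (by linarith))]
  by_cases c2 : o2 ∧ i3
  · have := p2 c2
    linarith [z (n0 (by linarith)), z (n1 (by linarith))]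
  by_cases c3 : o3 ∧ i0
  · have := p3 c3
    linarith [z (n1 (by linarith)), z (n2 (by linarith))]
  linarith [ind_two c0, ind_two c1, ind_two c2, ind_two c3]

theorem caseC1 (o0 o1 o2 o3 i0 i1 i2 i3 : Prop) (w0 w1 w2 w3 : ℝ)
    (h0 : 3 ≤ w0) (h1 : w1 = -1) (h2 : w2 = -1) (h3 : w3 = -1) :
    (ind o0 + ind i0) + (ind o1 + ind i1) + (ind o2 + ind i2) + (ind o3 + ind i3) ≤
      2 + ((ind (w0 = -1) * (ind o0 + ind i0)) + (ind (w1 = -1) * (ind o1 + ind i1)) +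
        (ind (w2 = -1) * (ind o2 + ind i2)) + (ind (w3 = -1) * (ind o3 + ind i3))) ∧
      ind (w0 = -1) + ind (w1 = -1) + ind (w2 = -1) + ind (w3 = -1) = 3 := by
  rw [ind_pos h1, ind_pos h2, ind_pos h3, ind_neg (p := w0 = -1) (by linarith)]
  constructor
  · linarith [ind_le_one o0, ind_le_one i0]
  · norm_num

theorem caseC (o0 o1 o2 o3 i0 i1 i2 i3 : Prop) (w0 w1 w2 w3 : ℝ)
    (e : w0 + w1 + w2 + w3 = 0) (h0 : -1 ≤ w0) (h1 : -1 ≤ w1) (h2 : -1 ≤ w2) (h3 : -1 ≤ w3)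
    (hv : 3 ≤ w0 ∨ 3 ≤ w1 ∨ 3 ≤ w2 ∨ 3 ≤ w3) :
    (ind o0 + ind i0) + (ind o1 + ind i1) + (ind o2 + ind i2) + (ind o3 + ind i3) ≤
      2 + ((ind (w0 = -1) * (ind o0 + ind i0)) + (ind (w1 = -1) * (ind o1 + ind i1)) +
        (ind (w2 = -1) * (ind o2 + ind i2)) + (ind (w3 = -1) * (ind o3 + ind i3))) ∧
      ind (w0 = -1) + ind (w1 = -1) + ind (w2 = -1) + ind (w3 = -1) = 3 := by
  rcases hv with h | h | h | h
  · exact caseC1 _ _ _ _ _ _ _ _ _ _ _ _ h (by linarith) (by linarith) (by linarith)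
  · obtain ⟨a, b⟩ := caseC1 o1 o0 o2 o3 i1 i0 i2 i3 w1 w0 w2 w3 h (by linarith) (by linarith)
      (by linarith)
    exact ⟨by linarith, by linarith⟩
  · obtain ⟨a, b⟩ := caseC1 o2 o1 o0 o3 i2 i1 i0 i3 w2 w1 w0 w3 h (by linarith) (by linarith)
      (by linarith)
    exact ⟨by linarith, by linarith⟩
  · obtain ⟨a, b⟩ := caseC1 o3 o1 o2 o0 i3 i1 i2 i0 w3 w1 w2 w0 h (by linarith) (by linarith)
      (by linarith)
    exact ⟨by linarith, by linarith⟩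

theorem special {ι : Type} [Fintype ι] (G : ι → ι → Prop) (P : ι → Prop)
    (hP : ∀ a b, G a b → P a ∧ P b) (w : ι → ℝ) (hw : ∀ v, -1 ≤ w v)
    (h4 : ∀ a b c d, G a b → G b c → G c d → G d a → 0 ≤ w a + w b + w c + w d)
    (f : Q4 ι → ℝ) (h0 : ∀ T, 0 ≤ f T) (hf : ∀ T, f T ≠ 0 → Wk G T ∧ s4 w T = 0)
    (u : ι) (hu : P u) (hwu : w u = -1) :
    ∃ t s, P t ∧ P s ∧ (∀ z, w z = -1 → ¬(G t z ∧ G z s)) ∧
      ∑ T, f T * s4 (fun z => ind (G t z) + ind (G z s)) T ≤ 4 * ∑ T, f T := by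
  have fin : ∀ t s, (∀ T, Wk G T → s4 w T = 0 →
      s4 (fun z => ind (G t z) + ind (G z s)) T ≤ 4) →
      ∑ T, f T * s4 (fun z => ind (G t z) + ind (G z s)) T ≤ 4 * ∑ T, f T := by
    intro t s h
    rw [mul_sum]
    refine sum_le_sum fun T _ => ?_
    by_cases hT : f T = 0
    · rw [hT]; simp
    · rw [mul_comm 4]; exact mul_le_mul_of_nonneg_left (h T (hf T hT).1 (hf T hT).2) (h0 T)
  by_cases hA : ∀ z, w z = -1 → ¬G u z ∧ ¬G z u
  · refine ⟨u, u, hu, hu, fun z hz h => (hA z hz).1 h.1, fin u u ?_⟩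
    rintro ⟨a, b, c, d⟩ ⟨q1, q2, q3, q4⟩ e
    simp only [s4] at q1 q2 q3 q4 e ⊢
    refine caseA _ _ _ _ _ _ _ _ (w a) (w b) (w c) (w d) e (hw a) (hw b) (hw c) (hw d)
      (fun h => by linarith [h4 _ _ _ _ h.1 q2 q3 h.2])
      (fun h => by linarith [h4 _ _ _ _ h.1 q3 q4 h.2])
      (fun h => by linarith [h4 _ _ _ _ h.1 q4 q1 h.2])
      (fun h => by linarith [h4 _ _ _ _ h.1 q1 q2 h.2])
      (fun h => by linarith [h4 _ _ _ _ h.1 h.2 h.1 h.2])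
      (fun h => by linarith [h4 _ _ _ _ h.1 h.2 h.1 h.2])
      (fun h => by linarith [h4 _ _ _ _ h.1 h.2 h.1 h.2])
      (fun h => by linarith [h4 _ _ _ _ h.1 h.2 h.1 h.2]) (hA a) (hA b) (hA c) (hA d)
  set H : ι → ι → Prop := fun a b => G a b ∧ w a = -1 ∧ w b = -1 with hH
  by_cases hB : ∃ s x t, H s x ∧ H x t
  · set hv : Q4 ι → Prop := fun T => 3 ≤ w T.1 ∨ 3 ≤ w T.2.1 ∨ 3 ≤ w T.2.2.1 ∨ 3 ≤ w T.2.2.2
      with hhv
    set g : Q4 ι → ℝ := fun T => f T * ind (hv T) with hg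
    have hg0 : ∀ T, 0 ≤ g T := fun T => mul_nonneg (h0 T) (ind_nonneg _)
    obtain ⟨s, x, t, q1, q2, q3⟩ := pg H (fun a b c d q1 q2 q3 q4 => by
        linarith [h4 a b c d q1.1 q2.1 q3.1 q4.1, q1.2.1, q2.2.1, q3.2.1, q4.2.1])
      (fun z => ind (w z = -1) * ld g z) (fun z => mul_nonneg (ind_nonneg _)
        (sum_nonneg fun T _ => mul_nonneg (hg0 T) (mult_nonneg z T))) hB
    have hc : ∀ z, G t z ∧ G z s → 3 ≤ w z := fun z h => by
      linarith [h4 _ _ _ _ q1.1 q2.1 h.1 h.2, q1.2.1, q2.2.1, q2.2.2]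
    refine ⟨t, s, (hP _ _ q2.1).2, (hP _ _ q1.1).1, fun z hz h => by linarith [hc z h], ?_⟩
    have e1 : ms (fun z => ind (w z = -1) * ld g z) (H t) +
        ms (fun z => ind (w z = -1) * ld g z) (fun z => H z s) =
        ∑ T, g T * s4 (fun z => ind (w z = -1) * (ind (G t z) + ind (G z s))) T := by
      rw [← sum_ld, ms, ms, ← sum_add_distrib]
      refine sum_congr rfl fun z _ => ?_
      by_cases hz : w z = -1
      · rw [ind_congr (show H t z ↔ G t z by simp [hH, hz, q2.2.2]),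
          ind_congr (show H z s ↔ G z s by simp [hH, hz, q1.2.1])]
        ring
      · rw [ind_neg hz]; ring
    rw [e1, sum_ld] at q3
    have a1 : ∀ T, f T * s4 (fun z => ind (G t z) + ind (G z s)) T ≤
        4 * f T - 2 * g T +
          g T * s4 (fun z => ind (w z = -1) * (ind (G t z) + ind (G z s))) T ∧
        g T * s4 (fun z => ind (w z = -1)) T = 3 * g T := by
      intro T
      by_cases hT : f T = 0
      · simp [hg, hT]
      by_cases h : hv T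
      · obtain ⟨b1, b2⟩ := caseC (G t T.1) (G t T.2.1) (G t T.2.2.1) (G t T.2.2.2) (G T.1 s)
          (G T.2.1 s) (G T.2.2.1 s) (G T.2.2.2 s) _ _ _ _ (hf T hT).2 (hw _) (hw _) (hw _) (hw _) h
        simp only [hg, ind_pos h, mul_one, s4]
        exact ⟨by nlinarith [mul_le_mul_of_nonneg_left b1 (h0 T)], by rw [b2]; ring⟩
      · simp only [hg, ind_neg h, mul_zero, zero_mul, sub_zero, add_zero, and_true]
        simp only [hhv, not_or] at h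
        rw [mul_comm 4]
        refine mul_le_mul_of_nonneg_left ?_ (h0 T)
        unfold s4
        linarith [ind_two fun h' => h.1 (hc _ h'), ind_two fun h' => h.2.1 (hc _ h'),
          ind_two fun h' => h.2.2.1 (hc _ h'), ind_two fun h' => h.2.2.2 (hc _ h')]
    have a2 := sum_le_sum (s := univ) fun T _ => (a1 T).1
    rw [sum_congr rfl fun T _ => (a1 T).2] at q3
    simp only [sum_add_distrib, sum_sub_distrib, ← mul_sum] at a2 q3
    linarith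
  · obtain ⟨s, t, hst⟩ : ∃ s t, H s t := by
      push Not at hA
      obtain ⟨z, hz, h⟩ := hA
      by_cases h' : G u z
      · exact ⟨u, z, h', hwu, hz⟩
      · exact ⟨z, u, h h', hz, hwu⟩
    have hn : ∀ z, w z = -1 → ¬G t z ∧ ¬G z s := fun z hz =>
      ⟨fun h => hB ⟨s, t, z, hst, h, hst.2.2, hz⟩, fun h => hB ⟨z, s, t, ⟨h, hz, hst.2.1⟩, hst⟩⟩
    refine ⟨t, s, (hP _ _ hst.1).2, (hP _ _ hst.1).1, fun z hz h => (hn z hz).1 h.1, fin t s ?_⟩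
    rintro ⟨a, b, c, d⟩ ⟨q1, q2, q3, q4⟩ e
    simp only [s4] at q1 q2 q3 q4 e ⊢
    have b1 := hst.2.1
    have b2 := hst.2.2
    exact caseB _ _ _ _ _ _ _ _ (w a) (w b) (w c) (w d) e (hw a) (hw b) (hw c) (hw d)
      (fun h => by linarith [h4 _ _ _ _ hst.1 h.1 q1 h.2])
      (fun h => by linarith [h4 _ _ _ _ hst.1 h.1 q2 h.2])
      (fun h => by linarith [h4 _ _ _ _ hst.1 h.1 q3 h.2])
      (fun h => by linarith [h4 _ _ _ _ hst.1 h.1 q4 h.2]) (hn a) (hn b) (hn c) (hn d)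

theorem small {ι : Type} [Fintype ι] (G : ι → ι → Prop) (P : Finset ι)
    (hP : ∀ a b, G a b → a ∈ P ∧ b ∈ P) (ε : ℝ) (hε : 0 < ε) (hε1 : ε ≤ 1)
    (hd : ∀ u ∈ P, (1 / 2 + ε) * P.card ≤ ∑ z, ind (G u z) ∧
      (1 / 2 + ε) * P.card ≤ ∑ z, ind (G z u)) :
    ∃ f : Q4 ι → ℝ, (∀ T, 0 ≤ f T) ∧ (∀ T, f T ≠ 0 → Gd G T) ∧ (∀ v, ld f v ≤ 1) ∧
      ∀ v ∈ P, 1 - ε ≤ ld f v := by
  obtain ⟨f, w, h0, h1, h2, h3, h4, h5, h6⟩ := opt (Gd G) (4 / ε)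
    (by rw [lt_div_iff₀ hε]; linarith)
  have e : 4 / (4 / ε) = ε := by field_simp
  rw [e] at h6
  have hw : ∀ a b c d, G a b → G b c → G c d → G d a → 0 ≤ w a + w b + w c + w d := by
    intro a b c d q1 q2 q3 q4
    have two : ∀ x y, G x y → G y x → 0 ≤ w x + w y := fun x y p q => by
      have := h3 (x, y, x, y) ⟨⟨p, q, p, q⟩, Or.inr ⟨rfl, rfl⟩⟩
      simp only [s4] at this
      linarith
    by_cases c1 : a = c
    · subst c1; linarith [two _ _ q1 q2, two _ _ q3 q4]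
    by_cases c2 : b = d
    · subst c2; linarith [two _ _ q1 q4, two _ _ q2 q3]
    exact h3 (a, b, c, d) ⟨⟨q1, q2, q3, q4⟩, Or.inl ⟨c1, c2⟩⟩
  have hge : ∀ v ∈ P, 1 < ld f v := by
    intro u hu
    by_contra hlt
    obtain ⟨t, s, ht, hs, a1, a2⟩ := special G (· ∈ P) hP w h2 hw f h0
      (fun T hT => ⟨(h1 T hT).1, h4 T hT⟩) u hu (h5 u (not_lt.1 hlt))
    rw [← sum_ld] at a2
    have a3 := sum_ld (fun _ => 1) f
    have a4 : ∀ T : Q4 ι, f T * s4 (fun _ : ι => (1 : ℝ)) T = 4 * f T := fun T => by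
      unfold s4; ring
    simp only [a4, ← mul_sum, one_mul] at a3
    have a5 : ∀ z, (ind (G t z) + ind (G z s)) ≤ (ind (G t z) + ind (G z s)) * ld f z - ld f z +
        ind (z ∈ P) * (1 + ε) := by
      intro z
      by_cases hz : z ∈ P
      · rw [ind_pos hz]
        have b1 := ind_nonneg (G t z)
        have b2 := ind_nonneg (G z s)
        have b3 := h6 z
        by_cases hl : ld f z ≤ 1
        · have b4 := ind_two (a1 z (h5 z hl))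
          nlinarith
        · nlinarith
      · have b1 : ld f z = 0 := by
          by_contra h
          obtain ⟨T, hT, hv⟩ := exists_of_ld_ne f z h
          obtain ⟨⟨q1, q2, q3, q4⟩, -⟩ := h1 T hT
          rcases hv with h | h | h | h <;> subst h
          exacts [hz (hP _ _ q1).1, hz (hP _ _ q2).1, hz (hP _ _ q3).1, hz (hP _ _ q4).1]
        rw [ind_neg hz, b1, ind_neg (fun h => hz (hP _ _ h).2), ind_neg (fun h => hz (hP _ _ h).1)]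
        norm_num
    have a6 := sum_le_sum (s := univ) fun z _ => a5 z
    rw [sum_add_distrib, sum_add_distrib, sum_sub_distrib, ← sum_mul] at a6
    have a7 := mul_le_mul_of_nonneg_right (sum_ind_mem_le univ P) (show 0 ≤ 1 + ε by linarith)
    have a8 : (0 : ℝ) < P.card := by exact_mod_cast card_pos.2 ⟨u, hu⟩
    nlinarith [(hd t ht).1, (hd s hs).2, mul_pos hε a8]
  have hl : ∀ v, ld (fun T => f T / (1 + ε)) v = ld f v / (1 + ε) := fun v => by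
    unfold ld
    rw [sum_div]
    exact sum_congr rfl fun T _ => by ring
  refine ⟨fun T => f T / (1 + ε), fun T => div_nonneg (h0 T) (by linarith),
    fun T hT => h1 T fun h => hT (by simp [h]), fun v => ?_, fun v hv => ?_⟩
  · rw [hl, div_le_one (by linarith)]; exact h6 v
  · rw [hl, le_div_iff₀ (by linarith)]; nlinarith [hge v hv]

end Pool.Agent.H.MP_1ff796_co
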